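import Pool.Agent.Lib.H35P.A9

/-!
# H16LW, CE: the elementary statements of Lib/H47E/C.lean, section 3
-/

set_option autoImplicit false

namespace H16LW

variable (L : PeriodPair)

theorem ce_curve {e a c : ℂ} (root : 4 * e ^ 3 - L.g₂ * e - L.g₃ = 0) (ha : a = 3 * e) (hc : c = 3 * e ^ 2 - L.g₂ / 4)
    {z : ℂ} (hz : z ∉ L.lattice) : (L.derivWeierstrassP z / 2) ^ 2 =
      (L.weierstrassP z - e) ^ 3 + a * (L.weierstrassP z - e) ^ 2 + c * (L.weierstrassP z - e) := by
  have h := L.derivWeierstrassP_sq z hz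
  rw [ha, hc]
  linear_combination h / 4 + root / 4

theorem ce_x_deriv (e : ℂ) {z : ℂ} (hz : z ∉ L.lattice) :
    HasDerivAt (fun z => L.weierstrassP z - e) (2 * (L.derivWeierstrassP z / 2)) z := by
  have h := (H35P.wp_hasDeriv L z hz).sub_const e
  have e1 : 2 * (L.derivWeierstrassP z / 2) = L.derivWeierstrassP z := by ring
  rw [e1]
  exact h

theorem ce_y_deriv {e a c : ℂ} (ha : a = 3 * e) (hc : c = 3 * e ^ 2 - L.g₂ / 4) {z : ℂ} (hz : z ∉ L.lattice) :
    HasDerivAt (fun z => L.derivWeierstrassP z / 2)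
      (3 * (L.weierstrassP z - e) ^ 2 + 2 * a * (L.weierstrassP z - e) + c) z := by
  have h := (H35P.wpd_hasDeriv L z hz).div_const 2
  have e1 : (6 * L.weierstrassP z ^ 2 - L.g₂ / 2) / 2 =
      3 * (L.weierstrassP z - e) ^ 2 + 2 * a * (L.weierstrassP z - e) + c := by
    rw [ha, hc]; ring
  rw [← e1]
  exact h

theorem ce_w_deriv (e : ℂ) {z : ℂ} (hz : z ∉ L.lattice) :
    HasDerivAt (fun z => H35P.A5_z L z + e * z) (-(L.weierstrassP z - e)) z := by
  have h := (H35P.A5_hasDeriv L z hz).add ((hasDerivAt_id z).const_mul e)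
  have e1 : -L.weierstrassP z + e * 1 = -(L.weierstrassP z - e) := by ring
  rw [← e1]
  exact h

/-- The values of `wp'` at the half periods vanish. -/
theorem ce_half {z : ℂ} (h2 : 2 * z ∈ L.lattice) : L.derivWeierstrassP z = 0 := by
  have h1 := L.derivWeierstrassP_add_coe (-z) ⟨2 * z, h2⟩
  have e1 : -z + (⟨2 * z, h2⟩ : L.lattice) = z := by
    show -z + 2 * z = z
    ring
  rw [e1, L.derivWeierstrassP_neg] at h1
  have h3 : 2 * L.derivWeierstrassP z = 0 := by linear_combination h1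
  exact (mul_eq_zero.1 h3).resolve_left two_ne_zero

/-- `x` vanishes only at a half period. -/
theorem ce_x_ne {e a c : ℂ} (root : 4 * e ^ 3 - L.g₂ * e - L.g₃ = 0) (ha : a = 3 * e) (hc : c = 3 * e ^ 2 - L.g₂ / 4)
    {z : ℂ} (hz : 2 * z ∉ L.lattice) : L.weierstrassP z - e ≠ 0 := by
  have hz' : z ∉ L.lattice := fun h => hz (by
    have := L.lattice.add_mem h h
    rwa [← two_mul] at this)
  intro h
  have h1 := ce_curve L root ha hc hz'
  rw [h] at h1
  have h2 : L.derivWeierstrassP z ^ 2 = 0 := by linear_combination 4 * h1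
  exact H35P.wpd_ne L z hz' hz (pow_eq_zero_iff two_ne_zero |>.1 h2)

/-- Rational combinations with a non-integral coefficient are not in the lattice. -/
theorem ce_nm (q r : ℚ) (h : q.den ≠ 1 ∨ r.den ≠ 1) {z : ℂ} (hz : z = (q : ℂ) * L.ω₁ + (r : ℂ) * L.ω₂) : z ∉ L.lattice := by
  rw [hz, PeriodPair.mul_ω₁_add_mul_ω₂_mem_lattice]
  rintro ⟨h1, h2⟩
  rcases h with h | h
  · exact h h1
  · exact h h2

/-- The curve is nonsingular. -/
theorem ce_disc {e a c : ℂ} (root : 4 * e ^ 3 - L.g₂ * e - L.g₃ = 0) (ha : a = 3 * e) (hc : c = 3 * e ^ 2 - L.g₂ / 4) :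
    c ≠ 0 ∧ a ^ 2 ≠ 4 * c := by
  have n1 : L.ω₁ / 2 ∉ L.lattice := L.ω₁_div_two_notMem_lattice
  have n2 : L.ω₂ / 2 ∉ L.lattice := L.ω₂_div_two_notMem_lattice
  have n3 : (L.ω₁ + L.ω₂) / 2 ∉ L.lattice := ce_nm L (1 / 2) (1 / 2) (Or.inl (by norm_num)) (by push_cast; ring)
  have n4 : L.ω₁ / 2 + L.ω₂ / 2 ∉ L.lattice := ce_nm L (1 / 2) (1 / 2) (Or.inl (by norm_num)) (by push_cast; ring)
  have n5 : L.ω₁ / 2 - L.ω₂ / 2 ∉ L.lattice := ce_nm L (1 / 2) (-(1 / 2)) (Or.inl (by norm_num)) (by push_cast; ring)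
  have n6 : L.ω₁ / 2 + (L.ω₁ + L.ω₂) / 2 ∉ L.lattice := ce_nm L 1 (1 / 2) (Or.inr (by norm_num)) (by push_cast; ring)
  have n7 : L.ω₁ / 2 - (L.ω₁ + L.ω₂) / 2 ∉ L.lattice := ce_nm L 0 (-(1 / 2)) (Or.inr (by norm_num)) (by push_cast; ring)
  have n8 : L.ω₂ / 2 + (L.ω₁ + L.ω₂) / 2 ∉ L.lattice := ce_nm L (1 / 2) 1 (Or.inl (by norm_num)) (by push_cast; ring)
  have n9 : L.ω₂ / 2 - (L.ω₁ + L.ω₂) / 2 ∉ L.lattice := ce_nm L (-(1 / 2)) 0 (Or.inl (by norm_num)) (by push_cast; ring)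
  have d1 := H35P.wp_ne L _ _ n1 n2 n4 n5
  have d2 := H35P.wp_ne L _ _ n1 n3 n6 n7
  have d3 := H35P.wp_ne L _ _ n2 n3 n8 n9
  have key : ∀ z, z ∉ L.lattice → 2 * z ∈ L.lattice → (L.weierstrassP z - e) ^ 3 + a * (L.weierstrassP z - e) ^ 2 +
      c * (L.weierstrassP z - e) = 0 := by
    intro z hz h2
    rw [← ce_curve L root ha hc hz, ce_half L h2]
    ring
  have k1 := key _ n1 (by rw [mul_div_cancel₀ _ two_ne_zero]; exact L.ω₁_mem_lattice)
  have k2 := key _ n2 (by rw [mul_div_cancel₀ _ two_ne_zero]; exact L.ω₂_mem_lattice)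
  have k3 := key _ n3 (by rw [mul_div_cancel₀ _ two_ne_zero]; exact L.lattice.add_mem L.ω₁_mem_lattice L.ω₂_mem_lattice)
  generalize L.weierstrassP (L.ω₁ / 2) = x1 at *
  generalize L.weierstrassP (L.ω₂ / 2) = x2 at *
  generalize L.weierstrassP ((L.ω₁ + L.ω₂) / 2) = x3 at *
  have f1 : x1 - e - (x2 - e) ≠ 0 := fun h => d1 (by linear_combination h)
  have f2 : x1 - e - (x3 - e) ≠ 0 := fun h => d2 (by linear_combination h)
  have f3 : x2 - e - (x3 - e) ≠ 0 := fun h => d3 (by linear_combination h)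
  generalize x1 - e = y1 at *
  generalize x2 - e = y2 at *
  generalize x3 - e = y3 at *
  -- Vieta
  have g1 : y1 ^ 2 + y1 * y2 + y2 ^ 2 + a * (y1 + y2) + c = 0 := by
    refine (mul_eq_zero.1 (?_ : (y1 - y2) * _ = 0)).resolve_left f1
    linear_combination k1 - k2
  have g2 : y1 ^ 2 + y1 * y3 + y3 ^ 2 + a * (y1 + y3) + c = 0 := by
    refine (mul_eq_zero.1 (?_ : (y1 - y3) * _ = 0)).resolve_left f2
    linear_combination k1 - k3
  have g3 : y1 + y2 + y3 + a = 0 := by
    refine (mul_eq_zero.1 (?_ : (y2 - y3) * _ = 0)).resolve_left f3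
    linear_combination g1 - g2
  have g4 : c = y1 * y2 + y1 * y3 + y2 * y3 := by
    linear_combination g1 - (y1 + y2) * g3
  have g5 : y1 * y2 * y3 = 0 := by
    linear_combination (-y1 ^ 2) * g3 + k1 - y1 * g4
  constructor
  · intro h0
    rcases mul_eq_zero.1 g5 with h | h
    · rcases mul_eq_zero.1 h with h | h
      · rw [h, h0] at g4
        have : y2 * y3 = 0 := by linear_combination -g4
        rcases mul_eq_zero.1 this with h' | h'
        · exact f1 (by rw [h, h', sub_zero])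
        · exact f2 (by rw [h, h', sub_zero])
      · rw [h, h0] at g4
        have : y1 * y3 = 0 := by linear_combination -g4
        rcases mul_eq_zero.1 this with h' | h'
        · exact f1 (by rw [h, h', sub_zero])
        · exact f3 (by rw [h, h', sub_zero])
    · rw [h, h0] at g4
      have : y1 * y2 = 0 := by linear_combination -g4
      rcases mul_eq_zero.1 this with h' | h'
      · exact f2 (by rw [h, h', sub_zero])
      · exact f3 (by rw [h, h', sub_zero])
  · intro h0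
    have ha' : a = -(y1 + y2 + y3) := by linear_combination g3
    rw [ha', g4] at h0
    rcases mul_eq_zero.1 g5 with h | h
    · rcases mul_eq_zero.1 h with h | h
      · rw [h] at h0
        exact f3 (pow_eq_zero_iff two_ne_zero |>.1 (by linear_combination h0))
      · rw [h] at h0
        exact f2 (pow_eq_zero_iff two_ne_zero |>.1 (by linear_combination h0))
    · rw [h] at h0
      exact f1 (pow_eq_zero_iff two_ne_zero |>.1 (by linear_combination h0))

end H16LW
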