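import Pool.Agent.Lib.H47E.C

/-!
# H16LW, D0: definitions of Lib/H47E/D.lean (moved here; D.lean will import this file)
-/

set_option autoImplicit false

namespace H47E

variable {L : PeriodPair}

/-- Complex multiplication. -/
def CM (L : PeriodPair) : Prop := ∃ α : ℂ, α.im ≠ 0 ∧ ∀ l ∈ L.lattice, α * l ∈ L.lattice

/-- Linear independence over the field `k` of complex multiplications (in the form of the problem file). -/
def KInd (L : PeriodPair) {n : ℕ} (p : Fin n → ℂ) : Prop :=
  ∀ c : Fin n → ℂ, (∀ j, ∀ l ∈ L.lattice, ∃ N : ℤ, N ≠ 0 ∧ (N : ℂ) * (c j * l) ∈ L.lattice) →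
    ∑ j, c j * p j = 0 → c = 0

/-- The derivation of the polynomial ring in `z, x_j, y_j`. -/
noncomputable def dS {K : Type} [Field K] {n : ℕ} (a c : K) (p : Fin n → K) :
    Derivation K (MvPolynomial (Option (Fin n × Fin 2)) K) (MvPolynomial (Option (Fin n × Fin 2)) K) :=
  MvPolynomial.mkDerivation K fun i => match i with
    | none => 1
    | some (j, 0) => MvPolynomial.C (2 * p j) * MvPolynomial.X (some (j, 1))
    | some (j, 1) => MvPolynomial.C (p j) * (3 * MvPolynomial.X (some (j, 0)) ^ 2
        + 2 * MvPolynomial.C a * MvPolynomial.X (some (j, 0)) + MvPolynomial.C c)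

/-- The value of a polynomial in `z, x_j, y_j` at the point with parameters `z₀, v_j`. -/
noncomputable def evS {K : Type} [Field K] (ι : K →+* ℂ) (L : PeriodPair) (e : ℂ) {n : ℕ} (z₀ : ℂ) (v : Fin n → ℂ) :
    MvPolynomial (Option (Fin n × Fin 2)) K →+* ℂ :=
  MvPolynomial.eval₂Hom ι fun i => match i with
    | none => z₀
    | some (j, 0) => xf L e (v j)
    | some (j, 1) => yf L (v j)

end H47E
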