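import Pool.Agent.Lib.H35P.A2

/-!
# H16LW, E1: an even elliptic function with poles at most at the lattice is a polynomial in wp

Chunk E1 (M). PROOF. Induction on `k`. `k = 0`: `F` agrees near every point (punctured) with an analytic function (at lattice points by periodicity: `a z = b (z - l)`,
H35P.tendsto_punct), so `H35P.liouville` gives `c` with `a z₀ = c` for all such `z₀, a`. For `z₀` and its `a`: for `z ≠ z₀` near `z₀`, `a` is analytic at `z` and `F = a` near `z`, so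
`F z = a z = c`: `P = C c`. Step `k + 1`: `b (-z) = b z` near `0`. `G z = F z - b 0 * wp z ^ (k + 1)` has the same properties and `z ^ (2k+2) G z = b z - b 0 * (1 + z ^ 2 u z) ^ (k + 1) =: b1 z`
(H35P.wp_zero: `wp z = (z ^ 2)⁻¹ + u z`), `b1` is analytic at `0`, `b1 0 = 0`, and even near `0`, so `deriv b1 0 = 0`; so `b1 z = z ^ 2 * b2 z` near `0` with `b2` analytic
(`natCast_le_analyticOrderAt`, or `dslope` twice). So `z ^ (2k) G z = b2 z` near `0`, `z ≠ 0`; induction.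
-/

set_option autoImplicit false

namespace H16LW

/-- The case without poles. -/
theorem even_poly_zero (L : PeriodPair) (F : ℂ → ℂ) (hper : ∀ z, ∀ l ∈ L.lattice, F (z + l) = F z)
    (hF : ∀ z₀, z₀ ∉ L.lattice → ∃ a : ℂ → ℂ, AnalyticAt ℂ a z₀ ∧ ∀ᶠ z in nhdsWithin z₀ {z₀}ᶜ, F z = a z)
    (h0 : ∃ b : ℂ → ℂ, AnalyticAt ℂ b 0 ∧ ∀ᶠ z in nhdsWithin (0 : ℂ) {0}ᶜ, F z = b z) :
    ∃ c : ℂ, ∀ z₀, ∀ᶠ z in nhdsWithin z₀ {z₀}ᶜ, F z = c := by
  have hall : ∀ z₀, ∃ a : ℂ → ℂ, AnalyticAt ℂ a z₀ ∧ ∀ᶠ z in nhdsWithin z₀ {z₀}ᶜ, F z = a z := by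
    intro z₀
    by_cases hz : z₀ ∈ L.lattice
    · obtain ⟨b, hb, hb2⟩ := h0
      refine ⟨fun z => b (z - z₀), ?_, ?_⟩
      · have : AnalyticAt ℂ b (z₀ - z₀) := by rwa [sub_self]
        exact this.comp (f := fun z : ℂ => z - z₀) (by fun_prop)
      · have ht := H35P.tendsto_punct (fun z : ℂ => z - z₀) z₀ (by fun_prop) (sub_left_injective)
        simp only [sub_self] at ht
        filter_upwards [ht.eventually hb2] with z hz'
        rw [← hz', ← hper (z - z₀) z₀ hz, sub_add_cancel]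
    · exact hF z₀ hz
  obtain ⟨c, hc⟩ := H35P.liouville L F hper hall
  refine ⟨c, fun z₀ => ?_⟩
  obtain ⟨a, ha, ha2⟩ := hall z₀
  have h1 := eventually_eventually_nhdsWithin.2 ha2
  have h2 : ∀ᶠ z in nhdsWithin z₀ {z₀}ᶜ, AnalyticAt ℂ a z := nhdsWithin_le_nhds ha.eventually_analyticAt
  filter_upwards [h1, h2, ha2, self_mem_nhdsWithin] with y hy1 hy2 hy3 hy4
  rw [hy3]
  refine hc y a hy2.continuousAt ?_
  have ho : IsOpen ({z₀}ᶜ : Set ℂ) := isOpen_compl_singleton
  rw [ho.nhdsWithin_eq hy4] at hy1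
  exact nhdsWithin_le_nhds hy1

/-- The step: division by `z ^ 2`. -/
theorem even_div {b : ℂ → ℂ} (hb : AnalyticAt ℂ b 0) (h0 : b 0 = 0) (he : ∀ᶠ z in nhds (0 : ℂ), b (-z) = b z) :
    ∃ g : ℂ → ℂ, AnalyticAt ℂ g 0 ∧ ∀ᶠ z in nhds (0 : ℂ), b z = z ^ 2 * g z := by
  have hd : deriv b 0 = 0 := by
    have h1 : deriv (fun z => b (-z)) 0 = deriv b 0 := Filter.EventuallyEq.deriv_eq he
    rw [deriv_comp_neg, neg_zero] at h1
    have h2 : (2 : ℂ) * deriv b 0 = 0 := by linear_combination -h1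
    exact (mul_eq_zero.1 h2).resolve_left two_ne_zero
  have h2 : ((2 : ℕ) : ℕ∞) ≤ analyticOrderAt b 0 := by
    rw [natCast_le_analyticOrderAt_iff_iteratedDeriv_eq_zero hb]
    intro i hi
    interval_cases i
    · simpa using h0
    · rw [iteratedDeriv_one]; exact hd
  obtain ⟨g, hg, hg2⟩ := (natCast_le_analyticOrderAt hb).1 h2
  refine ⟨g, hg, ?_⟩
  filter_upwards [hg2] with z hz
  rw [hz, sub_zero, smul_eq_mul]

/-- An even elliptic function with poles at most at the lattice is a polynomial in `wp`. -/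
theorem even_poly (L : PeriodPair) (k : ℕ) (F : ℂ → ℂ) (hper : ∀ z, ∀ l ∈ L.lattice, F (z + l) = F z) (heven : ∀ z, F (-z) = F z)
    (hF : ∀ z₀, z₀ ∉ L.lattice → ∃ a : ℂ → ℂ, AnalyticAt ℂ a z₀ ∧ ∀ᶠ z in nhdsWithin z₀ {z₀}ᶜ, F z = a z)
    (h0 : ∃ b : ℂ → ℂ, AnalyticAt ℂ b 0 ∧ ∀ᶠ z in nhdsWithin (0 : ℂ) {0}ᶜ, z ^ (2 * k) * F z = b z) :
    ∃ P : Polynomial ℂ, ∀ z₀, ∀ᶠ z in nhdsWithin z₀ {z₀}ᶜ, F z = P.eval (L.weierstrassP z) := by
  induction k generalizing F with
  | zero =>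
    simp only [mul_zero, pow_zero, one_mul] at h0
    obtain ⟨c, hc⟩ := even_poly_zero L F hper hF h0
    exact ⟨Polynomial.C c, fun z₀ => by simpa using hc z₀⟩
  | succ k ih =>
    obtain ⟨b, hb, hb2⟩ := h0
    obtain ⟨u, hu, hu0, hwp⟩ := H35P.wp_zero L
    have hneg : Filter.Tendsto (fun z : ℂ => -z) (nhdsWithin (0 : ℂ) {0}ᶜ) (nhdsWithin (0 : ℂ) {0}ᶜ) := by
      have := H35P.tendsto_punct (fun z : ℂ => -z) 0 (by fun_prop) neg_injective
      simpa using this
    have hbe : ∀ᶠ z in nhds (0 : ℂ), b (-z) = b z := by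
      have h1 : ∀ᶠ z in nhdsWithin (0 : ℂ) {0}ᶜ, b (-z) = b z := by
        filter_upwards [hb2, hneg.eventually hb2] with z h1 h2
        rw [← h1, ← h2, heven, Even.neg_pow (even_two_mul _)]
      rw [eventually_nhdsWithin_iff] at h1
      filter_upwards [h1] with z hz
      by_cases hz0 : z = 0
      · rw [hz0, neg_zero]
      · exact hz hz0
    have hue : ∀ᶠ z in nhds (0 : ℂ), u (-z) = u z := by
      filter_upwards with z
      by_cases hz0 : z = 0
      · rw [hz0, neg_zero]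
      · have h1 := hwp z hz0
        have h2 := hwp (-z) (neg_ne_zero.2 hz0)
        rw [L.weierstrassP_neg, h1, neg_sq] at h2
        exact (add_left_cancel h2).symm
    have hb1 : AnalyticAt ℂ (fun z => b z - b 0 * (1 + z ^ 2 * u z) ^ (k + 1)) 0 := by fun_prop
    obtain ⟨g, hg, hg2⟩ := even_div hb1 (by simp) (by
      filter_upwards [hbe, hue] with z h1 h2
      rw [h1, h2, neg_sq])
    obtain ⟨P, hP⟩ := ih (fun z => F z - b 0 * L.weierstrassP z ^ (k + 1))
      (fun z l hl => by rw [hper z l hl, L.weierstrassP_add_coe z ⟨l, hl⟩])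
      (fun z => by rw [heven, L.weierstrassP_neg])
      (fun z₀ hz₀ => by
        obtain ⟨a, ha, ha2⟩ := hF z₀ hz₀
        have hw := H35P.wp_analytic L z₀ hz₀
        refine ⟨fun z => a z - b 0 * L.weierstrassP z ^ (k + 1), by fun_prop, ?_⟩
        filter_upwards [ha2] with z hz
        rw [hz])
      ⟨g, hg, by
        filter_upwards [hb2, nhdsWithin_le_nhds hg2, self_mem_nhdsWithin] with z h1 h2 h3
        have hz0 : z ≠ 0 := h3
        have h4 : z ^ 2 * (z ^ (2 * k) * (F z - b 0 * L.weierstrassP z ^ (k + 1))) = z ^ 2 * g z := by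
          rw [← h2, hwp z hz0, ← h1]
          have e1 : (1 + z ^ 2 * u z) ^ (k + 1) = z ^ (2 * (k + 1)) * ((z ^ 2)⁻¹ + u z) ^ (k + 1) := by
            rw [pow_mul, ← mul_pow]
            congr 1
            field_simp
          rw [e1]
          ring
        exact mul_left_cancel₀ (pow_ne_zero 2 hz0) h4⟩
    refine ⟨P + Polynomial.C (b 0) * Polynomial.X ^ (k + 1), fun z₀ => ?_⟩
    filter_upwards [hP z₀] with z hz
    have hz' : F z - b 0 * L.weierstrassP z ^ (k + 1) = P.eval (L.weierstrassP z) := hz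
    simp only [Polynomial.eval_add, Polynomial.eval_mul, Polynomial.eval_C, Polynomial.eval_pow, Polynomial.eval_X]
    linear_combination hz'

end H16LW
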