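import Mathlib

/-!
# H16LW, E4: the multiplier is a quadratic integer

Chunk E4 (S). PROOF. `al ω₁ = m ω₁ + n ω₂`, `al ω₂ = m' ω₁ + n' ω₂` with integers (PeriodPair.mem_lattice). `A = m + n'`, `B = m n' - m' n`: `(al - m) ω₁ = n ω₂`, `(al - n') ω₂ = m' ω₁`, so
`((al - m) (al - n') - m' n) ω₁ ω₂ = 0` and `ω₁, ω₂ ≠ 0` (L.indep). Imaginary part of `al ^ 2 - A al + B = 0`: `2 Re al Im al = A Im al`, `A = 2 Re al`; real part: `B = |al| ^ 2`; so
`A ^ 2 - 4 B = - 4 (Im al) ^ 2 < 0`.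
-/

set_option autoImplicit false

namespace H16LW

/-- The multiplier is a quadratic integer. -/
theorem cm_quad (L : PeriodPair) (al : ℂ) (hal : al.im ≠ 0) (hL : ∀ l ∈ L.lattice, al * l ∈ L.lattice) :
    ∃ A₀ B₀ : ℤ, al ^ 2 - (A₀ : ℂ) * al + (B₀ : ℂ) = 0 ∧ A₀ ^ 2 - 4 * B₀ < 0 := by
  obtain ⟨m, n, h1⟩ := PeriodPair.mem_lattice.1 (hL L.ω₁ L.ω₁_mem_lattice)
  obtain ⟨m', n', h2⟩ := PeriodPair.mem_lattice.1 (hL L.ω₂ L.ω₂_mem_lattice)
  have hw1 : L.ω₁ ≠ 0 := L.indep.ne_zero 0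
  have hw2 : L.ω₂ ≠ 0 := L.indep.ne_zero 1
  have h3 : ((al - m) * (al - n') - m' * n) * (L.ω₁ * L.ω₂) = 0 := by
    have h4 : (al - m) * L.ω₁ = n * L.ω₂ := by
      rw [sub_mul, ← h1]
      ring
    have h5 : (al - n') * L.ω₂ = m' * L.ω₁ := by
      rw [sub_mul, ← h2]
      ring
    calc ((al - m) * (al - n') - m' * n) * (L.ω₁ * L.ω₂)
        = ((al - m) * L.ω₁) * ((al - n') * L.ω₂) - m' * n * (L.ω₁ * L.ω₂) := by ring
      _ = 0 := by
        rw [h4, h5]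
        ring
  have h6 : (al - m) * (al - n') - m' * n = 0 := by
    rcases mul_eq_zero.1 h3 with h | h
    · exact h
    · exact absurd h (mul_ne_zero hw1 hw2)
  have h7 : al ^ 2 - ((m + n' : ℤ) : ℂ) * al + ((m * n' - m' * n : ℤ) : ℂ) = 0 := by
    push_cast
    rw [← h6]
    ring
  refine ⟨m + n', m * n' - m' * n, h7, ?_⟩
  obtain ⟨A, hA⟩ : ∃ A : ℤ, A = m + n' := ⟨_, rfl⟩
  obtain ⟨B, hB⟩ : ∃ B : ℤ, B = m * n' - m' * n := ⟨_, rfl⟩
  rw [← hA, ← hB] at h7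
  rw [← hA, ← hB]
  have h8 := congrArg Complex.re h7
  have h9 := congrArg Complex.im h7
  have h10 : (((A : ℤ) : ℂ)).re = (A : ℝ) := Complex.intCast_re A
  have h11 : (((A : ℤ) : ℂ)).im = 0 := Complex.intCast_im A
  have h12 : (((B : ℤ) : ℂ)).re = (B : ℝ) := Complex.intCast_re B
  have h13 : (((B : ℤ) : ℂ)).im = 0 := Complex.intCast_im B
  rw [pow_two, Complex.add_re, Complex.sub_re, Complex.mul_re, Complex.mul_re, h10, h11, h12, Complex.zero_re] at h8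
  rw [pow_two, Complex.add_im, Complex.sub_im, Complex.mul_im, Complex.mul_im, h10, h11, h13, Complex.zero_im] at h9
  have h14 : al.im * (2 * al.re - A) = 0 := by linarith
  have h15 : (A : ℝ) = 2 * al.re := by
    rcases mul_eq_zero.1 h14 with h | h
    · exact absurd h hal
    · linarith
  have h16 : (B : ℝ) = al.re ^ 2 + al.im ^ 2 := by
    rw [h15] at h8
    nlinarith
  have h17 : ((A ^ 2 - 4 * B : ℤ) : ℝ) < 0 := by
    push_cast
    rw [h15, h16]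
    have : 0 < al.im ^ 2 := by positivity
    nlinarith
  exact_mod_cast h17

end H16LW
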