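import Pool.Agent.Lib.H16LW.E1
import Pool.Agent.Lib.H16LW.E4
import Pool.Agent.Lib.H47E.C

/-!
# H16LW, E2: x(al z) is a rational function of x(z)

Chunk E2 (M/L). PROOF. `cm_quad` (E4): `al ^ 2 - A al + B = 0`, `B > 0` (`4 B > A ^ 2 ≥ 0`). If `al z₀ ∈ L.lattice` then `B z₀ = (A - al) (al z₀) ∈ L.lattice`. So every `z₀ ∉ L.lattice` with
`al z₀ ∈ L.lattice` is congruent modulo the lattice to a point of the finite set `S = {(i ω₁ + j ω₂) / B : 0 ≤ i, j < B} \ {0}`. Put `DD₁ = ∏_{s ∈ S} (X - C (wp s)) ^ 2`,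
`F z = wp (al z) * DD₁.eval (wp z)`. It is periodic (`al l ∈ L.lattice`), even. At `z₀` with `z₀, al z₀ ∉ L.lattice` it is analytic. At `z₀ ∉ L.lattice` with `al z₀ ∈ L.lattice`, `z₀ = s + l`:
`wp z - wp s = (z - z₀) g z` near `z₀` (analytic, vanishes at `z₀`), `wp (al z) = wp (al (z - z₀)) = (al (z - z₀)) ^ (-2) + u (al (z - z₀))`, so `wp (al z) (wp z - wp s) ^ 2 = al ^ (-2) (g z) ^ 2 + u (..) (z - z₀) ^ 2 (g z) ^ 2`
near `z₀`, `z ≠ z₀`: analytic. At `0`: `z ^ 2 wp (al z)` and `z ^ 4 (wp z - wp s) ^ 2` are analytic near `0`, so `z ^ (2 (1 + 2 #S)) F z` is. `even_poly`: `F = P (wp)`. With `wp = x + e`: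
`DD = DD₁.comp (X + C e)`, `NN = P.comp (X + C e) - C e * DD`.
-/

set_option autoImplicit false

namespace H16LW

open H47E

theorem E2_cover (L : PeriodPair) (al : ℂ) (hL : ∀ l ∈ L.lattice, al * l ∈ L.lattice) (A₀ B₀ : ℤ) (hB : 0 < B₀)
    (hq : al ^ 2 - (A₀ : ℂ) * al + (B₀ : ℂ) = 0) : ∃ S : Finset ℂ, ∀ z, al * z ∈ L.lattice → ∃ s ∈ S, z - s ∈ L.lattice := by
  classical
  refine ⟨(Finset.range B₀.toNat ×ˢ Finset.range B₀.toNat).image
    (fun q : ℕ × ℕ => ((q.1 : ℂ) * L.ω₁ + (q.2 : ℂ) * L.ω₂) / (B₀ : ℂ)), fun z hz => ?_⟩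
  have h1 : (B₀ : ℂ) * z ∈ L.lattice := by
    have h2 := L.lattice.sub_mem (L.lattice.smul_mem A₀ hz) (hL _ hz)
    have e : (A₀ : ℤ) • (al * z) - al * (al * z) = (B₀ : ℂ) * z := by
      rw [zsmul_eq_mul]
      linear_combination (-z) * hq
    rwa [e] at h2
  obtain ⟨m, k, hmk⟩ := PeriodPair.mem_lattice.1 h1
  have hB0 : (B₀ : ℂ) ≠ 0 := by exact_mod_cast hB.ne'
  have hi : ((m % B₀).toNat : ℤ) = m % B₀ := Int.toNat_of_nonneg (Int.emod_nonneg _ hB.ne')
  have hj : ((k % B₀).toNat : ℤ) = k % B₀ := Int.toNat_of_nonneg (Int.emod_nonneg _ hB.ne')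
  refine ⟨(((m % B₀).toNat : ℂ) * L.ω₁ + ((k % B₀).toNat : ℂ) * L.ω₂) / (B₀ : ℂ), ?_, ?_⟩
  · rw [Finset.mem_image]
    refine ⟨((m % B₀).toNat, (k % B₀).toNat), ?_, rfl⟩
    rw [Finset.mem_product, Finset.mem_range, Finset.mem_range]
    have h3 := Int.emod_lt_of_pos m hB
    have h4 := Int.emod_lt_of_pos k hB
    constructor
    · show (m % B₀).toNat < B₀.toNat
      omega
    · show (k % B₀).toNat < B₀.toNat
      omega
  · rw [PeriodPair.mem_lattice]
    refine ⟨m / B₀, k / B₀, ?_⟩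
    have hi' : ((m % B₀).toNat : ℂ) = (m : ℂ) - (B₀ : ℂ) * ((m / B₀ : ℤ) : ℂ) := by
      have h5 : ((m % B₀).toNat : ℤ) = m - B₀ * (m / B₀) := by rw [hi]; exact Int.emod_def m B₀
      exact_mod_cast congrArg (Int.cast : ℤ → ℂ) h5
    have hj' : ((k % B₀).toNat : ℂ) = (k : ℂ) - (B₀ : ℂ) * ((k / B₀ : ℤ) : ℂ) := by
      have h5 : ((k % B₀).toNat : ℤ) = k - B₀ * (k / B₀) := by rw [hj]; exact Int.emod_def k B₀
      exact_mod_cast congrArg (Int.cast : ℤ → ℂ) h5
    rw [hi', hj']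
    field_simp
    linear_combination hmk

/-- `x (al z)` is a rational function of `x z`. -/
theorem cm_rat (L : PeriodPair) (al : ℂ) (hal : al.im ≠ 0) (hL : ∀ l ∈ L.lattice, al * l ∈ L.lattice) (e : ℂ) :
    ∃ NN DD : Polynomial ℂ, DD ≠ 0 ∧ ∀ z₀, ∀ᶠ z in nhdsWithin z₀ {z₀}ᶜ,
      xf L e (al * z) * DD.eval (xf L e z) = NN.eval (xf L e z) := by
  classical
  obtain ⟨A₀, B₀, hq, hd⟩ := cm_quad L al hal hL
  have hB : 0 < B₀ := by nlinarith [sq_nonneg A₀]
  have hal0 : al ≠ 0 := by rintro rfl; exact hal rfl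
  obtain ⟨S, hS⟩ := E2_cover L al hL A₀ B₀ hB hq
  obtain ⟨u, hu, hu0, hwp⟩ := H35P.wp_zero L
  have hwa : ∀ z ∉ L.lattice, AnalyticAt ℂ L.weierstrassP z := H35P.wp_analytic L
  set Pr : Finset ℂ → ℂ → ℂ := fun T z => ∏ s ∈ T, (L.weierstrassP z - L.weierstrassP s) ^ 2 with hPr
  have hPra : ∀ T z, z ∉ L.lattice → AnalyticAt ℂ (Pr T) z := by
    intro T z hz
    have h1 := hwa z hz
    have h2 : ∀ s ∈ T, AnalyticAt ℂ (fun z => (L.weierstrassP z - L.weierstrassP s) ^ 2) z := by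
      intro s _
      fun_prop
    exact Finset.analyticAt_fun_prod T h2
  have hlin : AnalyticAt ℂ (fun z : ℂ => al * z) 0 := by fun_prop
  obtain ⟨P, hP⟩ := even_poly L (1 + 2 * S.card) (fun z => L.weierstrassP (al * z) * Pr S z)
    (fun z l hl => by
      have e1 : al * (z + l) = al * z + al * l := by ring
      simp only [hPr]
      rw [e1, L.weierstrassP_add_coe z ⟨l, hl⟩, L.weierstrassP_add_coe (al * z) ⟨al * l, hL l hl⟩])
    (fun z => by
      simp only [hPr]
      rw [mul_neg, L.weierstrassP_neg, L.weierstrassP_neg])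
    (fun z₀ hz₀ => by
      by_cases hz : al * z₀ ∈ L.lattice
      · obtain ⟨s, hs, hs2⟩ := hS z₀ hz
        have hws : L.weierstrassP s = L.weierstrassP z₀ := by
          have h1 := L.weierstrassP_add_coe s ⟨z₀ - s, hs2⟩
          rw [← h1]
          congr 1
          show s + (z₀ - s) = z₀
          ring
        have h1 := hwa z₀ hz₀
        have h2 : AnalyticAt ℂ (fun z => L.weierstrassP z - L.weierstrassP z₀) z₀ := by fun_prop
        have h3 : ((1 : ℕ) : ℕ∞) ≤ analyticOrderAt (fun z => L.weierstrassP z - L.weierstrassP z₀) z₀ := by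
          rw [natCast_le_analyticOrderAt_iff_iteratedDeriv_eq_zero h2]
          intro i hi
          have : i = 0 := by omega
          subst this
          simp
        obtain ⟨g, hg, hg2⟩ := (natCast_le_analyticOrderAt h2).1 h3
        have hE := hPra (S.erase s) z₀ hz₀
        have hu' : AnalyticAt ℂ (fun z => u (al * (z - z₀))) z₀ := by
          have : AnalyticAt ℂ u (al * (z₀ - z₀)) := by rwa [sub_self, mul_zero]
          exact this.comp (f := fun z : ℂ => al * (z - z₀)) (by fun_prop)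
        refine ⟨fun z => ((al ^ 2)⁻¹ * g z ^ 2 + u (al * (z - z₀)) * ((z - z₀) ^ 2 * g z ^ 2)) * Pr (S.erase s) z, ?_, ?_⟩
        · have h5 : AnalyticAt ℂ (fun z => (al ^ 2)⁻¹ * g z ^ 2) z₀ := by fun_prop
          have h6 : AnalyticAt ℂ (fun z => (z - z₀) ^ 2 * g z ^ 2) z₀ := by fun_prop
          exact (h5.fun_add (hu'.fun_mul h6)).fun_mul hE
        · filter_upwards [nhdsWithin_le_nhds hg2, self_mem_nhdsWithin] with z hz1 hz2
          have hz3 : z - z₀ ≠ 0 := sub_ne_zero.2 hz2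
          have e1 : L.weierstrassP (al * z) = ((al * (z - z₀)) ^ 2)⁻¹ + u (al * (z - z₀)) := by
            rw [← hwp _ (mul_ne_zero hal0 hz3)]
            have h4 := L.weierstrassP_add_coe (al * (z - z₀)) ⟨al * z₀, hz⟩
            rw [← h4]
            congr 1
            show al * z = al * (z - z₀) + al * z₀
            ring
          have e2 : Pr S z = (L.weierstrassP z - L.weierstrassP s) ^ 2 * Pr (S.erase s) z :=
            (Finset.mul_prod_erase S (fun s => (L.weierstrassP z - L.weierstrassP s) ^ 2) hs).symm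
          have e3 : L.weierstrassP z - L.weierstrassP z₀ = (z - z₀) * g z := by simpa using hz1
          show L.weierstrassP (al * z) * Pr S z = _
          rw [e1, e2, hws, e3]
          field_simp
      · have h1 : AnalyticAt ℂ (fun z => L.weierstrassP (al * z)) z₀ :=
          (hwa (al * z₀) hz).comp (f := fun z : ℂ => al * z) (by fun_prop)
        exact ⟨_, h1.fun_mul (hPra S z₀ hz₀), Filter.Eventually.of_forall fun z => rfl⟩)
    ⟨fun z => ((al ^ 2)⁻¹ + z ^ 2 * u (al * z)) * ∏ s ∈ S, (1 + z ^ 2 * u z - z ^ 2 * L.weierstrassP s) ^ 2, by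
      have h1 : AnalyticAt ℂ (fun z => u (al * z)) 0 := by
        have : AnalyticAt ℂ u (al * 0) := by rwa [mul_zero]
        exact this.comp (f := fun z : ℂ => al * z) (by fun_prop)
      have h2 : AnalyticAt ℂ (fun z => ∏ s ∈ S, (1 + z ^ 2 * u z - z ^ 2 * L.weierstrassP s) ^ 2) 0 := by
        refine Finset.analyticAt_fun_prod S fun s _ => ?_
        fun_prop
      have h4 : AnalyticAt ℂ (fun z : ℂ => z ^ 2) 0 := by fun_prop
      have h3 : AnalyticAt ℂ (fun z => (al ^ 2)⁻¹ + z ^ 2 * u (al * z)) 0 :=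
        analyticAt_const.fun_add (h4.fun_mul h1)
      exact h3.fun_mul h2, by
      filter_upwards [self_mem_nhdsWithin] with z hz
      have hz0 : z ≠ 0 := hz
      have e1 := hwp (al * z) (mul_ne_zero hal0 hz0)
      have e2 := hwp z hz0
      have e3 : z ^ (2 * (1 + 2 * S.card)) = z ^ 2 * ∏ s ∈ S, (z ^ 2) ^ 2 := by
        rw [Finset.prod_const]
        ring
      simp only [hPr]
      have e4 : ∏ s ∈ S, (1 + z ^ 2 * u z - z ^ 2 * L.weierstrassP s) ^ 2 =
          (∏ s ∈ S, (z ^ 2) ^ 2) * ∏ s ∈ S, (L.weierstrassP z - L.weierstrassP s) ^ 2 := by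
        rw [← Finset.prod_mul_distrib]
        refine Finset.prod_congr rfl fun s _ => ?_
        rw [← mul_pow, e2]
        congr 1
        field_simp
      rw [e3, e1, e4]
      have e5 : z ^ 2 * (((al * z) ^ 2)⁻¹ + u (al * z)) = (al ^ 2)⁻¹ + z ^ 2 * u (al * z) := by
        field_simp
      rw [← e5]
      ring⟩
  refine ⟨P.comp (Polynomial.X + Polynomial.C e) - Polynomial.C e * ∏ s ∈ S, (Polynomial.X - Polynomial.C (L.weierstrassP s - e)) ^ 2,
    ∏ s ∈ S, (Polynomial.X - Polynomial.C (L.weierstrassP s - e)) ^ 2, ?_, fun z₀ => ?_⟩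
  · exact (Polynomial.monic_prod_of_monic _ _ fun s _ => (Polynomial.monic_X_sub_C _).pow 2).ne_zero
  · filter_upwards [hP z₀] with z hz
    have h1 : L.weierstrassP (al * z) * Pr S z = P.eval (L.weierstrassP z) := hz
    have h2 : (∏ s ∈ S, (Polynomial.X - Polynomial.C (L.weierstrassP s - e)) ^ 2).eval (xf L e z) = Pr S z := by
      rw [Polynomial.eval_prod]
      refine Finset.prod_congr rfl fun s _ => ?_
      simp only [Polynomial.eval_pow, Polynomial.eval_sub, Polynomial.eval_X, Polynomial.eval_C, xf]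
      ring
    rw [h2, Polynomial.eval_sub, Polynomial.eval_mul, Polynomial.eval_C, h2, Polynomial.eval_comp]
    simp only [Polynomial.eval_add, Polynomial.eval_X, Polynomial.eval_C, xf, sub_add_cancel]
    linear_combination h1

end H16LW
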