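import Pool.Agent.Lib.H47E.C
import Pool.Agent.Lib.H55K.C1

/-!
# H16LW, E3: the differential equation of the multiplication

Chunk E3 (M). PROOF. Let `W = NN' DD - NN DD'`, `f = X ^ 3 + a X ^ 2 + c X`. Let `z₀ ∉ L.lattice` with `al z₀ ∉ L.lattice` (and, if you like, `DD.eval (x z₀) ≠ 0`); the set of these is the complement
of a countable (closed) set, the relation `h` holds on it (continuity). Derivative of `h` at `z₀` (x_deriv: `x' = 2 y`): `2 al y(al z) DD(x z) + x(al z) DD'(x z) 2 y(z) = NN'(x z) 2 y(z)`. Multiply by `DD (x z)`: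
`al y(al z) DD ^ 2 = y(z) W`. Square, use the curve for `y(al z) ^ 2`, `y(z) ^ 2` and multiply out `x(al z) DD = NN`: `DD ^ 4 y(al z) ^ 2 = DD (NN ^ 3 + a NN ^ 2 DD + c NN DD ^ 2)`. So
`f W ^ 2 = al ^ 2 DD (NN ^ 3 + ..)` at `x z₀` for all such `z₀`; these are infinitely many values (`x` is not constant near a point: H35P.wp_nonconst; e.g. if the difference polynomial `G ≠ 0` then `G (x z) = 0` near `z₀` forces
`x z` to be one of the finitely many roots near `z₀`, contradiction to H35P.wp_nonconst for every root and the filter being nontrivial). If `W = 0`: then `DD (NN ^ 3 + a NN ^ 2 DD + c NN DD ^ 2) = 0`, so `x (al z)` is a root of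
`t ^ 3 + a t ^ 2 + c t` whenever `DD (x z) ≠ 0`: near a point; contradiction to H35P.wp_nonconst again.
-/

set_option autoImplicit false

namespace H16LW

open H47E Polynomial

/-- A non-zero polynomial in `x` does not vanish near a point. -/
theorem e3_ev {L : PeriodPair} (e : ℂ) (P : Polynomial ℂ) (hP : P ≠ 0) (z₀ : ℂ) (hz : z₀ ∉ L.lattice) :
    ∀ᶠ z in nhdsWithin z₀ {z₀}ᶜ, P.eval (xf L e z) ≠ 0 := by
  classical
  have h1 : ∀ᶠ z in nhdsWithin z₀ {z₀}ᶜ, ∀ r ∈ P.roots.toFinset, L.weierstrassP z ≠ r + e := by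
    rw [Filter.eventually_all_finset]
    intro r _
    exact H35P.wp_nonconst L z₀ hz (r + e)
  filter_upwards [h1] with z h2 h3
  have h4 : xf L e z ∈ P.roots.toFinset := by
    rw [Multiset.mem_toFinset, Polynomial.mem_roots hP]
    exact h3
  apply h2 _ h4
  unfold xf
  ring

/-- The differential equation of the multiplication. -/
theorem cm_ident {L : PeriodPair} {e a c : ℂ} (N : Norm L e a c) (al : ℂ) (hal : al ≠ 0) (NN DD : Polynomial ℂ) (hDD : DD ≠ 0)
    (h : ∀ z₀, ∀ᶠ z in nhdsWithin z₀ {z₀}ᶜ, xf L e (al * z) * DD.eval (xf L e z) = NN.eval (xf L e z)) :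
    derivative NN * DD - NN * derivative DD ≠ 0 ∧
    (X ^ 3 + C a * X ^ 2 + C c * X) * (derivative NN * DD - NN * derivative DD) ^ 2 =
      C (al ^ 2) * DD * (NN ^ 3 + C a * NN ^ 2 * DD + C c * NN * DD ^ 2) := by
  have hinj : Function.Injective fun z : ℂ => al * z := fun x y hxy => mul_left_cancel₀ hal hxy
  have hcont : ∀ z : ℂ, ContinuousAt (fun z : ℂ => al * z) z := fun z => by fun_prop
  obtain ⟨z₀, hz₀, haz₀⟩ : ∃ z₀, z₀ ∉ L.lattice ∧ al * z₀ ∉ L.lattice := by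
    have h1 := H35P.ev_compl L 0
    have h2 := (H35P.tendsto_punct (fun z : ℂ => al * z) 0 (hcont 0) hinj).eventually (H35P.ev_compl L _)
    exact (h1.and h2).exists
  have ev1 : ∀ᶠ z in nhdsWithin z₀ {z₀}ᶜ, z ∉ L.lattice := H35P.ev_compl L z₀
  have ev2 : ∀ᶠ z in nhdsWithin z₀ {z₀}ᶜ, al * z ∉ L.lattice :=
    (H35P.tendsto_punct (fun z : ℂ => al * z) z₀ (hcont z₀) hinj).eventually (H35P.ev_compl L _)
  have ev3 : ∀ᶠ z in nhdsWithin z₀ {z₀}ᶜ, ∀ᶠ w in nhds z,
      xf L e (al * w) * DD.eval (xf L e w) = NN.eval (xf L e w) := by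
    have h1 := eventually_eventually_nhdsWithin.2 (h z₀)
    filter_upwards [h1, self_mem_nhdsWithin] with z h2 h3
    rwa [(isOpen_compl_singleton).nhdsWithin_eq h3] at h2
  obtain ⟨W, hW⟩ : ∃ W : Polynomial ℂ, W = derivative NN * DD - NN * derivative DD := ⟨_, rfl⟩
  rw [← hW]
  obtain ⟨Q, hQ⟩ : ∃ Q : Polynomial ℂ, Q = NN ^ 3 + C a * NN ^ 2 * DD + C c * NN * DD ^ 2 := ⟨_, rfl⟩
  rw [← hQ]
  -- the relation at the points near `z₀`
  have ev4 : ∀ᶠ z in nhdsWithin z₀ {z₀}ᶜ,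
      ((X ^ 3 + C a * X ^ 2 + C c * X) * W ^ 2 - C (al ^ 2) * DD * Q).eval (xf L e z) = 0 := by
    filter_upwards [ev1, ev2, ev3] with z h1 h2 h3
    have h4 := h3.self_of_nhds
    have d1 := x_deriv e h1
    have d2 : HasDerivAt (fun w => xf L e (al * w)) (2 * yf L (al * z) * al) z := by
      have h5 : HasDerivAt (fun w : ℂ => al * w) al z := by simpa using (hasDerivAt_id z).const_mul al
      exact (x_deriv e h2).comp z h5
    have d3 : HasDerivAt (fun w => DD.eval (xf L e w)) ((derivative DD).eval (xf L e z) * (2 * yf L z)) z :=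
      (DD.hasDerivAt (xf L e z)).comp z d1
    have d4 : HasDerivAt (fun w => NN.eval (xf L e w)) ((derivative NN).eval (xf L e z) * (2 * yf L z)) z :=
      (NN.hasDerivAt (xf L e z)).comp z d1
    have d5 := d2.mul d3
    have d6 := d5.unique (d4.congr_of_eventuallyEq h3)
    have c1 := curve N h1
    have c2 := curve N h2
    rw [hQ, hW]
    simp only [eval_sub, eval_mul, eval_add, eval_pow, eval_X, eval_C]
    obtain ⟨x, hx⟩ : ∃ x, x = xf L e z := ⟨_, rfl⟩
    obtain ⟨x1, hx1⟩ : ∃ x1, x1 = xf L e (al * z) := ⟨_, rfl⟩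
    obtain ⟨y, hy⟩ : ∃ y, y = yf L z := ⟨_, rfl⟩
    obtain ⟨y1, hy1⟩ : ∃ y1, y1 = yf L (al * z) := ⟨_, rfl⟩
    rw [← hx, ← hx1] at h4 
    rw [← hx, ← hx1, ← hy, ← hy1] at d6
    rw [← hx, ← hy] at c1
    rw [← hx1, ← hy1] at c2
    rw [← hx]
    obtain ⟨A, hA⟩ : ∃ A, A = DD.eval x := ⟨_, rfl⟩
    obtain ⟨B, hB⟩ : ∃ B, B = NN.eval x := ⟨_, rfl⟩
    obtain ⟨A', hA'⟩ : ∃ A', A' = (derivative DD).eval x := ⟨_, rfl⟩
    obtain ⟨B', hB'⟩ : ∃ B', B' = (derivative NN).eval x := ⟨_, rfl⟩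
    rw [← hA, ← hB] at h4 ⊢
    rw [← hA', ← hB'] at d6 ⊢
    rw [← hA] at d6
    have e1 : al * y1 * A ^ 2 = y * (B' * A - B * A') := by
      linear_combination A / 2 * d6 - A' * y * h4
    have e2 : al ^ 2 * y1 ^ 2 * A ^ 4 = y ^ 2 * (B' * A - B * A') ^ 2 := by
      have : (al * y1 * A ^ 2) ^ 2 = (y * (B' * A - B * A')) ^ 2 := by rw [e1]
      linear_combination this
    rw [c1, c2] at e2
    have e3 : (x1 ^ 3 + a * x1 ^ 2 + c * x1) * A ^ 4 = A * (B ^ 3 + a * B ^ 2 * A + c * B * A ^ 2) := by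
      rw [← h4]
      ring
    linear_combination al ^ 2 * e3 - e2
  have hG : (X ^ 3 + C a * X ^ 2 + C c * X) * W ^ 2 - C (al ^ 2) * DD * Q = 0 := by
    by_contra hne
    obtain ⟨z, h1, h2⟩ := (ev4.and (e3_ev e _ hne z₀ hz₀)).exists
    exact h2 h1
  refine ⟨?_, sub_eq_zero.1 hG⟩
  intro hW0
  rw [hW0, zero_pow two_ne_zero, mul_zero, zero_sub, neg_eq_zero] at hG
  have hQ0 : Q = 0 := by
    rcases mul_eq_zero.1 hG with h1 | h1
    · rcases mul_eq_zero.1 h1 with h2 | h2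
      · exfalso
        rw [C_eq_zero] at h2
        exact pow_ne_zero 2 hal h2
      · exact absurd h2 hDD
    · exact h1
  have hcub : (X ^ 3 + C a * X ^ 2 + C c * X : Polynomial ℂ) ≠ 0 := by
    intro h0
    have h1 := congrArg (fun P : Polynomial ℂ => P.coeff 3) h0
    simp [coeff_C_mul, coeff_X_pow] at h1
  have ev5 := e3_ev e DD hDD z₀ hz₀
  have ev6 := (H35P.tendsto_punct (fun z : ℂ => al * z) z₀ (hcont z₀) hinj).eventually (e3_ev e _ hcub _ haz₀)
  obtain ⟨z, ⟨⟨h1, h2⟩, h3⟩⟩ := ((h z₀).and ev5 |>.and ev6).exists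
  apply h3
  have h4 := congrArg (fun P : Polynomial ℂ => P.eval (xf L e z)) hQ0
  rw [hQ] at h4
  simp only [eval_mul, eval_add, eval_pow, eval_X, eval_C, eval_zero] at h4 ⊢
  rw [← h1] at h4
  have h5 : (DD.eval (xf L e z)) ^ 3 * (xf L e (al * z) ^ 3 + a * xf L e (al * z) ^ 2 + c * xf L e (al * z)) = 0 := by
    linear_combination h4
  exact (mul_eq_zero.1 h5).resolve_left (pow_ne_zero 3 h2)

end H16LW
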