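import Pool.Agent.Lib.H16LW.V3

/-!
# H16LW, E5: descent of the rational function to algebraic coefficients

Chunk E5 (S/M). PROOF. `K₀ = IntermediateField.adjoin ℚ {al, a, c}` (algebraic over `ℚ`). `s` = the coefficients of `NN`, `DD` and `w⁻¹` where `w ≠ 0` is a coefficient of `W = NN' DD - NN DD'`.
`spec_exists` (V3): `φ : Algebra.adjoin K₀ s →ₐ[K₀] ℂ` with algebraic values. `NN`, `DD` have coefficients in the subalgebra `S = Algebra.adjoin K₀ s` (`Polynomial.toSubring`, `lifts`, or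
`Polynomial.ofFinsupp`/sum of monomials): `NN = map (algebraMap S ℂ) NN₁` ..; the identity holds in `S[X]` (injectivity), apply `map φ`. `φ w * φ w⁻¹ = 1`, so the corresponding coefficient of the
image of `W` is not `0`. Algebraic over `K₀` implies algebraic over `ℚ`.
-/

set_option autoImplicit false

namespace H16LW

open Polynomial

/-- Descent of the rational function to algebraic coefficients. -/
theorem cm_descent {a c al : ℂ} (ha : IsAlgebraic ℚ a) (hc : IsAlgebraic ℚ c) (hal : IsAlgebraic ℚ al) (NN DD : Polynomial ℂ)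
    (h1 : derivative NN * DD - NN * derivative DD ≠ 0)
    (h2 : (X ^ 3 + C a * X ^ 2 + C c * X) * (derivative NN * DD - NN * derivative DD) ^ 2 =
      C (al ^ 2) * DD * (NN ^ 3 + C a * NN ^ 2 * DD + C c * NN * DD ^ 2)) :
    ∃ NN' DD' : Polynomial ℂ, (∀ i, IsAlgebraic ℚ (NN'.coeff i)) ∧ (∀ i, IsAlgebraic ℚ (DD'.coeff i)) ∧
      derivative NN' * DD' - NN' * derivative DD' ≠ 0 ∧
      (X ^ 3 + C a * X ^ 2 + C c * X) * (derivative NN' * DD' - NN' * derivative DD') ^ 2 =
        C (al ^ 2) * DD' * (NN' ^ 3 + C a * NN' ^ 2 * DD' + C c * NN' * DD' ^ 2) := by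
  classical
  obtain ⟨n0, hn0⟩ : ∃ n, (derivative NN * DD - NN * derivative DD).coeff n ≠ 0 := by
    by_contra hcon
    rw [not_exists] at hcon
    refine h1 (Polynomial.ext fun n => ?_)
    rw [coeff_zero]
    exact not_not.1 (hcon n)
  obtain ⟨w, hw⟩ : ∃ w, w = (derivative NN * DD - NN * derivative DD).coeff n0 := ⟨_, rfl⟩
  rw [← hw] at hn0
  obtain ⟨s, hs⟩ : ∃ s : Finset ℂ, s = NN.support.image NN.coeff ∪ DD.support.image DD.coeff ∪ {w⁻¹} := ⟨_, rfl⟩
  obtain ⟨φ, hφ⟩ := spec_exists (K := algebraicClosure ℚ ℂ) (E := ℂ) s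
  obtain ⟨f, hf⟩ : ∃ f : Algebra.adjoin (algebraicClosure ℚ ℂ) (s : Set ℂ) →+* ℂ,
      f = (Algebra.adjoin (algebraicClosure ℚ ℂ) (s : Set ℂ)).val.toRingHom := ⟨_, rfl⟩
  have hfv : ∀ x, f x = (x : ℂ) := by
    intro x
    rw [hf]
    rfl
  have hfinj : Function.Injective f := by
    intro x y hxy
    rw [hfv, hfv] at hxy
    exact Subtype.ext hxy
  have hmem : ∀ x ∈ s, x ∈ Algebra.adjoin (algebraicClosure ℚ ℂ) (s : Set ℂ) := fun x hx =>
    Algebra.subset_adjoin (by exact_mod_cast hx)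
  have hlift : ∀ P : ℂ[X], (∀ n ∈ P.support, P.coeff n ∈ s) →
      ∃ Q : (Algebra.adjoin (algebraicClosure ℚ ℂ) (s : Set ℂ))[X], Q.map f = P := by
    intro P hP
    have : P ∈ lifts f := by
      rw [lifts_iff_coeff_lifts]
      intro n
      by_cases hn : n ∈ P.support
      · exact ⟨⟨P.coeff n, hmem _ (hP n hn)⟩, hfv _⟩
      · rw [notMem_support_iff.1 hn]
        exact ⟨0, map_zero f⟩
    exact (mem_lifts P).1 this
  obtain ⟨N1, hN1⟩ := hlift NN (fun n hn => by
    rw [hs, Finset.mem_union, Finset.mem_union]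
    exact Or.inl (Or.inl (Finset.mem_image_of_mem _ hn)))
  obtain ⟨D1, hD1⟩ := hlift DD (fun n hn => by
    rw [hs, Finset.mem_union, Finset.mem_union]
    exact Or.inl (Or.inr (Finset.mem_image_of_mem _ hn)))
  have hcst : ∀ x : ℂ, IsAlgebraic ℚ x → ∃ y : Algebra.adjoin (algebraicClosure ℚ ℂ) (s : Set ℂ), f y = x ∧ φ y = x := by
    intro x hx
    have hx' : x ∈ algebraicClosure ℚ ℂ := mem_algebraicClosure_iff.2 hx
    refine ⟨algebraMap (algebraicClosure ℚ ℂ) _ ⟨x, hx'⟩, ?_, ?_⟩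
    · rw [hfv]
      rfl
    · rw [AlgHom.commutes]
      rfl
  obtain ⟨aS, haf, haφ⟩ := hcst a ha
  obtain ⟨cS, hcf, hcφ⟩ := hcst c hc
  obtain ⟨lS, hlf, hlφ⟩ := hcst al hal
  have hid : (X ^ 3 + C aS * X ^ 2 + C cS * X) * (derivative N1 * D1 - N1 * derivative D1) ^ 2 =
      C (lS ^ 2) * D1 * (N1 ^ 3 + C aS * N1 ^ 2 * D1 + C cS * N1 * D1 ^ 2) := by
    apply Polynomial.map_injective f hfinj
    simp only [Polynomial.map_mul, Polynomial.map_add, Polynomial.map_sub, Polynomial.map_pow, Polynomial.map_X,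
      Polynomial.map_C, ← derivative_map, map_pow, hN1, hD1, haf, hcf, hlf]
    rw [← C_pow]
    exact h2
  obtain ⟨g, hg⟩ : ∃ g : Algebra.adjoin (algebraicClosure ℚ ℂ) (s : Set ℂ) →+* ℂ, g = φ.toRingHom := ⟨_, rfl⟩
  have hgv : ∀ x, g x = φ x := by
    intro x
    rw [hg]
    rfl
  have halg : ∀ x, IsAlgebraic ℚ (g x) := by
    intro x
    rw [hgv]
    have h3 : @Algebra.IsAlgebraic ℚ (algebraicClosure ℚ ℂ) _ _ (algebraicClosure ℚ ℂ).algebra' :=
      algebraicClosure.isAlgebraic ℚ ℂ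
    exact @IsAlgebraic.restrictScalars ℚ (algebraicClosure ℚ ℂ) ℂ _ _ _ (algebraicClosure ℚ ℂ).algebra' _ _ _ _ h3 _ (hφ x)
  refine ⟨N1.map g, D1.map g, fun i => ?_, fun i => ?_, ?_, ?_⟩
  · rw [coeff_map]
    exact halg _
  · rw [coeff_map]
    exact halg _
  · intro h0
    have h3 : (derivative N1 * D1 - N1 * derivative D1).map g = 0 := by
      rw [← h0]
      simp only [Polynomial.map_mul, Polynomial.map_sub, ← derivative_map]
    have h4 : g ((derivative N1 * D1 - N1 * derivative D1).coeff n0) = 0 := by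
      rw [← coeff_map, h3, coeff_zero]
    have h5 : f ((derivative N1 * D1 - N1 * derivative D1).coeff n0) = w := by
      rw [← coeff_map, hw]
      simp only [Polynomial.map_mul, Polynomial.map_sub, ← derivative_map, hN1, hD1]
    have h6 : w⁻¹ ∈ Algebra.adjoin (algebraicClosure ℚ ℂ) (s : Set ℂ) := by
      apply hmem
      rw [hs, Finset.mem_union]
      exact Or.inr (Finset.mem_singleton_self _)
    have h7 : (derivative N1 * D1 - N1 * derivative D1).coeff n0 * ⟨w⁻¹, h6⟩ = 1 := by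
      apply hfinj
      rw [map_mul, h5, hfv, map_one]
      exact mul_inv_cancel₀ hn0
    have h8 := congrArg g h7
    rw [map_mul, h4, zero_mul, map_one] at h8
    exact zero_ne_one h8
  · have h3 := congrArg (Polynomial.map g) hid
    simp only [Polynomial.map_mul, Polynomial.map_add, Polynomial.map_sub, Polynomial.map_pow, Polynomial.map_X,
      Polynomial.map_C, ← derivative_map, map_pow, hgv, haφ, hcφ, hlφ] at h3
    rw [C_pow]
    exact h3

end H16LW
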