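import Pool.Agent.Lib.H16LW.E2
import Pool.Agent.Lib.H16LW.E3
import Pool.Agent.Lib.H16LW.E5
import Pool.Agent.Lib.H16LW.D0

/-!
# H16LW, E6: the number field with the CM data (interface theorem `cm_exists` of Lib/H47E/D.lean)

Chunk E6 (S/M). PROOF. `cm_quad`, `cm_rat`, `cm_ident`, `cm_descent`. `K = IntermediateField.adjoin ℚ (F ∪ {al} ∪ coefficients of NN', DD')`: a finite set of algebraic (integral) elements, so finite over `ℚ`
(`IntermediateField.finiteDimensional_adjoin`), so a number field. Lift `NN'`, `DD'` to `K[X]` (`Polynomial.lifts` / `Polynomial.mem_lifts`, `map (algebraMap K ℂ) NN₂ = NN'`), the identities by injectivity of `map`.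
-/

set_option autoImplicit false

namespace H16LW

open H47E

/-- D2: a number field which contains given algebraic numbers and the CM data. -/
theorem cm_exists' {L : PeriodPair} (hL : CM L) {e a c : ℂ} (N : Norm L e a c) (F : Finset ℂ) (hF : ∀ x ∈ F, IsAlgebraic ℚ x)
    (ha : a ∈ F) (hc : c ∈ F) :
    ∃ (K : IntermediateField ℚ ℂ) (_ : NumberField K) (hFK : ∀ x ∈ F, x ∈ K),
      Nonempty (CMData K (⟨a, hFK a ha⟩ : K) (⟨c, hFK c hc⟩ : K)) := by
  classical
  obtain ⟨al, hal, hLal⟩ := hL
  obtain ⟨A₀, B₀, hq, hd⟩ := cm_quad L al hal hLal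
  have hal0 : al ≠ 0 := by
    rintro rfl
    exact hal rfl
  obtain ⟨N₀, D₀, hD₀, hrat⟩ := cm_rat L al hal hLal e
  obtain ⟨h1, h2⟩ := cm_ident N al hal0 N₀ D₀ hD₀ hrat
  have halg : IsAlgebraic ℚ al := by
    refine ⟨Polynomial.X ^ 2 - Polynomial.C (A₀ : ℚ) * Polynomial.X + Polynomial.C (B₀ : ℚ), ?_, ?_⟩
    · intro h
      have h3 := congrArg (fun p : Polynomial ℚ => p.coeff 2) h
      simp only [Polynomial.coeff_add, Polynomial.coeff_sub, Polynomial.coeff_X_pow, Polynomial.coeff_C_mul, Polynomial.coeff_X, Polynomial.coeff_C, Polynomial.coeff_zero] at h3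
      norm_num at h3
    · simpa using hq
  obtain ⟨NN, DD, hNN, hDD, h3, h4⟩ := cm_descent (hF a ha) (hF c hc) halg N₀ D₀ h1 h2
  let T : Finset ℂ := insert al (F ∪ (NN.coeffs ∪ DD.coeffs))
  have hT : ∀ x ∈ (T : Set ℂ), IsIntegral ℚ x := by
    intro x hx
    rw [Finset.mem_coe, Finset.mem_insert, Finset.mem_union, Finset.mem_union] at hx
    rcases hx with rfl | hx | hx | hx
    · exact halg.isIntegral
    · exact (hF x hx).isIntegral
    · obtain ⟨n, _, rfl⟩ := Polynomial.mem_coeffs_iff.1 hx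
      exact (hNN n).isIntegral
    · obtain ⟨n, _, rfl⟩ := Polynomial.mem_coeffs_iff.1 hx
      exact (hDD n).isIntegral
  let K : IntermediateField ℚ ℂ := IntermediateField.adjoin ℚ (T : Set ℂ)
  have hfin : FiniteDimensional ℚ K := IntermediateField.finiteDimensional_adjoin hT
  have hmem : ∀ x ∈ T, x ∈ K := fun x hx => IntermediateField.subset_adjoin ℚ _ (Finset.mem_coe.2 hx)
  have hFK : ∀ x ∈ F, x ∈ K := fun x hx => hmem x (Finset.mem_insert_of_mem (Finset.mem_union_left _ hx))
  have halK : al ∈ K := hmem al (Finset.mem_insert_self _ _)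
  have lift : ∀ p : Polynomial ℂ, p.coeffs ⊆ T → ∃ q : Polynomial K, q.map (algebraMap K ℂ) = p := by
    intro p hp
    have : p ∈ Polynomial.lifts (algebraMap K ℂ) := by
      rw [Polynomial.lifts_iff_coeff_lifts]
      intro n
      by_cases hn : p.coeff n = 0
      · exact ⟨0, by rw [hn, map_zero]⟩
      · exact ⟨⟨p.coeff n, hmem _ (hp (Polynomial.coeff_mem_coeffs hn))⟩, rfl⟩
    exact (Polynomial.mem_lifts p).1 this
  obtain ⟨P, hP⟩ := lift NN (fun x hx => Finset.mem_insert_of_mem (Finset.mem_union_right _ (Finset.mem_union_left _ hx)))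
  obtain ⟨Q, hQ⟩ := lift DD (fun x hx => Finset.mem_insert_of_mem (Finset.mem_union_right _ (Finset.mem_union_right _ hx)))
  have hinj : Function.Injective (Polynomial.map (algebraMap K ℂ)) := Polynomial.map_injective _ (algebraMap K ℂ).injective
  refine ⟨K, { to_charZero := inferInstance, to_finiteDimensional := hfin }, hFK, ⟨⟨⟨al, halK⟩, A₀, B₀, P, Q, ?_, hd, ?_, ?_⟩⟩⟩
  · apply Subtype.ext
    push_cast
    exact hq
  · intro h
    apply h3
    have h5 := congrArg (Polynomial.map (algebraMap K ℂ)) h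
    rw [Polynomial.map_sub, Polynomial.map_mul, Polynomial.map_mul, ← Polynomial.derivative_map, ← Polynomial.derivative_map, hP, hQ, Polynomial.map_zero] at h5
    exact h5
  · apply hinj
    simp only [Polynomial.map_mul, Polynomial.map_add, Polynomial.map_sub, Polynomial.map_pow, Polynomial.map_X, Polynomial.map_C, ← Polynomial.derivative_map, hP, hQ]
    exact h4

end H16LW
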