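import Mathlib

/-!
# H16LW, K1: Kronecker's theorem on the line

Chunk K1 (M). PROOF. `X = UnitAddTorus d` (Mathlib, Analysis/Fourier/AddCircleMulti.lean), `g t = fun i => ((lam i * t : ℝ) : UnitAddCircle)`,
`mu = volume` (probability). For continuous `f : C(X, ℂ)` put `M T f = (1 / T) * ∫ t in 0..T, f (g t)`. Claim: `M T f → ∫ f dmu` as
`T → ∞`. For `f = mFourier n`: `f (g t) = exp (2 pi I (∑ n_i lam_i) t)`; for `n = 0` both sides are `1`; for `n ≠ 0` the frequency is not zero
(hypothesis), so `|∫ t in 0..T, f (g t)|` is bounded (integral_exp_mul_complex) and `M T f → 0`, `∫ mFourier n = 0` (orthonormal_mFourier, or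
the product of the one-dimensional integrals, or translation invariance of mu). The set of `f` with the claim is a closed subspace (`|M T f|, |∫ f| ≤ ‖f‖`);
it is everything by `UnitAddTorus.span_mFourier_closure_eq_top`. Take `f ≥ 0` continuous, `f theta > 0`, `f = 0` outside of the `eps`-ball
around `theta` (e.g. `max 0 (eps - dist x theta)`): `∫ f > 0` (volume is positive on open sets), so `M T f ≥ delta > 0` for large `T`. If there
were no good `t > R` then `‖∫ t in 0..T, f (g t)‖ ≤ |R| ‖f‖ + ..` for all `T`, so `M T f → 0`: contradiction. `dist` in `UnitAddCircle`: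
`‖(x : UnitAddCircle)‖ = |x - round x|` (AddCircle.norm_eq). (Any other proof is welcome, e.g. Bohr's.)
-/

set_option autoImplicit false

namespace H16LW

open MeasureTheory Filter Topology UnitAddTorus

/-- The value of a monomial along a line. -/
theorem k1_val {d : Type} [Fintype d] (lam : d → ℝ) (n : d → ℤ) (t : ℝ) :
    mFourier n (fun i => ((lam i * t : ℝ) : UnitAddCircle)) = Complex.exp (((2 * Real.pi * (∑ i, (n i : ℝ) * lam i) : ℝ) : ℂ) * Complex.I * t) := by
  show ∏ i, fourier (n i) ((lam i * t : ℝ) : UnitAddCircle) = _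
  simp only [fourier_coe_apply]
  rw [← Complex.exp_sum]
  congr 1
  push_cast
  rw [Finset.mul_sum, Finset.sum_mul, Finset.sum_mul]
  refine Finset.sum_congr rfl fun i _ => ?_
  ring

theorem k1_add {d : Type} [Fintype d] (n : d → ℤ) (x y : UnitAddTorus d) : mFourier n (x + y) = mFourier n x * mFourier n y := by
  show ∏ i, fourier (n i) ((x + y) i) = (∏ i, fourier (n i) (x i)) * ∏ i, fourier (n i) (y i)
  rw [← Finset.prod_mul_distrib]
  refine Finset.prod_congr rfl fun i _ => ?_
  rw [Pi.add_apply, fourier_apply, fourier_apply, fourier_apply, smul_add, AddCircle.toCircle_add, Circle.coe_mul]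

instance k1_prob (d : Type) [Fintype d] : IsProbabilityMeasure (volume : Measure (d → UnitAddCircle)) := by
  refine ⟨?_⟩
  rw [← Set.pi_univ Set.univ, volume_pi, Measure.pi_pi]
  simp

theorem k1_int0 {d : Type} [Fintype d] (n : d → ℤ) (lam : d → ℝ) (h : ∑ i, (n i : ℝ) * lam i ≠ 0) : ∫ x : d → UnitAddCircle, mFourier n x = 0 := by
  obtain ⟨nu, hnu⟩ : ∃ nu : ℝ, nu = ∑ i, (n i : ℝ) * lam i := ⟨_, rfl⟩
  rw [← hnu] at h
  obtain ⟨a, ha⟩ : ∃ a : d → UnitAddCircle, mFourier n a = -1 := by
    refine ⟨fun i => ((lam i * (1 / (2 * nu)) : ℝ) : UnitAddCircle), ?_⟩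
    rw [k1_val, ← hnu]
    have e : ((2 * Real.pi * nu : ℝ) : ℂ) * Complex.I * ((1 / (2 * nu) : ℝ) : ℂ) = Real.pi * Complex.I := by
      have h' : (nu : ℂ) ≠ 0 := by exact_mod_cast h
      push_cast
      field_simp
    rw [e, Complex.exp_pi_mul_I]
  have h1 : ∫ x : d → UnitAddCircle, mFourier n (x + a) = ∫ x : d → UnitAddCircle, mFourier n x := integral_add_right_eq_self (fun x => mFourier n x) a
  simp only [k1_add, ha] at h1
  rw [integral_mul_const] at h1
  have h2 : (2 : ℂ) * ∫ x : d → UnitAddCircle, mFourier n x = 0 := by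
    linear_combination -h1
  exact (mul_eq_zero.1 h2).resolve_left two_ne_zero

theorem k1_lim {d : Type} [Fintype d] (lam : d → ℝ) (hlam : ∀ c : d → ℤ, ∑ i, (c i : ℝ) * lam i = 0 → c = 0) (R : ℝ) (p : C(UnitAddTorus d, ℂ)) (hp : p ∈ Submodule.span ℂ (Set.range (mFourier (d := d)))) :
    Tendsto (fun T : ℝ => (T : ℂ)⁻¹ * ∫ t in R..(R + T), p (fun i => ((lam i * t : ℝ) : UnitAddCircle))) atTop (𝓝 (∫ x : d → UnitAddCircle, p x)) := by
  have hg : Continuous fun t : ℝ => fun i => ((lam i * t : ℝ) : UnitAddCircle) :=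
    continuous_pi fun i => (AddCircle.continuous_mk' 1).comp (continuous_const.mul continuous_id)
  have hI : ∀ q : C(UnitAddTorus d, ℂ), ∀ a b : ℝ, IntervalIntegrable (fun t => q (fun i => ((lam i * t : ℝ) : UnitAddCircle))) volume a b :=
    fun q a b => (q.continuous.comp hg).intervalIntegrable a b
  have hX : ∀ q : C(UnitAddTorus d, ℂ), Integrable (fun x : d → UnitAddCircle => q x) volume := fun q => q.continuous.integrable_of_hasCompactSupport (HasCompactSupport.of_compactSpace _)
  induction hp using Submodule.span_induction with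
  | mem q hq =>
    obtain ⟨n, rfl⟩ := hq
    by_cases hn : n = 0
    · subst hn
      rw [mFourier_zero]
      simp only [ContinuousMap.one_apply, intervalIntegral.integral_const, add_sub_cancel_left, integral_const, probReal_univ, one_smul]
      refine tendsto_const_nhds.congr' ?_
      filter_upwards [eventually_gt_atTop 0] with T hT
      have hT' : (T : ℂ) ≠ 0 := by exact_mod_cast hT.ne'
      rw [Complex.real_smul, mul_one, inv_mul_cancel₀ hT']
    · have h0 : ∑ i, (n i : ℝ) * lam i ≠ 0 := fun h => hn (hlam n h)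
      rw [k1_int0 n lam h0]
      simp only [k1_val]
      obtain ⟨c, hc⟩ : ∃ c : ℝ, c = 2 * Real.pi * ∑ i, (n i : ℝ) * lam i := ⟨_, rfl⟩
      rw [← hc]
      have hc0 : c ≠ 0 := by
        rw [hc]
        exact mul_ne_zero (mul_ne_zero two_ne_zero Real.pi_ne_zero) h0
      have hcI : (c : ℂ) * Complex.I ≠ 0 := mul_ne_zero (by exact_mod_cast hc0) Complex.I_ne_zero
      have hb : ∀ T : ℝ, ‖∫ t in R..(R + T), Complex.exp ((c : ℂ) * Complex.I * t)‖ ≤ 2 / |c| := by
        intro T
        rw [integral_exp_mul_complex hcI, norm_div]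
        have e1 : ‖(c : ℂ) * Complex.I‖ = |c| := by
          rw [norm_mul, Complex.norm_I, mul_one, Complex.norm_real, Real.norm_eq_abs]
        have e2 : ∀ s : ℝ, ‖Complex.exp ((c : ℂ) * Complex.I * s)‖ = 1 := by
          intro s
          have e : (c : ℂ) * Complex.I * s = ((c * s : ℝ) : ℂ) * Complex.I := by push_cast; ring
          rw [e, Complex.norm_exp_ofReal_mul_I]
        rw [e1]
        refine div_le_div_of_nonneg_right ?_ (abs_nonneg c)
        refine (norm_sub_le _ _).trans ?_
        rw [e2, e2]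
        norm_num
      refine squeeze_zero_norm' (a := fun T : ℝ => T⁻¹ * (2 / |c|)) ?_ ?_
      · filter_upwards [eventually_gt_atTop 0] with T hT
        rw [norm_mul, norm_inv, Complex.norm_real, Real.norm_eq_abs, abs_of_pos hT]
        exact mul_le_mul_of_nonneg_left (hb T) (inv_nonneg.2 hT.le)
      · have := (tendsto_inv_atTop_zero (𝕜 := ℝ)).mul_const (2 / |c|)
        rwa [zero_mul] at this
  | zero =>
    simp
  | add x y _ _ hx hy =>
    have h1 := hx.add hy
    simp only [ContinuousMap.add_apply]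
    rw [integral_add (hX x) (hX y)]
    refine h1.congr fun T => ?_
    rw [intervalIntegral.integral_add (hI x _ _) (hI y _ _), mul_add]
  | smul a x _ hx =>
    have h1 := hx.const_mul a
    simp only [ContinuousMap.smul_apply, smul_eq_mul]
    rw [integral_const_mul]
    refine h1.congr fun T => ?_
    rw [intervalIntegral.integral_const_mul]
    ring

/-- Kronecker's theorem on the line. -/
theorem kron1 {d : Type} [Fintype d] (lam : d → ℝ) (hlam : ∀ c : d → ℤ, ∑ i, (c i : ℝ) * lam i = 0 → c = 0)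
    (θ : d → ℝ) (ε : ℝ) (hε : 0 < ε) (R : ℝ) :
    ∃ t : ℝ, R < t ∧ ∀ i, ∃ m : ℤ, |lam i * t - θ i - m| < ε := by
  by_contra hcon
  push Not at hcon
  obtain ⟨p0, hp0⟩ : ∃ p0 : d → UnitAddCircle, p0 = fun i => ((θ i : ℝ) : UnitAddCircle) := ⟨_, rfl⟩
  have hdist : ∀ t, R < t → ε ≤ dist (fun i => ((lam i * t : ℝ) : UnitAddCircle)) p0 := by
    intro t ht
    obtain ⟨i, hi⟩ := hcon t ht
    refine le_trans ?_ (dist_le_pi_dist (fun i => ((lam i * t : ℝ) : UnitAddCircle)) p0 i)
    have e : ((lam i * t : ℝ) : UnitAddCircle) - ((θ i : ℝ) : UnitAddCircle) = ((lam i * t - θ i : ℝ) : UnitAddCircle) := by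
      rw [← QuotientAddGroup.mk_sub]
    rw [hp0, dist_eq_norm, e, UnitAddCircle.norm_eq]
    exact hi _
  obtain ⟨φ, hφ⟩ : ∃ φ : C(UnitAddTorus d, ℂ), ∀ x, φ x = ((max 0 (ε - dist x p0) : ℝ) : ℂ) :=
    ⟨⟨fun x => ((max 0 (ε - dist x p0) : ℝ) : ℂ), by fun_prop⟩, fun x => rfl⟩
  have hc : Continuous fun x : d → UnitAddCircle => max 0 (ε - dist x p0) := by fun_prop
  have hδ : 0 < ∫ x : d → UnitAddCircle, max 0 (ε - dist x p0) := by
    refine (integral_pos_iff_support_of_nonneg (f := fun x : d → UnitAddCircle => max 0 (ε - dist x p0)) (fun x => le_max_left _ _) (hc.integrable_of_hasCompactSupport (HasCompactSupport.of_compactSpace _))).2 ?_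
    refine (hc.isOpen_support).measure_pos _ ⟨p0, ?_⟩
    rw [Function.mem_support, dist_self, sub_zero, max_eq_right hε.le]
    exact hε.ne'
  obtain ⟨δ, hδ'⟩ : ∃ δ : ℝ, δ = ∫ x : d → UnitAddCircle, max 0 (ε - dist x p0) := ⟨_, rfl⟩
  rw [← hδ'] at hδ
  have hφi : ∫ x : d → UnitAddCircle, φ x = (δ : ℂ) := by
    simp only [hφ]
    rw [integral_complex_ofReal, hδ']
  have hcl : φ ∈ closure ((Submodule.span ℂ (Set.range (mFourier (d := d))) : Submodule ℂ C(UnitAddTorus d, ℂ)) : Set C(UnitAddTorus d, ℂ)) := by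
    rw [← Submodule.topologicalClosure_coe, span_mFourier_closure_eq_top]
    trivial
  obtain ⟨p, hp, hpd⟩ := Metric.mem_closure_iff.1 hcl (δ / 2) (by linarith)
  rw [dist_eq_norm] at hpd
  have hlim := k1_lim lam hlam R p hp
  have h1 : ‖∫ x : d → UnitAddCircle, p x‖ ≤ ‖φ - p‖ := by
    refine le_of_tendsto hlim.norm ?_
    filter_upwards [eventually_gt_atTop 0] with T hT
    rw [norm_mul, norm_inv, Complex.norm_real, Real.norm_eq_abs, abs_of_pos hT]
    have h2 : ‖∫ t in R..(R + T), p (fun i => ((lam i * t : ℝ) : UnitAddCircle))‖ ≤ ‖φ - p‖ * |R + T - R| := by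
      refine intervalIntegral.norm_integral_le_of_norm_le_const fun t ht => ?_
      rw [Set.uIoc_of_le (by linarith)] at ht
      have h3 : φ (fun i => ((lam i * t : ℝ) : UnitAddCircle)) = 0 := by
        rw [hφ, max_eq_left (by linarith [hdist t ht.1]), Complex.ofReal_zero]
      have h4 := (φ - p).norm_coe_le_norm (fun i => ((lam i * t : ℝ) : UnitAddCircle))
      rw [ContinuousMap.sub_apply, h3, zero_sub, norm_neg] at h4
      exact h4
    rw [add_sub_cancel_left, abs_of_pos hT] at h2
    rw [inv_mul_le_iff₀ hT, mul_comm T]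
    exact h2
  have h2 : ‖(δ : ℂ) - ∫ x : d → UnitAddCircle, p x‖ ≤ ‖φ - p‖ := by
    have hX : ∀ q : C(UnitAddTorus d, ℂ), Integrable (fun x : d → UnitAddCircle => q x) volume := fun q => q.continuous.integrable_of_hasCompactSupport (HasCompactSupport.of_compactSpace _)
    rw [← hφi, ← integral_sub (hX φ) (hX p)]
    have h3 := norm_integral_le_of_norm_le_const (μ := (volume : Measure (d → UnitAddCircle))) (f := fun x => φ x - p x) (C := ‖φ - p‖) (Eventually.of_forall fun x => (φ - p).norm_coe_le_norm x)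
    rwa [probReal_univ, mul_one] at h3
  have h3 : δ ≤ ‖φ - p‖ + ‖φ - p‖ := by
    have e : (δ : ℂ) = ((δ : ℂ) - ∫ x : d → UnitAddCircle, p x) + ∫ x : d → UnitAddCircle, p x := by ring
    have h4 : ‖(δ : ℂ)‖ ≤ ‖φ - p‖ + ‖φ - p‖ := by
      rw [e]
      exact (norm_add_le _ _).trans (add_le_add h2 h1)
    rwa [Complex.norm_real, Real.norm_eq_abs, abs_of_pos hδ] at h4
  linarith

end H16LW
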