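import Pool.Agent.Lib.H16LW.K1

/-!
# H16LW, K2: Kronecker's theorem for real-linear functionals on the complex plane

Chunk K2 (S). PROOF. For every integer vector `c ≠ 0` the functional `∑ c_i l_i` is not zero (hypothesis), so its kernel is a proper real subspace of `ℂ`.
There are countably many of them, so there is `u0` outside all kernels with `u0 ≠ 0` (a countable union of proper closed subspaces has empty
interior: Baire; or measure zero: `MeasureTheory.Measure.addHaar_submodule` and countable union, `measure_iUnion_null`; or take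
`u0 = 1 + x I` with `x` outside of a countable set of reals: on the line `{1 + x I}` every kernel has at most one point, or contains `1` and .. - choose
the easiest). If `d` is empty, any large `u` works. `kron1` with `lam i = l_i u0`, `u = t u0`, `t > max R 0 / ‖u0‖`.
-/

set_option autoImplicit false

namespace H16LW

/-- Kronecker's theorem for real-linear functionals on the complex plane. -/
theorem kron {d : Type} [Fintype d] (l : d → (ℂ →ₗ[ℝ] ℝ))
    (hl : ∀ c : d → ℤ, (∀ u : ℂ, ∑ i, (c i : ℝ) * l i u = 0) → c = 0)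
    (θ : d → ℝ) (ε : ℝ) (hε : 0 < ε) (R : ℝ) :
    ∃ u : ℂ, R < ‖u‖ ∧ ∀ i, ∃ m : ℤ, |l i u - θ i - m| < ε := by
  classical
  have hlin : ∀ (i : d) (a x : ℝ), l i ((a : ℂ) + (x : ℂ) * Complex.I) = a * l i 1 + x * l i Complex.I := by
    intro i a x
    have h1 : ((a : ℂ) + (x : ℂ) * Complex.I) = a • (1 : ℂ) + x • Complex.I := by
      simp [Complex.real_smul]
    rw [h1, map_add, map_smul, map_smul, smul_eq_mul, smul_eq_mul]
  have key : ∀ (c : d → ℤ) (a x : ℝ), ∑ i, (c i : ℝ) * l i ((a : ℂ) + (x : ℂ) * Complex.I) =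
      a * (∑ i, (c i : ℝ) * l i 1) + x * ∑ i, (c i : ℝ) * l i Complex.I := by
    intro c a x
    rw [Finset.mul_sum, Finset.mul_sum, ← Finset.sum_add_distrib]
    refine Finset.sum_congr rfl fun i _ => ?_
    rw [hlin]
    ring
  have hcount : (⋃ c ∈ {c : d → ℤ | c ≠ 0},
      {x : ℝ | ∑ i, (c i : ℝ) * l i ((1 : ℝ) + (x : ℂ) * Complex.I) = 0}).Countable := by
    refine Set.Countable.biUnion (Set.to_countable _) fun c hc => ?_
    refine Set.Subsingleton.countable ?_
    intro x hx y hy
    simp only [Set.mem_setOf_eq] at hx hy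
    rw [key] at hx hy
    by_contra hxy
    have h2 : (∑ i, (c i : ℝ) * l i Complex.I) = 0 := by
      have h3 : (x - y) * (∑ i, (c i : ℝ) * l i Complex.I) = 0 := by linarith
      exact (mul_eq_zero.mp h3).resolve_left (sub_ne_zero.mpr hxy)
    have h1 : (∑ i, (c i : ℝ) * l i 1) = 0 := by
      rw [h2] at hx
      linarith
    apply hc
    apply hl
    intro u
    have h4 := key c u.re u.im
    rw [Complex.re_add_im, h1, h2] at h4
    rw [h4]
    ring
  obtain ⟨x, hx⟩ : ∃ x : ℝ, x ∉ (⋃ c ∈ {c : d → ℤ | c ≠ 0},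
      {x : ℝ | ∑ i, (c i : ℝ) * l i ((1 : ℝ) + (x : ℂ) * Complex.I) = 0}) := by
    by_contra hcon
    push Not at hcon
    exact Cardinal.not_countable_real (hcount.mono fun x _ => hcon x)
  have hx2 : ∀ c : d → ℤ, ∑ i, (c i : ℝ) * l i ((1 : ℝ) + (x : ℂ) * Complex.I) = 0 → c = 0 := by
    intro c hc
    by_contra hne
    exact hx (Set.mem_biUnion (show c ∈ {c : d → ℤ | c ≠ 0} from hne) hc)
  obtain ⟨t, ht, hm⟩ := kron1 (fun i => l i ((1 : ℝ) + (x : ℂ) * Complex.I)) hx2 θ ε hε (max R 0)
  refine ⟨t • (((1 : ℝ) : ℂ) + (x : ℂ) * Complex.I), ?_, ?_⟩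
  · have ht0 : 0 < t := lt_of_le_of_lt (le_max_right _ _) ht
    have htR : R < t := lt_of_le_of_lt (le_max_left _ _) ht
    have h1 : (1 : ℝ) ≤ ‖((1 : ℝ) : ℂ) + (x : ℂ) * Complex.I‖ := by
      have h2 := Complex.abs_re_le_norm (((1 : ℝ) : ℂ) + (x : ℂ) * Complex.I)
      simpa using h2
    rw [norm_smul, Real.norm_of_nonneg ht0.le]
    nlinarith
  · intro i
    obtain ⟨m, hm⟩ := hm i
    refine ⟨m, ?_⟩
    rw [map_smul, smul_eq_mul, mul_comm t]
    exact hm

end H16LW
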