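import Mathlib

/-!
# H16LW, K3: independence of the real characters in the CM case

Chunk K3 (M). PROOF. Let `r_i = L.basis.repr · i : ℂ → ℝ` (real-linear, `z = r_0 z ω₁ + r_1 z ω₂`) and let `c : Fin n → Fin 2 → ℤ` with
`∑_j ∑_i c_ji r_i (p_j u) = 0` for all `u`. For a real-linear functional `r` there is `g ∈ ℂ` with `r z = Re (g z)` (`g = r 1 - r I * I`). So there are
`g_0, g_1` with `r_i z = Re (g_i z)`; put `b_j = c_j0 g_0 + c_j1 g_1`. Then `Re ((∑ b_j p_j) u) = 0` for all `u`, so `∑ b_j p_j = 0`. If all `b_j = 0`: then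
`c_j0 = Re (b_j ω₁) = 0`, `c_j1 = Re (b_j ω₂) = 0`. Otherwise `b = b_k ≠ 0` for some `k`; apply `hp` to `c'_j = b_j / b`: `∑ c'_j p_j = 0` so `c'_k = 0`,
contradiction to `c'_k = 1`. To check: for every `l ∈ L.lattice` there is `N ≠ 0` with `N (c'_j l) ∈ L.lattice`. Let `al` be the CM multiplier. For `x` in the
set `D = {b : Re (b l) ∈ ℤ for all l ∈ L.lattice}` (which contains `b_j`, and `al b_j` because `al l ∈ L.lattice`) let `V x = (Re (x ω₁), Re (x ω₂)) ∈ ℤ²`. `b` and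
`al b` are linearly independent over `ℝ` (`al` is not real), so `N = det (V b, V (al b)) ≠ 0` (if `det = 0` then a real combination `s b + t al b`, `(s, t) ≠ 0`,
has `V = 0`, i.e. `Re ((s b + t al b) z) = 0` for all `z`, so `s b + t al b = 0`, `s + t al = 0`). Cramer: `N V (b_j) = det (V b_j, V (al b)) V b + det (V b, V b_j) V (al b)`, so
`N b_j = (A + B al) b` with integers `A, B`: `N (b_j / b) l = A l + B al l ∈ L.lattice`.
-/

set_option autoImplicit false

namespace H16LW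

/-- A number with `Re (x ω₁) = Re (x ω₂) = 0` is zero. -/
theorem k3_zero (L : PeriodPair) (x : ℂ) (h1 : (x * L.ω₁).re = 0) (h2 : (x * L.ω₂).re = 0) : x = 0 := by
  have h3 : ∀ z : ℂ, (x * z).re = 0 := by
    intro z
    have h4 := L.basis.sum_repr z
    rw [Fin.sum_univ_two, PeriodPair.basis_zero, PeriodPair.basis_one] at h4
    have h5 : x * z = (((L.basis.repr z 0 : ℝ)) : ℂ) * (x * L.ω₁) + (((L.basis.repr z 1 : ℝ)) : ℂ) * (x * L.ω₂) := by
      conv_lhs => rw [← h4]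
      simp only [Complex.real_smul]
      ring
    rw [h5, Complex.add_re, Complex.re_ofReal_mul, Complex.re_ofReal_mul, h1, h2]
    simp
  have h6 := h3 ((starRingEnd ℂ) x)
  rw [Complex.mul_conj, Complex.ofReal_re, Complex.normSq_eq_zero] at h6
  exact h6

/-- The number representing a coordinate. -/
theorem k3_rep (L : PeriodPair) (i : Fin 2) : ∃ g : ℂ, ∀ z : ℂ, (g * z).re = L.basis.repr z i := by
  refine ⟨((L.basis.repr (1 : ℂ) i : ℝ) : ℂ) - ((L.basis.repr Complex.I i : ℝ) : ℂ) * Complex.I, ?_⟩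
  intro z
  have h1 : z = z.re • (1 : ℂ) + z.im • Complex.I := by
    simp only [Complex.real_smul, mul_one]
    exact (Complex.re_add_im z).symm
  have h2 : L.basis.repr z i = z.re * L.basis.repr (1 : ℂ) i + z.im * L.basis.repr Complex.I i := by
    conv_lhs => rw [h1]
    rw [map_add, map_smul, map_smul]
    simp
  rw [h2]
  simp
  ring

/-- Independence of the real characters in the CM case. -/
theorem cm_ind (L : PeriodPair) (al : ℂ) (hal : al.im ≠ 0) (hL : ∀ l ∈ L.lattice, al * l ∈ L.lattice) {n : ℕ} (p : Fin n → ℂ)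
    (hp : ∀ c : Fin n → ℂ, (∀ j, ∀ l ∈ L.lattice, ∃ N : ℤ, N ≠ 0 ∧ (N : ℂ) * (c j * l) ∈ L.lattice) →
      ∑ j, c j * p j = 0 → c = 0)
    (c : Fin n × Fin 2 → ℤ) (hc : ∀ u : ℂ, ∑ i : Fin n × Fin 2, (c i : ℝ) * L.basis.repr (p i.1 * u) i.2 = 0) : c = 0 := by
  obtain ⟨g0, hg0⟩ := k3_rep L 0
  obtain ⟨g1, hg1⟩ := k3_rep L 1
  obtain ⟨b, hb⟩ : ∃ b : Fin n → ℂ, ∀ j, b j = (c (j, 0) : ℂ) * g0 + (c (j, 1) : ℂ) * g1 := ⟨_, fun _ => rfl⟩
  have hbz : ∀ j z, (b j * z).re = c (j, 0) * L.basis.repr z 0 + c (j, 1) * L.basis.repr z 1 := by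
    intro j z
    have h1 : b j * z = (((c (j, 0) : ℤ) : ℝ) : ℂ) * (g0 * z) + (((c (j, 1) : ℤ) : ℝ) : ℂ) * (g1 * z) := by
      rw [hb]
      push_cast
      ring
    rw [h1, Complex.add_re, Complex.re_ofReal_mul, Complex.re_ofReal_mul, hg0, hg1]
  have hr00 : L.basis.repr L.ω₁ 0 = 1 := by
    rw [← PeriodPair.basis_zero, Module.Basis.repr_self]; simp
  have hr01 : L.basis.repr L.ω₁ 1 = 0 := by
    rw [← PeriodPair.basis_zero, Module.Basis.repr_self]; simp
  have hr10 : L.basis.repr L.ω₂ 0 = 0 := by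
    rw [← PeriodPair.basis_one, Module.Basis.repr_self]; simp
  have hr11 : L.basis.repr L.ω₂ 1 = 1 := by
    rw [← PeriodPair.basis_one, Module.Basis.repr_self]; simp
  have hb1 : ∀ j, (b j * L.ω₁).re = c (j, 0) := by
    intro j
    rw [hbz, hr00, hr01]
    ring
  have hb2 : ∀ j, (b j * L.ω₂).re = c (j, 1) := by
    intro j
    rw [hbz, hr10, hr11]
    ring
  have hsum : ∑ j, b j * p j = 0 := by
    have h1 : ∀ u : ℂ, ((∑ j, b j * p j) * u).re = 0 := by
      intro u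
      rw [← hc u, Finset.sum_mul, Complex.re_sum, Fintype.sum_prod_type]
      apply Finset.sum_congr rfl
      intro j _
      rw [Fin.sum_univ_two, mul_assoc, hbz]
    have h2 := h1 ((starRingEnd ℂ) (∑ j, b j * p j))
    rw [Complex.mul_conj, Complex.ofReal_re, Complex.normSq_eq_zero] at h2
    exact h2
  by_contra hne
  obtain ⟨k, hk⟩ : ∃ k : Fin n, ¬ (c (k, 0) = 0 ∧ c (k, 1) = 0) := by
    by_contra hall
    push Not at hall
    apply hne
    funext i
    obtain ⟨j, i⟩ := i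
    fin_cases i
    · exact (hall j).1
    · exact (hall j).2
  have hbk : b k ≠ 0 := by
    intro h0
    apply hk
    have h1 := hb1 k
    have h2 := hb2 k
    rw [h0] at h1 h2
    simp only [zero_mul, Complex.zero_re] at h1 h2
    constructor
    · exact_mod_cast h1.symm
    · exact_mod_cast h2.symm
  obtain ⟨m1, n1, e1⟩ := PeriodPair.mem_lattice.1 (hL _ L.ω₁_mem_lattice)
  obtain ⟨m2, n2, e2⟩ := PeriodPair.mem_lattice.1 (hL _ L.ω₂_mem_lattice)
  have ha1 : ∀ j, (al * b j * L.ω₁).re = m1 * c (j, 0) + n1 * c (j, 1) := by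
    intro j
    have h1 : al * b j * L.ω₁ = ((m1 : ℝ) : ℂ) * (b j * L.ω₁) + ((n1 : ℝ) : ℂ) * (b j * L.ω₂) := by
      have : al * b j * L.ω₁ = b j * (al * L.ω₁) := by ring
      rw [this, ← e1]
      push_cast
      ring
    rw [h1, Complex.add_re, Complex.re_ofReal_mul, Complex.re_ofReal_mul, hb1, hb2]
  have ha2 : ∀ j, (al * b j * L.ω₂).re = m2 * c (j, 0) + n2 * c (j, 1) := by
    intro j
    have h1 : al * b j * L.ω₂ = ((m2 : ℝ) : ℂ) * (b j * L.ω₁) + ((n2 : ℝ) : ℂ) * (b j * L.ω₂) := by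
      have : al * b j * L.ω₂ = b j * (al * L.ω₂) := by ring
      rw [this, ← e2]
      push_cast
      ring
    rw [h1, Complex.add_re, Complex.re_ofReal_mul, Complex.re_ofReal_mul, hb1, hb2]
  obtain ⟨d0, hd0⟩ : ∃ d0 : ℤ, d0 = m1 * c (k, 0) + n1 * c (k, 1) := ⟨_, rfl⟩
  obtain ⟨d1, hd1⟩ : ∃ d1 : ℤ, d1 = m2 * c (k, 0) + n2 * c (k, 1) := ⟨_, rfl⟩
  have hk1 : (al * b k * L.ω₁).re = d0 := by rw [ha1, hd0]; push_cast; ring
  have hk2 : (al * b k * L.ω₂).re = d1 := by rw [ha2, hd1]; push_cast; ring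
  have hcomb : ∀ (s t w : ℤ) (j : Fin n) (a1 a2 : ℤ), a1 = w * c (j, 0) - s * c (k, 0) - t * d0 →
      a2 = w * c (j, 1) - s * c (k, 1) - t * d1 → a1 = 0 → a2 = 0 →
      (w : ℂ) * b j = ((s : ℂ) + t * al) * b k := by
    intro s t w j a1 a2 h1 h2 h3 h4
    have h5 : (w : ℂ) * b j - ((s : ℂ) + t * al) * b k = 0 := by
      apply k3_zero L
      · have h6 : ((w : ℂ) * b j - ((s : ℂ) + t * al) * b k) * L.ω₁ = ((w : ℝ) : ℂ) * (b j * L.ω₁) -
            ((s : ℝ) : ℂ) * (b k * L.ω₁) - ((t : ℝ) : ℂ) * (al * b k * L.ω₁) := by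
          push_cast
          ring
        rw [h6, Complex.sub_re, Complex.sub_re, Complex.re_ofReal_mul, Complex.re_ofReal_mul, Complex.re_ofReal_mul, hb1, hb1, hk1]
        have h7 : ((w * c (j, 0) - s * c (k, 0) - t * d0 : ℤ) : ℝ) = 0 := by rw [← h1, h3]; simp
        push_cast at h7
        exact h7
      · have h6 : ((w : ℂ) * b j - ((s : ℂ) + t * al) * b k) * L.ω₂ = ((w : ℝ) : ℂ) * (b j * L.ω₂) -
            ((s : ℝ) : ℂ) * (b k * L.ω₂) - ((t : ℝ) : ℂ) * (al * b k * L.ω₂) := by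
          push_cast
          ring
        rw [h6, Complex.sub_re, Complex.sub_re, Complex.re_ofReal_mul, Complex.re_ofReal_mul, Complex.re_ofReal_mul, hb2, hb2, hk2]
        have h7 : ((w * c (j, 1) - s * c (k, 1) - t * d1 : ℤ) : ℝ) = 0 := by rw [← h2, h4]; simp
        push_cast at h7
        exact h7
    exact sub_eq_zero.1 h5
  have hreal : ∀ s t : ℤ, t ≠ 0 → (s : ℂ) + t * al ≠ 0 := by
    intro s t ht h0
    have h1 := congrArg Complex.im h0
    simp at h1
    rcases h1 with h1 | h1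
    · exact ht h1
    · exact hal h1
  obtain ⟨N, hN⟩ : ∃ N : ℤ, N = c (k, 0) * d1 - c (k, 1) * d0 := ⟨_, rfl⟩
  have hN0 : N ≠ 0 := by
    intro h0
    rw [h0] at hN
    by_cases hk0 : c (k, 0) = 0
    · have hk1' : c (k, 1) ≠ 0 := fun h => hk ⟨hk0, h⟩
      have h1 := hcomb d1 (-c (k, 1)) 0 k _ _ rfl rfl (by rw [hk0]; rw [hk0] at hN; linarith) (by ring)
      rw [Int.cast_zero, zero_mul] at h1
      exact mul_ne_zero (hreal d1 (-c (k, 1)) (neg_ne_zero.2 hk1')) hbk h1.symm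
    · have h1 := hcomb d0 (-c (k, 0)) 0 k _ _ rfl rfl (by ring) (by linarith)
      rw [Int.cast_zero, zero_mul] at h1
      exact mul_ne_zero (hreal d0 (-c (k, 0)) (neg_ne_zero.2 hk0)) hbk h1.symm
  have hint : ∀ j, ∀ l ∈ L.lattice, ∃ N : ℤ, N ≠ 0 ∧ (N : ℂ) * (b j / b k * l) ∈ L.lattice := by
    intro j l hl
    refine ⟨N, hN0, ?_⟩
    have h1 := hcomb (c (j, 0) * d1 - c (j, 1) * d0) (c (k, 0) * c (j, 1) - c (k, 1) * c (j, 0)) N j _ _ rfl rfl
      (by rw [hN]; ring) (by rw [hN]; ring)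
    have h2 : (N : ℂ) * (b j / b k * l) = ((c (j, 0) * d1 - c (j, 1) * d0 : ℤ)) • l +
        ((c (k, 0) * c (j, 1) - c (k, 1) * c (j, 0) : ℤ)) • (al * l) := by
      rw [zsmul_eq_mul, zsmul_eq_mul]
      have h3 : (N : ℂ) * (b j / b k * l) = ((N : ℂ) * b j) / b k * l := by ring
      rw [h3, h1, mul_div_assoc, div_self hbk]
      ring
    rw [h2]
    exact add_mem (Submodule.smul_mem _ _ hl) (Submodule.smul_mem _ _ (hL l hl))
  have hz := hp (fun j => b j / b k) hint (by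
    have h1 : ∑ j, b j / b k * p j = (∑ j, b j * p j) / b k := by
      rw [Finset.sum_div]
      apply Finset.sum_congr rfl
      intro j _
      ring
    rw [h1, hsum, zero_div])
  have h9 := congrFun hz k
  simp only [Pi.zero_apply] at h9
  rw [div_self hbk] at h9
  exact one_ne_zero h9

end H16LW
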