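import Pool.Agent.Lib.H16LW.K2
import Pool.Agent.Lib.H16LW.K3
import Pool.Agent.Lib.H47E.C

/-!
# H16LW, K4: density of the one-parameter group (interface theorem `density` of Lib/H47E/D.lean)

Chunk K4 (S). PROOF. `kron` with `d = Fin n × Fin 2`, `l (j, i) u = r_i (p_j u)`, `theta (j, i) = r_i (tau_j - v_j)`, and `eps' = eps / (1 + ‖ω₁‖ + ‖ω₂‖)`; `cm_ind`.
For the `u` found: `p_j u - (tau_j - v_j) - (m_0 ω₁ + m_1 ω₂) = ∑_i (r_i (p_j u) - r_i (tau_j - v_j) - m_i) ω_i` has norm `< eps`.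
-/

set_option autoImplicit false

namespace H16LW

/-- Density of the one-parameter group in the CM case. -/
theorem density' (L : PeriodPair) (hL : ∃ α : ℂ, α.im ≠ 0 ∧ ∀ l ∈ L.lattice, α * l ∈ L.lattice) {n : ℕ} (p : Fin n → ℂ)
    (hp : ∀ c : Fin n → ℂ, (∀ j, ∀ l ∈ L.lattice, ∃ N : ℤ, N ≠ 0 ∧ (N : ℂ) * (c j * l) ∈ L.lattice) →
      ∑ j, c j * p j = 0 → c = 0) (v τ : Fin n → ℂ) (ε : ℝ) (hε : 0 < ε) (R : ℝ) :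
    ∃ u : ℂ, R < ‖u‖ ∧ ∀ j, ∃ l ∈ L.lattice, ‖v j + p j * u - τ j - l‖ < ε := by
  obtain ⟨α, hα, hLα⟩ := hL
  have hW : 0 < 1 + ‖L.ω₁‖ + ‖L.ω₂‖ := by positivity
  obtain ⟨u, hR, hu⟩ := kron (fun i : Fin n × Fin 2 => (L.basis.coord i.2) ∘ₗ (LinearMap.mulLeft ℝ (p i.1)))
    (fun c hc => cm_ind L α hα hLα p hp c hc) (fun i => L.basis.repr (τ i.1 - v i.1) i.2)
    (ε / (1 + ‖L.ω₁‖ + ‖L.ω₂‖)) (by positivity) R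
  choose m hm using hu
  refine ⟨u, hR, fun j => ⟨m (j, 0) * L.ω₁ + m (j, 1) * L.ω₂, PeriodPair.mem_lattice.2 ⟨_, _, rfl⟩, ?_⟩⟩
  have h0 : |L.basis.repr (p j * u) 0 - L.basis.repr (τ j - v j) 0 - m (j, 0)| < ε / (1 + ‖L.ω₁‖ + ‖L.ω₂‖) := hm (j, 0)
  have h1 : |L.basis.repr (p j * u) 1 - L.basis.repr (τ j - v j) 1 - m (j, 1)| < ε / (1 + ‖L.ω₁‖ + ‖L.ω₂‖) := hm (j, 1)
  set a0 : ℝ := L.basis.repr (p j * u) 0 - L.basis.repr (τ j - v j) 0 - m (j, 0) with ha0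
  set a1 : ℝ := L.basis.repr (p j * u) 1 - L.basis.repr (τ j - v j) 1 - m (j, 1) with ha1
  have e1 := L.basis.sum_repr (p j * u)
  have e2 := L.basis.sum_repr (τ j - v j)
  rw [Fin.sum_univ_two, PeriodPair.basis_zero, PeriodPair.basis_one, Complex.real_smul, Complex.real_smul] at e1 e2
  have e : v j + p j * u - τ j - ((m (j, 0) : ℂ) * L.ω₁ + (m (j, 1) : ℂ) * L.ω₂) = (a0 : ℂ) * L.ω₁ + (a1 : ℂ) * L.ω₂ := by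
    rw [ha0, ha1]
    push_cast
    linear_combination e2 - e1
  rw [e]
  calc ‖(a0 : ℂ) * L.ω₁ + (a1 : ℂ) * L.ω₂‖ ≤ ‖(a0 : ℂ) * L.ω₁‖ + ‖(a1 : ℂ) * L.ω₂‖ := norm_add_le _ _
    _ = |a0| * ‖L.ω₁‖ + |a1| * ‖L.ω₂‖ := by
      rw [norm_mul, norm_mul, Complex.norm_real, Complex.norm_real, Real.norm_eq_abs, Real.norm_eq_abs]
    _ ≤ ε / (1 + ‖L.ω₁‖ + ‖L.ω₂‖) * ‖L.ω₁‖ + ε / (1 + ‖L.ω₁‖ + ‖L.ω₂‖) * ‖L.ω₂‖ :=
      add_le_add (mul_le_mul_of_nonneg_right h0.le (norm_nonneg _)) (mul_le_mul_of_nonneg_right h1.le (norm_nonneg _))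
    _ < ε / (1 + ‖L.ω₁‖ + ‖L.ω₂‖) * (1 + ‖L.ω₁‖ + ‖L.ω₂‖) := by
      have : 0 < ε / (1 + ‖L.ω₁‖ + ‖L.ω₂‖) := by positivity
      nlinarith
    _ = ε := div_mul_cancel₀ _ hW.ne'

end H16LW
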