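import Pool.Agent.Lib.H35P.A8

/-!
# H16LW, P1: wp is algebraic at 2-power torsion points

Chunk P1 (S/M). PROOF. Induction on `k`. `k = 0` impossible. If `2 z ∈ L.lattice`: `wp' z = wp' (z - 2 z) = wp' (-z) = - wp' z`, so `wp' z = 0` and `4 x ^ 3 - g₂ x - g₃ = 0` for `x = wp z`. Otherwise
`wp (2 z) =: q` is algebraic (induction for `2 z`) and `H35P.dbl_x`: with `y = wp' z ≠ 0` (H35P.wpd_ne), `y ^ 2 = 4 x ^ 3 - g₂ x - g₃`: `(6 x ^ 2 - g₂ / 2) ^ 2 = 4 (q + 2 x) (4 x ^ 3 - g₂ x - g₃)`, a polynomial equation with algebraic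
coefficients, coefficient of `x ^ 4`: `36 - 32 = 4`. A root of a nonzero polynomial with coefficients in the algebraic closure of `ℚ` in `ℂ` is in it (`IsAlgebraic` transitivity, `algebraicClosure ℚ ℂ` is algebraically closed, or
`isAlgebraic_of_..`).
-/

set_option autoImplicit false

namespace H16LW

open Polynomial in
/-- A root of a polynomial `c₄ X ^ 4 + c₃ X ^ 3 + c₂ X ^ 2 + c₁ X + c₀` with algebraic coefficients, not all of them zero, is
algebraic. -/
theorem p1_root (c : Fin 5 → ℂ) (hc : ∀ i, IsAlgebraic ℚ (c i)) (h0 : c ≠ 0) (x : ℂ)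
    (hx : c 4 * x ^ 4 + c 3 * x ^ 3 + c 2 * x ^ 2 + c 1 * x + c 0 = 0) : IsAlgebraic ℚ x := by
  let K := algebraicClosure ℚ ℂ
  let d : Fin 5 → K := fun i => ⟨c i, (mem_algebraicClosure_iff).2 (hc i)⟩
  have hd : ∀ i, algebraMap K ℂ (d i) = c i := fun i => rfl
  let P : K[X] := ∑ i : Fin 5, C (d i) * X ^ (i : ℕ)
  have hP0 : P ≠ 0 := by
    intro h
    apply h0
    funext i
    have h1 : P.coeff (i : ℕ) = d i := by
      simp only [P, finsetSum_coeff, coeff_C_mul, coeff_X_pow]
      rw [Finset.sum_eq_single i]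
      · simp
      · intro j _ hj
        have : (i : ℕ) ≠ (j : ℕ) := fun h => hj (Fin.ext h.symm)
        simp [this]
      · intro h
        exact absurd (Finset.mem_univ i) h
    rw [h] at h1
    have h2 := congrArg (algebraMap K ℂ) h1
    rw [coeff_zero, map_zero, hd] at h2
    exact h2.symm
  have hPx : aeval x P = 0 := by
    simp only [P, map_sum, map_mul, aeval_C, map_pow, aeval_X, hd]
    rw [Fin.sum_univ_five, ← hx]
    simp
    ring
  have h1 : IsAlgebraic K x := ⟨P, hP0, hPx⟩
  haveI : Algebra.IsAlgebraic ℚ K := algebraicClosure.isAlgebraic ℚ ℂ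
  exact h1.restrictScalars ℚ

/-- `wp` is algebraic at 2-power torsion points. -/
theorem tors_alg (L : PeriodPair) (h2 : IsAlgebraic ℚ L.g₂) (h3 : IsAlgebraic ℚ L.g₃) (k : ℕ) (z : ℂ) (hz : z ∉ L.lattice)
    (hk : 2 ^ k * z ∈ L.lattice) : IsAlgebraic ℚ (L.weierstrassP z) := by
  induction k generalizing z with
  | zero =>
    exfalso
    apply hz
    simpa using hk
  | succ k ih =>
    have hq : ∀ q : ℚ, IsAlgebraic ℚ (q : ℂ) := fun q => isAlgebraic_algebraMap (A := ℂ) q
    have hode := L.derivWeierstrassP_sq z hz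
    by_cases h : 2 * z ∈ L.lattice
    · have h0 : L.derivWeierstrassP z = 0 := H35P.A4_wpd_half h
      rw [h0] at hode
      refine p1_root ![-L.g₃, -L.g₂, 0, 4, 0] ?_ ?_ _ ?_
      · intro i
        fin_cases i
        · exact h3.neg
        · exact h2.neg
        · exact isAlgebraic_zero
        · have := hq 4
          simpa using this
        · exact isAlgebraic_zero
      · intro h
        have := congrFun h 3
        simp at this
      · simp
        linear_combination -hode
    · have ih' := ih (2 * z) h (by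
        have : (2 : ℂ) ^ k * (2 * z) = 2 ^ (k + 1) * z := by ring
        rw [this]
        exact hk)
      have hy := H35P.wpd_ne L z hz h
      have hdbl := H35P.dbl_x L z hz h
      rw [H35P.md] at hdbl
      set q := L.weierstrassP (2 * z)
      set x := L.weierstrassP z
      set y := L.derivWeierstrassP z
      have e1 : (6 * x ^ 2 - L.g₂ / 2) ^ 2 = 4 * (q + 2 * x) * y ^ 2 := by
        rw [hdbl]
        field_simp
        ring
      refine p1_root ![L.g₂ ^ 2 * ((1 / 4 : ℚ) : ℂ) + ((4 : ℚ) : ℂ) * q * L.g₃, ((4 : ℚ) : ℂ) * q * L.g₂ + ((8 : ℚ) : ℂ) * L.g₃,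
        ((2 : ℚ) : ℂ) * L.g₂, ((-16 : ℚ) : ℂ) * q, ((4 : ℚ) : ℂ)] ?_ ?_ _ ?_
      · intro i
        fin_cases i
        · exact ((h2.pow 2).mul (hq _)).add (((hq _).mul ih').mul h3)
        · exact (((hq _).mul ih').mul h2).add ((hq _).mul h3)
        · exact (hq _).mul h2
        · exact (hq _).mul ih'
        · exact hq _
      · intro h
        have := congrFun h 4
        simp at this
      · simp
        rw [hode] at e1
        linear_combination e1

end H16LW
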