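import Pool.Agent.Lib.H16LW.Z2

/-!
# H16LW, R0: the integral core statement and the scaled lattice
-/

set_option autoImplicit false

namespace H16LW

open H47E NumberField

/-- The core statement which is proved in module G: integral `a, c`, CM data over `K`, `m₀` depends on `n, K, ι` only. -/
def CoreI : Prop := ∀ (n : ℕ) (K : Type) (_ : Field K) (_ : NumberField K) (ι : K →+* ℂ), ∃ m₀ : ℕ,
  ∀ (L : PeriodPair), CM L → ∀ (e : ℂ) (a c : 𝓞 K), Norm L e (ι (a : K)) (ι (c : K)) → CMData K (a : K) (c : K) →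
    ∀ p : Fin n → K, KInd L (fun j => ι (p j)) →
      (∀ j, ∀ m : ℕ, 1 ≤ m → m ≤ m₀ → 2 * (m : ℂ) * ι (p j) ∉ L.lattice) →
        ∀ Q : MvPolynomial (Fin n × Fin 2) K, Q ≠ 0 →
          MvPolynomial.eval₂ ι (fun i : Fin n × Fin 2 => if i.2 = 0 then xf L e (ι (p i.1)) else wf L e (ι (p i.1))) Q ≠ 0

theorem sca_indep (L : PeriodPair) (N : ℕ) (hN : 0 < N) : LinearIndependent ℝ ![L.ω₁ / N, L.ω₂ / N] := by
  have h0 : ((N : ℂ)⁻¹) ≠ 0 := inv_ne_zero (by exact_mod_cast hN.ne')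
  have h := L.indep
  rw [LinearIndependent.pair_iff] at h ⊢
  intro s t hst
  apply h
  have h1 : (N : ℂ)⁻¹ * (s • L.ω₁ + t • L.ω₂) = 0 := by
    rw [← hst]
    simp only [Complex.real_smul]
    ring
  exact (mul_eq_zero.1 h1).resolve_left h0

/-- The lattice divided by `N`. -/
noncomputable def sca (L : PeriodPair) (N : ℕ) (hN : 0 < N) : PeriodPair := ⟨L.ω₁ / N, L.ω₂ / N, sca_indep L N hN⟩

end H16LW
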