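import Pool.Agent.Lib.H16LW.R0

/-!
# H16LW, R1: the scaled lattice

Chunk R1 (S/M). PROOF. `sca_mem`: PeriodPair.mem_lattice. The sums: the equivalence `L.lattice ≃ (sca L N hN).lattice`, `l ↦ l / N` (or `latticeEquivProd.symm` on both sides), `Equiv.tsum_eq`; term by term:
`1 / (z / N - l / N) ^ 2 - 1 / (l / N) ^ 2 = N ^ 2 (..)`, `tsum_mul_left`; `G k` (PeriodPair.G, `∑' (l ^ k)⁻¹`); `A5_t (l / N) (z / N) = N * A5_t l z`.
-/

set_option autoImplicit false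

namespace H16LW

open H47E

variable (L : PeriodPair) (N : ℕ) (hN : 0 < N)

theorem sca_mem (z : ℂ) : z ∈ (sca L N hN).lattice ↔ (N : ℂ) * z ∈ L.lattice := by
  have h0 : (N : ℂ) ≠ 0 := by exact_mod_cast hN.ne'
  rw [PeriodPair.mem_lattice, PeriodPair.mem_lattice]
  constructor
  · rintro ⟨m, n, h⟩
    refine ⟨m, n, ?_⟩
    rw [← h]
    change _ = (N : ℂ) * (m * (L.ω₁ / N) + n * (L.ω₂ / N))
    field_simp
  · rintro ⟨m, n, h⟩
    refine ⟨m, n, ?_⟩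
    change m * (L.ω₁ / N) + n * (L.ω₂ / N) = z
    have h1 : m * (L.ω₁ / N) + n * (L.ω₂ / N) = (m * L.ω₁ + n * L.ω₂) / N := by ring
    rw [h1, h, mul_div_cancel_left₀ _ h0]

/-- Division by `N`. -/
noncomputable def r1_eq : L.lattice ≃ (sca L N hN).lattice where
  toFun l := ⟨(l : ℂ) / N, (sca_mem L N hN _).mpr (by
    rw [mul_div_cancel₀ _ (by exact_mod_cast hN.ne' : (N : ℂ) ≠ 0)]
    exact l.2)⟩
  invFun l := ⟨(N : ℂ) * l, (sca_mem L N hN _).mp l.2⟩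
  left_inv l := by
    apply Subtype.ext
    exact mul_div_cancel₀ _ (by exact_mod_cast hN.ne' : (N : ℂ) ≠ 0)
  right_inv l := by
    apply Subtype.ext
    exact mul_div_cancel_left₀ _ (by exact_mod_cast hN.ne' : (N : ℂ) ≠ 0)

theorem r1_tsum (f : ℂ → ℂ) : ∑' l : (sca L N hN).lattice, f l = ∑' l : L.lattice, f ((l : ℂ) / N) :=
  ((r1_eq L N hN).tsum_eq fun l : (sca L N hN).lattice => f l).symm

theorem r1_G (k : ℕ) : (sca L N hN).G k = (N : ℂ) ^ k * L.G k := by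
  unfold PeriodPair.G
  rw [r1_tsum L N hN fun l => (l ^ k)⁻¹, ← tsum_mul_left]
  refine tsum_congr fun l => ?_
  rw [div_pow, inv_div, div_eq_mul_inv]

theorem sca_g2 : (sca L N hN).g₂ = (N : ℂ) ^ 4 * L.g₂ := by
  unfold PeriodPair.g₂
  rw [r1_G]
  ring

theorem sca_g3 : (sca L N hN).g₃ = (N : ℂ) ^ 6 * L.g₃ := by
  unfold PeriodPair.g₃
  rw [r1_G]
  ring

theorem sca_wp (z : ℂ) : (sca L N hN).weierstrassP (z / N) = (N : ℂ) ^ 2 * L.weierstrassP z := by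
  unfold PeriodPair.weierstrassP
  rw [r1_tsum L N hN fun l => 1 / (z / N - l) ^ 2 - 1 / l ^ 2, ← tsum_mul_left]
  refine tsum_congr fun l => ?_
  rw [← sub_div, div_pow, div_pow, one_div_div, one_div_div]
  ring

theorem sca_zeta (z : ℂ) : H35P.A5_z (sca L N hN) (z / N) = (N : ℂ) * H35P.A5_z L z := by
  have h0 : (N : ℂ) ≠ 0 := by exact_mod_cast hN.ne'
  unfold H35P.A5_z
  rw [r1_tsum L N hN fun l => H35P.A5_t l (z / N), ← tsum_mul_left]
  refine tsum_congr fun l => ?_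
  unfold H35P.A5_t
  rw [← sub_div, inv_div, inv_div, div_pow]
  have h1 : z / (N : ℂ) / ((l : ℂ) ^ 2 / (N : ℂ) ^ 2) = N * (z / (l : ℂ) ^ 2) := by
    rw [div_div_div_eq]
    rcases eq_or_ne (l : ℂ) 0 with hl | hl
    · rw [hl]
      simp
    · field_simp
  rw [h1]
  ring

end H16LW
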