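import Pool.Agent.Lib.H16LW.R1

/-!
# H16LW, R2: the hypotheses for the scaled lattice

Chunk R2 (S). PROOF. From R1. `Norm`: `4 (N²e)³ - N⁴ g₂ N² e - N⁶ g₃ = N⁶ (..)`, `N² a = 3 N² e`, `N⁴ c = 3 (N² e)² - N⁴ g₂ / 4`. `CM`: the same multiplier. `KInd (sca L N hN) (p / N)`: if `∑ c_j p_j / N = 0` then `∑ c_j p_j = 0`; for `l ∈ L.lattice`:
`l / N ∈ (sca ..).lattice`, `M (c_j (l / N)) ∈ (sca ..).lattice`, so `N (M c_j l / N) = M (c_j l) ∈ L.lattice`.
-/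

set_option autoImplicit false

namespace H16LW

open H47E

variable (L : PeriodPair) (N : ℕ) (hN : 0 < N)

theorem sca_norm {e a c : ℂ} (h : Norm L e a c) :
    Norm (sca L N hN) ((N : ℂ) ^ 2 * e) ((N : ℂ) ^ 2 * a) ((N : ℂ) ^ 4 * c) := by
  refine ⟨?_, ?_, ?_⟩
  · rw [sca_g2, sca_g3]
    linear_combination (N : ℂ) ^ 6 * h.root
  · linear_combination (N : ℂ) ^ 2 * h.ha
  · rw [sca_g2]
    linear_combination (N : ℂ) ^ 4 * h.hc

theorem sca_cm (h : CM L) : CM (sca L N hN) := by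
  obtain ⟨α, hα, hl⟩ := h
  refine ⟨α, hα, fun l h1 => ?_⟩
  rw [sca_mem] at h1 ⊢
  have h2 := hl _ h1
  rwa [mul_left_comm] at h2

theorem sca_kind {n : ℕ} (p : Fin n → ℂ) (h : KInd L p) : KInd (sca L N hN) (fun j => p j / N) := by
  have h0 : (N : ℂ) ≠ 0 := by exact_mod_cast hN.ne'
  intro c hc hsum
  apply h c
  · intro j l hl
    have h1 : l / N ∈ (sca L N hN).lattice := by
      rw [sca_mem, mul_div_cancel₀ l h0]
      exact hl
    obtain ⟨M, hM, hm⟩ := hc j _ h1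
    refine ⟨M, hM, ?_⟩
    rw [sca_mem] at hm
    have e : (N : ℂ) * ((M : ℂ) * (c j * (l / N))) = (M : ℂ) * (c j * l) := by
      field_simp
    rwa [e] at hm
  · have e : ∑ j, c j * (p j / N) = (∑ j, c j * p j) / N := by
      rw [Finset.sum_div]
      exact Finset.sum_congr rfl fun j _ => by ring
    rw [e] at hsum
    exact (div_eq_zero_iff.1 hsum).resolve_right h0

theorem sca_xf (e z : ℂ) : xf (sca L N hN) ((N : ℂ) ^ 2 * e) (z / N) = (N : ℂ) ^ 2 * xf L e z := by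
  unfold xf
  rw [sca_wp]
  ring

theorem sca_wf (e z : ℂ) : wf (sca L N hN) ((N : ℂ) ^ 2 * e) (z / N) = (N : ℂ) * wf L e z := by
  have h0 : (N : ℂ) ≠ 0 := by exact_mod_cast hN.ne'
  unfold wf
  rw [sca_zeta]
  field_simp

end H16LW
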