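import Pool.Agent.Lib.H16LW.R2
import Pool.Agent.Lib.H16LW.E6
import Pool.Agent.Lib.H16LW.P1

/-!
# H16LW, R3: reduction to integral coefficients, with the condition on the multiples of p

Chunk R3 (M). PROOF. `IsAlgebraic ℚ a`: there is `M₁ ≥ 1` with `M₁ a` integral over `ℤ` (`IsAlgebraic.exists_integral_multiple`/`exists_integral_multiples`, or `IsIntegral` clearing denominators), the same `M₂` for `c`; `N = M₁ M₂`: `N² a`, `N⁴ c` are integral.
`L' = sca L N`, `e' = N² e`, `a' = N² a`, `c' = N⁴ c`, `p' = p / N`. `F` = `{a', c'} ∪ {p'_j} ∪ extra ∪` coefficients of `Q`; `cm_exists'` for `L'`: `K, CMData`. `ι = algebraMap K ℂ` (the inclusion). `CoreI` with `n, K, ι` gives `m₀`. Conclusion as stated: for this `m₀`, if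
`2 m p_j ∉ L.lattice` for `m ≤ m₀` then no relation: `2 m p'_j ∉ L'.lattice` (sca_mem: `N (2 m p_j / N) = 2 m p_j`), `Q₁ ∈ MvPolynomial _ K` with `map (algebraMap) Q₁ = Q` (coefficients in `K`; `MvPolynomial` lift through `map`, `mem_range_map_iff_coeffs_subset`),
`Q₂ = aeval (fun i => C (N^(-2) or N^(-1)) * X i) Q₁ ≠ 0` (the inverse substitution), and its value at `(x', w')(p'_j) = (N² x(p_j), N w(p_j))` is the value of `Q` at `(x(p_j), w(p_j))`.
`r3_core` is stated with an additional finite set `E` of algebraic numbers and gives `K` first (so that one can choose the point after `m₀`): for all `n` and all finite sets `F` of algebraic numbers (containing `a, c` or not) there is `m₀` such that for all `p` with `p_j ∈ F`.. .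
-/

set_option autoImplicit false

namespace H16LW

open H47E

theorem r3_int {a : ℂ} (ha : IsAlgebraic ℚ a) : ∃ M : ℕ, 0 < M ∧ IsIntegral ℤ ((M : ℂ) * a) := by
  obtain ⟨y, hy, hy2⟩ := ((IsFractionRing.isAlgebraic_iff ℤ ℚ ℂ).2 ha).exists_integral_multiple
  refine ⟨y.natAbs, Int.natAbs_pos.2 hy, ?_⟩
  rw [zsmul_eq_mul] at hy2
  rcases Int.natAbs_eq y with h | h
  · have e : (((y.natAbs : ℕ) : ℤ) : ℂ) = (y : ℂ) := congrArg (Int.cast : ℤ → ℂ) h.symm
    rw [Int.cast_natCast] at e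
    rwa [e]
  · have e : (y : ℂ) = -((y.natAbs : ℕ) : ℂ) := by
      have := congrArg (Int.cast : ℤ → ℂ) h
      push_cast at this
      exact_mod_cast this
    rw [e, neg_mul] at hy2
    exact (neg_neg (((y.natAbs : ℕ) : ℂ) * a)) ▸ hy2.neg

theorem r3_sub {K σ : Type} [Field K] (s : σ → K) (hs : ∀ i, s i ≠ 0) (Q : MvPolynomial σ K) (hQ : Q ≠ 0) :
    MvPolynomial.bind₁ (fun i => MvPolynomial.C (s i) * MvPolynomial.X i) Q ≠ 0 := by
  intro h
  apply hQ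
  have h1 := congrArg (MvPolynomial.bind₁ (fun i => MvPolynomial.C (s i)⁻¹ * MvPolynomial.X i : σ → MvPolynomial σ K)) h
  rw [MvPolynomial.bind₁_bind₁, map_zero] at h1
  have e : (fun i => (MvPolynomial.bind₁ (fun i => MvPolynomial.C (s i)⁻¹ * MvPolynomial.X i : σ → MvPolynomial σ K))
      (MvPolynomial.C (s i) * MvPolynomial.X i)) = (MvPolynomial.X : σ → MvPolynomial σ K) := by
    funext i
    rw [map_mul, MvPolynomial.bind₁_X_right, MvPolynomial.bind₁_C_right, ← mul_assoc, ← MvPolynomial.C_mul,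
      mul_inv_cancel₀ (hs i), MvPolynomial.C_1, one_mul]
  rw [e, MvPolynomial.bind₁_X_left] at h1
  exact h1

/-- The core statement for coefficients and points in the field generated by a finite set `F`; `m₀` depends on `L`, `n` and `F`. -/
theorem r3_core (hC : CoreI) (L : PeriodPair) (hL : CM L) (e a c : ℂ) (Nm : Norm L e a c) (ha : IsAlgebraic ℚ a) (hc : IsAlgebraic ℚ c)
    (n : ℕ) (F : Finset ℂ) (hF : ∀ x ∈ F, IsAlgebraic ℚ x) :
    ∃ m₀ : ℕ, ∀ p : Fin n → ℂ, (∀ j, p j ∈ IntermediateField.adjoin ℚ (F : Set ℂ)) → KInd L p →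
      (∀ j, ∀ m : ℕ, 1 ≤ m → m ≤ m₀ → 2 * (m : ℂ) * p j ∉ L.lattice) →
        ∀ Q : MvPolynomial (Fin n × Fin 2) ℂ, (∀ m, Q.coeff m ∈ IntermediateField.adjoin ℚ (F : Set ℂ)) → Q ≠ 0 →
          MvPolynomial.eval (fun i : Fin n × Fin 2 => if i.2 = 0 then xf L e (p i.1) else wf L e (p i.1)) Q ≠ 0 := by
  classical
  obtain ⟨M₁, hM₁, hi₁⟩ := r3_int ha
  obtain ⟨M₂, hM₂, hi₂⟩ := r3_int hc
  set N : ℕ := M₁ * M₂ with hNdef
  have hN : 0 < N := Nat.mul_pos hM₁ hM₂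
  have hN0 : (N : ℂ) ≠ 0 := by exact_mod_cast hN.ne'
  have hnat : ∀ m : ℕ, IsIntegral ℤ ((m : ℕ) : ℂ) := fun m => by
    have := isIntegral_algebraMap (R := ℤ) (A := ℂ) (x := (m : ℤ))
    simpa using this
  have ja : IsIntegral ℤ ((N : ℂ) ^ 2 * a) := by
    have e : (N : ℂ) ^ 2 * a = ((M₁ * M₂ ^ 2 : ℕ) : ℂ) * ((M₁ : ℂ) * a) := by
      rw [hNdef]; push_cast; ring
    rw [e]
    exact (hnat _).mul hi₁
  have jc : IsIntegral ℤ ((N : ℂ) ^ 4 * c) := by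
    have e : (N : ℂ) ^ 4 * c = ((M₁ ^ 4 * M₂ ^ 3 : ℕ) : ℂ) * ((M₂ : ℂ) * c) := by
      rw [hNdef]; push_cast; ring
    rw [e]
    exact (hnat _).mul hi₂
  have toQ : ∀ {z : ℂ}, IsIntegral ℤ z → IsAlgebraic ℚ z := fun h => (h.tower_top (A := ℚ)).isAlgebraic
  obtain ⟨K, hK, hFK, ⟨hD⟩⟩ := cm_exists' (sca_cm L N hN hL) (sca_norm L N hN Nm)
    ({(N : ℂ) ^ 2 * a, (N : ℂ) ^ 4 * c} ∪ F) (by
      intro x hx
      rw [Finset.mem_union, Finset.mem_insert, Finset.mem_singleton] at hx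
      rcases hx with (rfl | rfl) | hx
      · exact toQ ja
      · exact toQ jc
      · exact hF x hx) (by simp) (by simp)
  have hle : IntermediateField.adjoin ℚ (F : Set ℂ) ≤ K := by
    rw [IntermediateField.adjoin_le_iff]
    intro x hx
    exact hFK x (Finset.mem_union_right _ hx)
  have hinj : Function.Injective (algebraMap K ℂ) := (algebraMap K ℂ).injective
  obtain ⟨A, hA⟩ : ∃ A : NumberField.RingOfIntegers K, (A : K) = ⟨(N : ℂ) ^ 2 * a, hFK _ (by simp)⟩ :=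
    ⟨⟨⟨(N : ℂ) ^ 2 * a, hFK _ (by simp)⟩, (isIntegral_algebraMap_iff hinj).1 (show IsIntegral ℤ (algebraMap K ℂ ⟨(N : ℂ) ^ 2 * a, hFK _ (by simp)⟩) from ja)⟩, rfl⟩
  obtain ⟨C', hC'⟩ : ∃ A : NumberField.RingOfIntegers K, (A : K) = ⟨(N : ℂ) ^ 4 * c, hFK _ (by simp)⟩ :=
    ⟨⟨⟨(N : ℂ) ^ 4 * c, hFK _ (by simp)⟩, (isIntegral_algebraMap_iff hinj).1 (show IsIntegral ℤ (algebraMap K ℂ ⟨(N : ℂ) ^ 4 * c, hFK _ (by simp)⟩) from jc)⟩, rfl⟩
  rw [← hA, ← hC'] at hD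
  obtain ⟨m₀, hm₀⟩ := hC n K inferInstance hK (algebraMap K ℂ)
  refine ⟨m₀, fun p hp hk h2 Q hQc hQ0 hQ => ?_⟩
  have hNm : Norm (sca L N hN) ((N : ℂ) ^ 2 * e) (algebraMap K ℂ (A : K)) (algebraMap K ℂ (C' : K)) := by
    rw [hA, hC']
    exact sca_norm L N hN Nm
  have hpK : ∀ j, p j / N ∈ K := fun j => K.div_mem (hle (hp j)) (natCast_mem K N)
  obtain ⟨Q₁, hQ₁⟩ : ∃ Q₁ : MvPolynomial (Fin n × Fin 2) K, MvPolynomial.map (algebraMap K ℂ) Q₁ = Q := by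
    have : Q ∈ Set.range (MvPolynomial.map (σ := Fin n × Fin 2) (algebraMap K ℂ)) := by
      rw [MvPolynomial.mem_range_map_iff_coeffs_subset]
      intro x hx
      obtain ⟨m, -, rfl⟩ := MvPolynomial.mem_coeffs_iff.1 hx
      exact ⟨⟨_, hle (hQc m)⟩, rfl⟩
    exact this
  have hQ₁0 : Q₁ ≠ 0 := by
    rintro rfl
    exact hQ0 (by rw [← hQ₁, map_zero])
  have hNK : (N : K) ≠ 0 := by exact_mod_cast hN.ne'
  set s : Fin n × Fin 2 → K := fun i => if i.2 = 0 then ((N : K) ^ 2)⁻¹ else (N : K)⁻¹ with hs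
  have hs0 : ∀ i, s i ≠ 0 := by
    intro i
    simp only [hs]
    split_ifs
    · exact inv_ne_zero (pow_ne_zero 2 hNK)
    · exact inv_ne_zero hNK
  refine hm₀ (sca L N hN) (sca_cm L N hN hL) ((N : ℂ) ^ 2 * e) A C' hNm hD (fun j => ⟨p j / N, hpK j⟩) ?_ ?_
    (MvPolynomial.bind₁ (fun i => MvPolynomial.C (s i) * MvPolynomial.X i) Q₁) (r3_sub s hs0 Q₁ hQ₁0) ?_
  · exact sca_kind L N hN p hk
  · intro j m h1 h3 h4
    refine h2 j m h1 h3 ?_
    have h5 := (sca_mem L N hN _).1 h4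
    have e1 : (N : ℂ) * (2 * (m : ℂ) * (algebraMap K ℂ ⟨p j / N, hpK j⟩)) = 2 * (m : ℂ) * p j := by
      show (N : ℂ) * (2 * (m : ℂ) * (p j / N)) = 2 * (m : ℂ) * p j
      field_simp
    rwa [e1] at h5
  · have e2 := MvPolynomial.eval₂Hom_bind₁ (algebraMap K ℂ) (fun i : Fin n × Fin 2 =>
      if i.2 = 0 then xf (sca L N hN) ((N : ℂ) ^ 2 * e) (algebraMap K ℂ ⟨p i.1 / N, hpK i.1⟩)
        else wf (sca L N hN) ((N : ℂ) ^ 2 * e) (algebraMap K ℂ ⟨p i.1 / N, hpK i.1⟩))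
      (fun i => MvPolynomial.C (s i) * MvPolynomial.X i) Q₁
    rw [MvPolynomial.coe_eval₂Hom] at e2
    rw [e2, ← hQ, ← hQ₁, MvPolynomial.eval_map, MvPolynomial.coe_eval₂Hom]
    congr 1
    funext i
    simp only [MvPolynomial.eval₂_mul, MvPolynomial.eval₂_C, MvPolynomial.eval₂_X, hs]
    by_cases hi : i.2 = 0
    · rw [if_pos hi, if_pos hi, if_pos hi]
      have e3 : xf (sca L N hN) ((N : ℂ) ^ 2 * e) (algebraMap K ℂ ⟨p i.1 / N, hpK i.1⟩) = (N : ℂ) ^ 2 * xf L e (p i.1) :=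
        sca_xf L N hN e (p i.1)
      rw [e3, map_inv₀, map_pow, map_natCast]
      field_simp
    · rw [if_neg hi, if_neg hi, if_neg hi]
      have e3 : wf (sca L N hN) ((N : ℂ) ^ 2 * e) (algebraMap K ℂ ⟨p i.1 / N, hpK i.1⟩) = (N : ℂ) * wf L e (p i.1) :=
        sca_wf L N hN e (p i.1)
      rw [e3, map_inv₀, map_natCast]
      field_simp

end H16LW
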