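import Pool.Agent.Lib.H16LW.R3

/-!
# H16LW, R4: no nonzero period is algebraic; the core statement

Chunk R4 (M). PROOF. `noper`: let `om ≠ 0` be in `L.lattice` and algebraic. WLOG `om / 2 ∉ L.lattice`: `om = m ω₁ + k ω₂`; the set of `i` with `om / 2 ^ i ∈ L.lattice` is bounded (`2 ^ i` divides `m` and `k`, not both `0`), replace `om` by `om / 2 ^ i`, `i` maximal.
`r3_core` with `n = 1`, `F = {om, xi}`? Problem: the value `x(p)` must have coefficients in the field before `p` is chosen. So use `Q` with RATIONAL... : `x(p)` is algebraic over `ℚ` (`tors_alg`, `e = a / 3` algebraic), so `Q = minpoly ℚ (x(p))` in the variable `(0, 0)`: coefficients in `ℚ`,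
`Q ≠ 0`, `Q (x(p), w(p)) = 0`. `F = {om}`; `m₀`; `2 ^ k > 4 m₀ + 4`, `p = om / 2 ^ k`: in `ℚ(om)`; `KInd` for `n = 1` and `p ≠ 0` is clear; `2 m p ∉ L.lattice` for `1 ≤ m ≤ m₀`: `m = 2 ^ i m'`, `m'` odd, `2 ^ i ≤ m₀ < 2 ^ (k - 2)`; if `m' om / 2 ^ (k - 1 - i) ∈ L.lattice` then (multiply by `2 ^ (k - 2 - i)`)
`m' om / 2 ∈ L.lattice`, and `(m' - 1) / 2 * om ∈ L.lattice`, so `om / 2 ∈ L.lattice`: contradiction. `2 ^ (k + 1) p ∈ L.lattice`, `p ∉ L.lattice` (`m = 1`), so `tors_alg` applies; `g₂ = 4 (3 e² - c)`, `g₃ = 4 e³ - g₂ e` are algebraic.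
`core_of`: `r3_core` with `F = {p_j} ∪` coefficients of `Q`; `p_j ≠ 0` by `KInd` (take `c = Pi.single j 1`), `2 m p_j ≠ 0` is algebraic, so it is not in `L.lattice` by `noper`. `Q` over `algebraicClosure ℚ ℂ` is mapped to `ℂ` (`MvPolynomial.map`, injective).
-/

set_option autoImplicit false

namespace H16LW

open H47E

theorem r4a_step (L : PeriodPair) (om : ℂ) (hom : om ∈ L.lattice) (h0 : om ≠ 0) :
    ∃ i : ℕ, om / 2 ^ i ∈ L.lattice ∧ om / 2 ^ i / 2 ∉ L.lattice := by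
  classical
  have hex : ∃ i : ℕ, om / 2 ^ i ∉ L.lattice := by
    have h1 : Filter.Tendsto (fun i : ℕ => om * (1 / 2 : ℂ) ^ i) Filter.atTop (nhds (om * 0)) := by
      refine Filter.Tendsto.const_mul _ (tendsto_pow_atTop_nhds_zero_of_norm_lt_one ?_)
      norm_num
    rw [mul_zero] at h1
    have h2 := h1.eventually (L.compl_lattice_sdiff_singleton_mem_nhds 0)
    obtain ⟨i, hi⟩ := h2.exists
    refine ⟨i, fun h => hi ⟨?_, ?_⟩⟩
    · have h3 : om * (1 / 2 : ℂ) ^ i = om / 2 ^ i := by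
        rw [one_div, inv_pow]
        rfl
      rw [h3]
      exact h
    · intro h4
      rw [Set.mem_singleton_iff] at h4
      have h5 : ((1 / 2 : ℂ) ^ i) ≠ 0 := pow_ne_zero _ (by norm_num)
      exact (mul_ne_zero h0 h5) h4
  have hf := Nat.find_spec hex
  have hpos : Nat.find hex ≠ 0 := by
    intro h
    rw [h, pow_zero, div_one] at hf
    exact hf hom
  obtain ⟨j, hj⟩ := Nat.exists_eq_succ_of_ne_zero hpos
  refine ⟨j, ?_, ?_⟩
  · have h1 := Nat.find_min hex (m := j) (by omega)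
    exact not_not.1 h1
  · rw [hj, Nat.succ_eq_add_one, pow_succ, ← div_div] at hf
    exact hf

theorem r4a_mul (L : PeriodPair) (om : ℂ) (hom : om ∈ L.lattice) (h2 : om / 2 ∉ L.lattice) (k m : ℕ) (hm : 1 ≤ m)
    (hk : m < 2 ^ k) : (m : ℂ) * (om / 2 ^ k) ∉ L.lattice := by
  intro h
  obtain ⟨j, t, ⟨s, hs⟩, hjt⟩ := Nat.exists_eq_two_pow_mul_odd (show m ≠ 0 by omega)
  have hjk : j < k := by
    by_contra hc
    push Not at hc
    have h1 : 2 ^ k ≤ 2 ^ j := Nat.pow_le_pow_right (by norm_num) hc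
    have h2 : 2 ^ j ≤ m := by
      rw [hjt]
      exact Nat.le_mul_of_pos_right _ (by omega)
    omega
  have h3 : ((2 ^ (k - 1 - j) : ℕ) : ℤ) • ((m : ℂ) * (om / 2 ^ k)) ∈ L.lattice := L.lattice.smul_mem _ h
  have h4 : ((2 ^ (k - 1 - j) : ℕ) : ℤ) • ((m : ℂ) * (om / 2 ^ k)) = (s : ℤ) • om + om / 2 := by
    rw [zsmul_eq_mul, zsmul_eq_mul, hjt, hs]
    have h5 : (2 : ℂ) ^ k = 2 ^ (k - 1 - j) * 2 ^ j * 2 := by
      rw [← pow_add, ← pow_succ]
      congr 1
      omega
    rw [h5]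
    push_cast
    have h6 : (2 : ℂ) ^ (k - 1 - j) ≠ 0 := pow_ne_zero _ (by norm_num)
    have h7 : (2 : ℂ) ^ j ≠ 0 := pow_ne_zero _ (by norm_num)
    field_simp
  rw [h4] at h3
  apply h2
  have h8 := L.lattice.sub_mem h3 (L.lattice.smul_mem (s : ℤ) hom)
  rwa [add_sub_cancel_left] at h8

theorem r4a_pol {σ : Type} (i : σ) (P : Polynomial ℚ) (hP : P ≠ 0) :
    MvPolynomial.map (algebraMap ℚ ℂ) (Polynomial.aeval (MvPolynomial.X i : MvPolynomial σ ℚ) P) ≠ 0 := by
  intro h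
  have h1 : Polynomial.aeval (MvPolynomial.X i : MvPolynomial σ ℚ) P = 0 := by
    apply MvPolynomial.map_injective (algebraMap ℚ ℂ) (algebraMap ℚ ℂ).injective
    rw [h, map_zero]
  apply hP
  have h2 : MvPolynomial.aeval (fun _ : σ => (Polynomial.X : Polynomial ℚ)) (Polynomial.aeval (MvPolynomial.X i : MvPolynomial σ ℚ) P) = P := by
    rw [← Polynomial.aeval_algHom_apply, MvPolynomial.aeval_X, Polynomial.aeval_X_left_apply]
  rw [← h2, h1, map_zero]

/-- No nonzero period is algebraic. -/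
theorem noper (hC : CoreI) (L : PeriodPair) (hL : CM L) (e a c : ℂ) (Nm : Norm L e a c) (ha : IsAlgebraic ℚ a) (hc : IsAlgebraic ℚ c)
    (om : ℂ) (hom : om ∈ L.lattice) (h0 : om ≠ 0) : ¬ IsAlgebraic ℚ om := by
  intro halg
  have hq : ∀ q : ℚ, IsAlgebraic ℚ (q : ℂ) := fun q => isAlgebraic_algebraMap (A := ℂ) q
  obtain ⟨i, h1, h2⟩ := r4a_step L om hom h0
  have hw : IsAlgebraic ℚ (om / 2 ^ i) := by
    rw [div_eq_mul_inv]
    have h3 : ((2 : ℂ) ^ i)⁻¹ = (((2 ^ i)⁻¹ : ℚ) : ℂ) := by push_cast; rfl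
    rw [h3]
    exact halg.mul (hq _)
  have hw0 : om / 2 ^ i ≠ 0 := div_ne_zero h0 (pow_ne_zero _ (by norm_num))
  generalize om / 2 ^ i = w at h1 h2 hw hw0
  obtain ⟨m₀, hm₀⟩ := r3_core hC L hL e a c Nm ha hc 1 {w} (by
    intro x hx
    rw [Finset.mem_singleton] at hx
    rw [hx]
    exact hw)
  -- the point
  obtain ⟨k, hk⟩ : ∃ k : ℕ, 2 * m₀ + 2 < 2 ^ k := ⟨2 * m₀ + 2, Nat.lt_two_pow_self⟩
  have hwF : w ∈ IntermediateField.adjoin ℚ (((({w} : Finset ℂ)) : Set ℂ)) :=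
    IntermediateField.subset_adjoin _ _ (by simp)
  have hpF : w / 2 ^ k ∈ IntermediateField.adjoin ℚ (((({w} : Finset ℂ)) : Set ℂ)) := by
    refine div_mem hwF (pow_mem ?_ _)
    exact ofNat_mem _ 2
  have hp0 : w / 2 ^ k ≠ 0 := div_ne_zero hw0 (pow_ne_zero _ (by norm_num))
  have hpL : w / 2 ^ k ∉ L.lattice := by
    have h3 := r4a_mul L w h1 h2 k 1 le_rfl (by omega)
    rwa [Nat.cast_one, one_mul] at h3
  have hkind : KInd L (fun _ : Fin 1 => w / 2 ^ k) := by
    intro d _ hd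
    rw [Fin.sum_univ_one] at hd
    funext j
    rw [Subsingleton.elim j 0]
    exact (mul_eq_zero.1 hd).resolve_right hp0
  -- algebraicity
  have he : IsAlgebraic ℚ e := by
    have h3 : e = a * ((1 / 3 : ℚ) : ℂ) := by
      rw [Nm.ha]
      push_cast
      ring
    rw [h3]
    exact ha.mul (hq _)
  have hg2 : IsAlgebraic ℚ L.g₂ := by
    have h3 : L.g₂ = ((4 : ℚ) : ℂ) * (((3 : ℚ) : ℂ) * (e * e) - c) := by
      rw [Nm.hc]
      push_cast
      ring
    rw [h3]
    exact (hq _).mul (((hq _).mul (he.mul he)).sub hc)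
  have hg3 : IsAlgebraic ℚ L.g₃ := by
    have h3 : L.g₃ = ((4 : ℚ) : ℂ) * (e * e * e) - L.g₂ * e := by
      have h4 := Nm.root
      push_cast
      linear_combination -h4
    rw [h3]
    exact ((hq _).mul ((he.mul he).mul he)).sub (hg2.mul he)
  have hx : IsAlgebraic ℚ (xf L e (w / 2 ^ k)) := by
    unfold xf
    refine (tors_alg L hg2 hg3 k (w / 2 ^ k) hpL ?_).sub he
    rw [mul_div_cancel₀ _ (pow_ne_zero _ (by norm_num))]
    exact h1
  -- the polynomial
  have hP0 : minpoly ℚ (xf L e (w / 2 ^ k)) ≠ 0 := minpoly.ne_zero hx.isIntegral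
  refine hm₀ (fun _ => w / 2 ^ k) (fun _ => hpF) hkind ?_
    (MvPolynomial.map (algebraMap ℚ ℂ) (Polynomial.aeval (MvPolynomial.X ((0 : Fin 1), (0 : Fin 2)) : MvPolynomial (Fin 1 × Fin 2) ℚ)
      (minpoly ℚ (xf L e (w / 2 ^ k))))) ?_ (r4a_pol _ _ hP0) ?_
  · intro _ m hm1 hm2
    have h3 := r4a_mul L w h1 h2 k (2 * m) (by omega) (by omega)
    rw [Nat.cast_mul, Nat.cast_ofNat] at h3
    exact h3
  · intro m
    rw [MvPolynomial.coeff_map]
    exact IntermediateField.algebraMap_mem _ _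
  · rw [MvPolynomial.eval_map, ← MvPolynomial.aeval_def, ← Polynomial.aeval_algHom_apply, MvPolynomial.aeval_X]
    exact minpoly.aeval ℚ _

/-- The core statement from the integral core statement. -/
theorem core_of (hC : CoreI) : Core := by
  classical
  intro L hL e a c Nm ha hc n p hp hK Q hQ
  obtain ⟨Q', hQ'⟩ : ∃ Q' : MvPolynomial (Fin n × Fin 2) ℂ, Q' = MvPolynomial.map (algebraMap (algebraicClosure ℚ ℂ) ℂ) Q := ⟨_, rfl⟩
  have hinj : Function.Injective (algebraMap (algebraicClosure ℚ ℂ) ℂ) := (algebraMap (algebraicClosure ℚ ℂ) ℂ).injective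
  have hQ0 : Q' ≠ 0 := by
    intro h
    apply hQ
    apply MvPolynomial.map_injective _ hinj
    rw [← hQ', h, map_zero]
  have halg : ∀ x : algebraicClosure ℚ ℂ, IsAlgebraic ℚ (x : ℂ) := fun x => mem_algebraicClosure_iff.1 x.2
  obtain ⟨F, hF⟩ : ∃ F : Finset ℂ, F = Finset.univ.image p ∪ Q'.support.image (fun m => Q'.coeff m) := ⟨_, rfl⟩
  have hFalg : ∀ x ∈ F, IsAlgebraic ℚ x := by
    intro x hx
    rw [hF, Finset.mem_union, Finset.mem_image, Finset.mem_image] at hx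
    rcases hx with ⟨j, -, rfl⟩ | ⟨m, -, rfl⟩
    · exact hp j
    · rw [hQ', MvPolynomial.coeff_map]
      exact halg _
  obtain ⟨m₀, hm₀⟩ := r3_core hC L hL e a c Nm ha hc n F hFalg
  have hp0 : ∀ j, p j ≠ 0 := by
    intro j hj
    have h1 : (Pi.single j (1 : ℂ) : Fin n → ℂ) = 0 := by
      refine hK _ (fun i l hl => ⟨1, one_ne_zero, ?_⟩) ?_
      · by_cases hij : i = j
        · subst hij
          simpa using hl
        · rw [Pi.single_eq_of_ne hij]
          simp
      · rw [Finset.sum_eq_single j]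
        · rw [hj, mul_zero]
        · intro b _ hb
          rw [Pi.single_eq_of_ne hb, zero_mul]
        · intro h
          exact absurd (Finset.mem_univ j) h
    have h2 := congrFun h1 j
    rw [Pi.single_eq_same] at h2
    exact one_ne_zero h2
  have hmain := hm₀ p (fun j => IntermediateField.subset_adjoin ℚ _ (by
      rw [hF]
      simp)) hK (fun j m hm1 _ hmem => by
        refine noper hC L hL e a c Nm ha hc _ hmem ?_ ?_
        · have hm' : (m : ℂ) ≠ 0 := by
            have : m ≠ 0 := by omega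
            exact_mod_cast this
          exact mul_ne_zero (mul_ne_zero two_ne_zero hm') (hp0 j)
        · have h2 : IsAlgebraic ℚ ((2 * m : ℚ) : ℂ) := isAlgebraic_algebraMap (2 * m : ℚ)
          have h3 := h2.mul (hp j)
          have h4 : (((2 * m : ℚ) : ℂ)) = 2 * (m : ℂ) := by push_cast; ring
          rw [h4] at h3
          exact h3) Q' (fun m => by
            by_cases hm : m ∈ Q'.support
            · refine IntermediateField.subset_adjoin ℚ _ ?_
              rw [hF]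
              simp only [Finset.coe_union, Set.mem_union, Finset.coe_image, Set.mem_image]
              exact Or.inr ⟨m, hm, rfl⟩
            · rw [MvPolynomial.notMem_support_iff.1 hm]
              exact zero_mem _) hQ0
  intro h
  apply hmain
  rw [hQ', MvPolynomial.eval_map, ← MvPolynomial.aeval_def]
  exact h

end H16LW
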