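import Pool.Agent.Lib.H35P.A8
import Pool.Agent.Lib.H35P.A9

/-!
# H16LW, T1: the zeta function: oddness, addition, doubling

Chunk T1 (S/M). PROOF. `z_neg`: reindex `l → -l` in the definition of `H35P.A5_z`, `A5_t (-l) (-z) = - A5_t l z`. `z_add`: `H35P.A5_sum`: `T2 L a w = ζ (a + w) + ζ (a - w) - 2 ζ a` (HasSum.tsum_eq), and
`H35P.T_formula`: `T2 L a w = wp' a / (wp a - wp w)` (see the use in H35P/A7.lean: `wpd_ne`, `wp_ne`, and H35P.wp_ne for `wp a ≠ wp w`). Same with `a, w` exchanged, `ζ (w - a) = - ζ (a - w)`; add: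
`2 ζ (a + w) - 2 ζ a - 2 ζ w = (wp' a - wp' w) / (wp a - wp w) = mc L a w`. `z_dbl`: let `w → a`, `w ≠ a` in `z_add` (H35P.a8_ev, H35P.a8_cont, H35P.mc_tendsto; `ζ` is continuous off the lattice by H35P.A5_hasDeriv).
`w_add`, `w_dbl` are immediate.
-/

set_option autoImplicit false

namespace H16LW

theorem z_neg (L : PeriodPair) (z : ℂ) : H35P.A5_z L (-z) = -H35P.A5_z L z := by
  have h : ∀ z : ℂ, HasSum (fun l : L.lattice => H35P.A5_t l.1 z) (H35P.A5_z L z) :=
    fun z => (H35P.A5_unif L).hasSum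
  have h1 : HasSum (fun l : L.lattice => H35P.A5_t l.1 (-z)) (-H35P.A5_z L z) := by
    rw [← (Equiv.neg L.lattice).hasSum_iff]
    refine (h z).neg.congr_fun ?_
    intro l
    show H35P.A5_t (-l : L.lattice).1 (-z) = _
    unfold H35P.A5_t
    rw [NegMemClass.coe_neg]
    have e1 : (-z - -(l : ℂ)) = -(z - l) := by ring
    rw [e1, inv_neg, inv_neg]
    ring
  exact (h (-z)).unique h1

theorem z_add (L : PeriodPair) (a w : ℂ) (ha : a ∉ L.lattice) (hw : w ∉ L.lattice) (h1 : a + w ∉ L.lattice)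
    (h2 : a - w ∉ L.lattice) : H35P.A5_z L (a + w) = H35P.A5_z L a + H35P.A5_z L w + H35P.mc L a w / 2 := by
  have h1' : w + a ∉ L.lattice := by rwa [add_comm]
  have h2' : w - a ∉ L.lattice := fun h => h2 (by simpa using L.lattice.neg_mem h)
  have hne : L.weierstrassP a - L.weierstrassP w ≠ 0 := sub_ne_zero.2 (H35P.wp_ne L a w ha hw h1 h2)
  have f1 := H35P.T_formula L a w ha hw h1 h2
  have f2 := H35P.T_formula L w a hw ha h1' h2'
  have g1 : H35P.T2 L a w = H35P.A5_z L (a + w) + H35P.A5_z L (a - w) - 2 * H35P.A5_z L a :=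
    (H35P.A5_sum L a w).tsum_eq
  have g2 : H35P.T2 L w a = H35P.A5_z L (w + a) + H35P.A5_z L (w - a) - 2 * H35P.A5_z L w :=
    (H35P.A5_sum L w a).tsum_eq
  have g3 : H35P.A5_z L (w - a) = -H35P.A5_z L (a - w) := by
    rw [← z_neg, neg_sub]
  have g4 : H35P.A5_z L (w + a) = H35P.A5_z L (a + w) := by rw [add_comm]
  have g5 : H35P.mc L a w = H35P.T2 L a w + H35P.T2 L w a := by
    unfold H35P.mc
    rw [div_eq_iff hne]
    linear_combination f2 - f1
  rw [g5, g1, g2, g3, g4]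
  ring

theorem z_dbl (L : PeriodPair) (a : ℂ) (ha : a ∉ L.lattice) (h2 : 2 * a ∉ L.lattice) :
    H35P.A5_z L (2 * a) = 2 * H35P.A5_z L a + H35P.md L a / 2 := by
  have t1 := H35P.a8_cont (H35P.A5_z L) a (H35P.A5_hasDeriv L _ h2).continuousAt
  have t2 : Filter.Tendsto (H35P.A5_z L) (nhdsWithin a {a}ᶜ) (nhds (H35P.A5_z L a)) :=
    (H35P.A5_hasDeriv L _ ha).continuousAt.tendsto.mono_left nhdsWithin_le_nhds
  have t3 := (t2.const_add (H35P.A5_z L a)).add ((H35P.mc_tendsto L a ha h2).div_const 2)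
  have t4 := tendsto_nhds_unique_of_eventuallyEq t1 t3 (by
    filter_upwards [H35P.a8_ev L a ha h2] with w hw
    exact z_add L a w ha hw.1 hw.2.1 hw.2.2)
  rw [t4]
  ring

end H16LW
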