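import Pool.Agent.Lib.H16LW.T1
import Pool.Agent.Lib.H47E.C
import Pool.Agent.Lib.H35P.A8

/-!
# H16LW, T2: multiples in a field

Chunk T2 (S). PROOF. Induction on `m ≥ 1`; `m p` is not in the lattice for `m ≤ m₀` (`2 m p ∉ L.lattice`). `m = 1`. `m = 2`: `H35P.dbl_x`, `dbl_y` and `z_dbl` with `md L p = (3 x ^ 2 + 2 a x + c) / y` where `x = xf L e p`, `y = yf L p`
(`6 wp ^ 2 - g₂ / 2 = 2 (3 x ^ 2 + 2 a x + c)`, `wp' = 2 y`; `Norm`). `m → m + 1`, `m ≥ 2`: `H35P.add_x`, `add_y` (`H35P.wp_ne`), `z_add` for `m p` and `p`: `m p - p = (m - 1) p ∉ L.lattice`; `mc L (m p) p = 2 (y_m - y) / (x_m - x)`,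
`x_(m+1) = mc ^ 2 / 4 - x_m - x - a` (`3 e = a`), `w_(m+1) = w_m + w + mc / 2`.
-/

set_option autoImplicit false

namespace H16LW

open H47E

/-- Multiples in a field. -/
theorem mult_mem {L : PeriodPair} {e a c : ℂ} (N : Norm L e a c) (A : Subfield ℂ) (ha : a ∈ A) (hc : c ∈ A) (p : ℂ)
    (hx : xf L e p ∈ A) (hy : yf L p ∈ A) (hw : wf L e p ∈ A) (m₀ : ℕ)
    (hp : ∀ m : ℕ, 1 ≤ m → m ≤ m₀ → 2 * (m : ℂ) * p ∉ L.lattice) (m : ℕ) (hm : 1 ≤ m) (hm' : m ≤ m₀) :
    xf L e (m * p) ∈ A ∧ yf L (m * p) ∈ A ∧ wf L e (m * p) ∈ A := by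
  have two : (2 : ℂ) ∈ A := ofNat_mem A 2
  have three : (3 : ℂ) ∈ A := ofNat_mem A 3
  have four : (4 : ℂ) ∈ A := ofNat_mem A 4
  have hmp : ∀ m : ℕ, 1 ≤ m → m ≤ m₀ → (m : ℂ) * p ∉ L.lattice := by
    intro k h1 h2 h
    refine hp k h1 h2 ?_
    have := add_mem h h
    rwa [show (k : ℂ) * p + k * p = 2 * (k : ℂ) * p by ring] at this
  induction m, hm using Nat.le_induction with
  | base => simpa using ⟨hx, hy, hw⟩
  | succ k hk ih =>
    obtain ⟨ix, iy, iw⟩ := ih (by omega)
    have hp1 : p ∉ L.lattice := by simpa using hmp 1 le_rfl (by omega)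
    have e3 := N.ha
    have e4 := N.hc
    rcases Nat.lt_or_ge k 2 with h2 | h2
    · have hk1 : k = 1 := by omega
      subst hk1
      have h2p : 2 * p ∉ L.lattice := by simpa using hmp 2 (by omega) (by omega)
      have hcast : (((1 + 1 : ℕ) : ℕ) : ℂ) * p = 2 * p := by norm_num
      rw [hcast]
      have hmd : H35P.md L p = (3 * xf L e p ^ 2 + 2 * a * xf L e p + c) / yf L p := by
        unfold H35P.md xf yf
        rw [div_div_eq_mul_div, e3, e4]
        congr 1
        ring
      have mdm : H35P.md L p ∈ A := by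
        rw [hmd]
        exact div_mem (add_mem (add_mem (mul_mem three (pow_mem hx 2)) (mul_mem (mul_mem two ha) hx)) hc) hy
      have r1 := H35P.dbl_x L p hp1 h2p
      have r2 := H35P.dbl_y L p hp1 h2p
      have r3 := z_dbl L p hp1 h2p
      have x1 : xf L e (2 * p) = H35P.md L p ^ 2 / 4 - xf L e p - xf L e p - a := by
        unfold xf
        rw [r1, e3]
        ring
      have hx2 : xf L e (2 * p) ∈ A := by
        rw [x1]
        exact sub_mem (sub_mem (sub_mem (div_mem (pow_mem mdm 2) four) hx) hx) ha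
      refine ⟨hx2, ?_, ?_⟩
      · have y1 : yf L (2 * p) = -(yf L p + H35P.md L p * (xf L e (2 * p) - xf L e p) / 2) := by
          unfold xf yf
          rw [r2]
          ring
        rw [y1]
        exact neg_mem (add_mem hy (div_mem (mul_mem mdm (sub_mem hx2 hx)) two))
      · have w1 : wf L e (2 * p) = 2 * wf L e p + H35P.md L p / 2 := by
          unfold wf
          rw [r3]
          ring
        rw [w1]
        exact add_mem (mul_mem two hw) (div_mem mdm two)
    · have hkp : (k : ℂ) * p ∉ L.lattice := hmp k (by omega) (by omega)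
      have h1 : (k : ℂ) * p + p ∉ L.lattice := by
        have := hmp (k + 1) (by omega) hm'
        rwa [Nat.cast_add, Nat.cast_one, add_mul, one_mul] at this
      have h3 : (k : ℂ) * p - p ∉ L.lattice := by
        have := hmp (k - 1) (by omega) (by omega)
        rwa [Nat.cast_sub (by omega), Nat.cast_one, sub_mul, one_mul] at this
      have hcast : ((k + 1 : ℕ) : ℂ) * p = k * p + p := by
        rw [Nat.cast_add, Nat.cast_one, add_mul, one_mul]
      rw [hcast]
      have hne := H35P.wp_ne L _ _ hkp hp1 h1 h3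
      have hmc : H35P.mc L (k * p) p = 2 * (yf L (k * p) - yf L p) / (xf L e (k * p) - xf L e p) := by
        unfold H35P.mc xf yf
        congr 1 <;> ring
      have mcm : H35P.mc L (k * p) p ∈ A := by
        rw [hmc]
        exact div_mem (mul_mem two (sub_mem iy hy)) (sub_mem ix hx)
      have r1 := H35P.add_x L _ _ hkp hp1 h1 h3 hne
      have r2 := H35P.add_y L _ _ hkp hp1 h1 h3 hne
      have r3 := z_add L _ _ hkp hp1 h1 h3
      have x1 : xf L e (k * p + p) = H35P.mc L (k * p) p ^ 2 / 4 - xf L e (k * p) - xf L e p - a := by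
        unfold xf
        rw [r1, e3]
        ring
      have hx2 : xf L e (k * p + p) ∈ A := by
        rw [x1]
        exact sub_mem (sub_mem (sub_mem (div_mem (pow_mem mcm 2) four) ix) hx) ha
      refine ⟨hx2, ?_, ?_⟩
      · have y1 : yf L (k * p + p) = -(yf L p + H35P.mc L (k * p) p * (xf L e (k * p + p) - xf L e p) / 2) := by
          unfold xf yf
          rw [r2]
          ring
        rw [y1]
        exact neg_mem (add_mem hy (div_mem (mul_mem mcm (sub_mem hx2 hx)) two))
      · have w1 : wf L e (k * p + p) = wf L e (k * p) + wf L e p + H35P.mc L (k * p) p / 2 := by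
          unfold wf
          rw [r3]
          ring
        rw [w1]
        exact add_mem (add_mem iw hw) (div_mem mcm two)

end H16LW
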