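import Mathlib

/-!
# H16LW, T3: transfer of algebraic dependence

Chunk T3 (M). PROOF. Let `A = algebraicClosure (IntermediateField.adjoin K (range s)) E` (or the set of elements of `E` which are algebraic over `K(s)`). If the family `t` were algebraically independent
over `K`: `t` is contained in `A`; the transcendence degree of `A` over `K` is that of `K(s)`, which is `< card σ` because `s` is algebraically dependent (a transcendence basis inside `range s` has at most `card σ - 1` elements:
`exists_isTranscendenceBasis_subset`/`exists_isTranscendenceBasis'`, `AlgebraicIndependent` of the whole family would follow if the basis is everything and `s` injective; if `s` is not injective then `range s` has fewer elements).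
Use `Algebra.trdeg`, `AlgebraicIndependent.cardinalMk_le_trdeg`, `IsTranscendenceBasis.cardinalMk_eq_trdeg`, or the matroid `AlgebraicIndependent.matroid`. Contradiction: `card σ ≤ trdeg A < card σ`.
-/

set_option autoImplicit false

namespace H16LW

/-- Transfer of algebraic dependence. -/
theorem dep_transfer {K E : Type} [Field K] [Field E] [Algebra K E] {σ : Type} [Finite σ] (s t : σ → E)
    (hs : ¬ AlgebraicIndependent K s) (ht : ∀ i, IsAlgebraic (IntermediateField.adjoin K (Set.range s)) (t i)) :
    ¬ AlgebraicIndependent K t := by
  intro hti
  apply hs
  let M : Matroid E := AlgebraicIndependent.matroid K E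
  have hsub : Set.range t ⊆ M.closure (Set.range s) := by
    rintro _ ⟨i, rfl⟩
    show t i ∈ (AlgebraicIndependent.matroid K E).closure (Set.range s)
    rw [AlgebraicIndependent.matroid_closure_eq, SetLike.mem_coe, Subalgebra.mem_algebraicClosure]
    exact IntermediateField.isAlgebraic_adjoin_iff.1 (ht i)
  have hind : M.Indep (Set.range t) := AlgebraicIndependent.matroid_indep_iff.2 hti.to_subtype_range
  have h1 : (Set.range t).encard ≤ M.eRk (Set.range s) := by
    rw [← hind.eRk_eq_encard, ← M.eRk_closure_eq (Set.range s)]
    exact M.eRk_mono hsub
  have h2 : M.eRk (Set.range s) ≤ (Set.range s).encard := M.eRk_le_encard _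
  have h3 : ENat.card σ ≤ (Set.range t).encard := hti.injective.encard_range
  have h4 : (s '' Set.univ).encard ≤ (Set.univ : Set σ).encard := Set.encard_image_le s _
  have h5 : (s '' Set.univ).encard = (Set.univ : Set σ).encard := by
    refine le_antisymm h4 ?_
    rw [Set.encard_univ, Set.image_univ]
    exact h3.trans (h1.trans h2)
  have hinj : Function.Injective s :=
    Set.injOn_univ.1 (Set.finite_univ.injOn_of_encard_image_eq h5)
  rw [Set.image_univ, Set.encard_univ] at h5
  have hsi : M.Indep (Set.range s) := by
    rw [Matroid.indep_iff_eRk_eq_encard_of_finite (Set.finite_range s)]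
    refine le_antisymm h2 ?_
    rw [h5]
    exact h3.trans h1
  exact AlgebraicIndependent.of_subtype_range hinj (AlgebraicIndependent.matroid_indep_iff.1 hsi)

end H16LW
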