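import Pool.Agent.Lib.H16LW.T2
import Pool.Agent.Lib.H16LW.T3
import Pool.Agent.Lib.H16LW.D0

/-!
# H16LW, T4: transfer of an algebraic relation from `p` to `m p` (interface theorem `transfer` of Lib/H47E/D.lean)

Chunk T4 (S). PROOF. `ι.toAlgebra`. `dep_transfer` with `σ = Fin n × Fin 2`, `s` the values at `p_j`, `t` the values at `m p_j`. `t i` is in the field `A` of the elements of `ℂ` which are algebraic over `K(s)`
(`algebraicClosure`), which contains `ι a, ι c`, `x(p_j)`, `w(p_j)`, and `y(p_j)` (its square is in `A`: H47E.curve); `mult_mem`. `p_j ∉ L.lattice` follows from `hp` for `m = 1` if `m₀ ≥ 1`.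
`¬ AlgebraicIndependent` gives `Q'`.
-/

set_option autoImplicit false

namespace H16LW

open H47E

/-- D4: transfer of an algebraic relation from `p` to `m p`. -/
theorem transfer' {K : Type} [Field K] (ι : K →+* ℂ) {L : PeriodPair} {e : ℂ} {a c : K} (N : Norm L e (ι a) (ι c)) {n : ℕ} (p : Fin n → ℂ) (m₀ : ℕ)
    (hp : ∀ j, ∀ m : ℕ, 1 ≤ m → m ≤ m₀ → 2 * (m : ℂ) * p j ∉ L.lattice)
    (Q : MvPolynomial (Fin n × Fin 2) K) (hQ : Q ≠ 0)
    (h : MvPolynomial.eval₂ ι (fun i : Fin n × Fin 2 => if i.2 = 0 then xf L e (p i.1) else wf L e (p i.1)) Q = 0)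
    (m : ℕ) (hm : 1 ≤ m) (hm' : m ≤ m₀) :
    ∃ Q' : MvPolynomial (Fin n × Fin 2) K, Q' ≠ 0 ∧
      MvPolynomial.eval₂ ι (fun i : Fin n × Fin 2 => if i.2 = 0 then xf L e (m * p i.1) else wf L e (m * p i.1)) Q' = 0 := by
  let _ : Algebra K ℂ := ι.toAlgebra
  set s : Fin n × Fin 2 → ℂ := fun i => if i.2 = 0 then xf L e (p i.1) else wf L e (p i.1) with hs
  set t : Fin n × Fin 2 → ℂ := fun i => if i.2 = 0 then xf L e (m * p i.1) else wf L e (m * p i.1) with ht
  have hsd : ¬ AlgebraicIndependent K s := by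
    intro hi
    refine hQ ?_
    rw [algebraicIndependent_iff] at hi
    exact hi Q h
  let F := IntermediateField.adjoin K (Set.range s)
  let A := (algebraicClosure F ℂ).toSubfield
  have memA : ∀ x : ℂ, x ∈ A ↔ IsAlgebraic F x := fun x => mem_algebraicClosure_iff
  have memF : ∀ x : ℂ, x ∈ F → x ∈ A := fun x hx => (memA x).2 (isAlgebraic_algebraMap (⟨x, hx⟩ : F))
  have hK : ∀ k : K, ι k ∈ A := fun k => memF _ (F.algebraMap_mem k)
  have hx : ∀ j, xf L e (p j) ∈ A := fun j => memF _ (IntermediateField.subset_adjoin K _ ⟨(j, 0), by simp [hs]⟩)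
  have hw : ∀ j, wf L e (p j) ∈ A := fun j => memF _ (IntermediateField.subset_adjoin K _ ⟨(j, 1), by simp [hs]⟩)
  have hpj : ∀ j, p j ∉ L.lattice := by
    intro j hj
    refine hp j 1 le_rfl (hm.trans hm') ?_
    have := add_mem hj hj
    rwa [show p j + p j = 2 * ((1 : ℕ) : ℂ) * p j by push_cast; ring] at this
  have hy : ∀ j, yf L (p j) ∈ A := by
    intro j
    rw [memA]
    refine IsAlgebraic.of_pow (n := 2) (by norm_num) ?_
    rw [← memA, curve N (hpj j)]
    exact add_mem (add_mem (pow_mem (hx j) 3) (mul_mem (hK a) (pow_mem (hx j) 2))) (mul_mem (hK c) (hx j))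
  have key := dep_transfer (K := K) s t hsd fun i => by
    have h3 := mult_mem N A (hK a) (hK c) (p i.1) (hx _) (hy _) (hw _) m₀ (hp i.1) m hm hm'
    rw [ht]
    show IsAlgebraic F (if i.2 = 0 then xf L e (m * p i.1) else wf L e (m * p i.1))
    split_ifs
    · exact (memA _).1 h3.1
    · exact (memA _).1 h3.2.2
  rw [algebraicIndependent_iff] at key
  push Not at key
  obtain ⟨Q', h1, h2⟩ := key
  exact ⟨Q', h2, h1⟩

end H16LW
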