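import Pool.Agent.Lib.H47E.C
import Pool.Agent.Lib.H55K.C1

/-!
# H16LW, U1: uniformisation of the curve (interface theorem `unif` of Lib/H47E/D.lean), periodicity of x, y

Chunk U1 (S). PROOF. `H55K.CC.wp_surj`: `wp z = x₀ + e` for some `z` not in the lattice. `y (z) ^ 2 = y₀ ^ 2` (H47E.curve), so `y z = ± y₀`; take `v = z` or `v = - z`
(`weierstrassP_neg`, `derivWeierstrassP_neg`). `xf_per`, `yf_per`: `weierstrassP_add_coe`, `derivWeierstrassP_add_coe`.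
-/

set_option autoImplicit false

namespace H16LW

open H47E

theorem xf_per (L : PeriodPair) (e z : ℂ) {l : ℂ} (hl : l ∈ L.lattice) : xf L e (z + l) = xf L e z := by
  unfold xf
  rw [L.weierstrassP_add_coe z ⟨l, hl⟩]

theorem yf_per (L : PeriodPair) (z : ℂ) {l : ℂ} (hl : l ∈ L.lattice) : yf L (z + l) = yf L z := by
  unfold yf
  rw [L.derivWeierstrassP_add_coe z ⟨l, hl⟩]

/-- Uniformisation. -/
theorem unif' {L : PeriodPair} {e a c : ℂ} (N : Norm L e a c) (x₀ y₀ : ℂ) (h : y₀ ^ 2 = x₀ ^ 3 + a * x₀ ^ 2 + c * x₀) :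
    ∃ v : ℂ, v ∉ L.lattice ∧ xf L e v = x₀ ∧ yf L v = y₀ := by
  obtain ⟨z, hz, hx⟩ := H55K.CC.wp_surj L (x₀ + e)
  have hx' : xf L e z = x₀ := by
    unfold xf
    rw [hx]
    ring
  have hy : yf L z ^ 2 = y₀ ^ 2 := by rw [curve N hz, hx', h]
  rcases sq_eq_sq_iff_eq_or_eq_neg.1 hy with h1 | h1
  · exact ⟨z, hz, hx', h1⟩
  · refine ⟨-z, fun hn => hz (by simpa using neg_mem hn), ?_, ?_⟩
    · unfold xf at hx' ⊢
      rw [L.weierstrassP_neg, hx']
    · unfold yf at h1 ⊢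
      rw [L.derivWeierstrassP_neg, neg_div, h1, neg_neg]

end H16LW
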