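import Pool.Agent.Lib.H16LW.D0

/-!
# H16LW, V1: the identity theorem along the one-parameter group

Chunk V1 (M). PROOF. `Phi P u = evS ι L e (z₀ + u) (fun j => v j + ι (p j) * u) P`. `U = {u | ∀ j, v j + ι (p j) * u ∉ L.lattice}`; `0 ∈ U`; the complement of `U` is countable
(if `p j = 0` the condition holds for all `u`; otherwise `u` is determined by the lattice point; the lattice is countable) so `U` is preconnected
(`Set.Countable.isConnected_compl_of_one_lt_rank`, as in H35P/A2.lean), and `U` is open (the lattice is closed: `L.isClosed_lattice`). For `u ∈ U`: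
`HasDerivAt (Phi P) (Phi (dS a c p P) u) u` (MvPolynomial.induction_on; H47E.x_deriv, H47E.y_deriv and the chain rule). So `Phi Q` is differentiable on `U`, analytic on `U`,
`iteratedDeriv i (Phi Q) 0 = Phi (dS^i Q) 0 = 0` (near 0), so `Phi Q = 0` near `0` (AnalyticAt: e.g. analyticOrderAt, or `HasFPowerSeriesAt` with zero coefficients, or
`Complex.taylorSeries_eq_on_ball`) and so on `U` (`AnalyticOnNhd.eqOn_zero_of_preconnected_of_eventuallyEq_zero`).
-/

set_option autoImplicit false

namespace H16LW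

open H47E

/-- The value along the one-parameter group. -/
noncomputable def v1_phi {K : Type} [Field K] (ι : K →+* ℂ) (L : PeriodPair) (e : ℂ)
    {n : ℕ} (p : Fin n → K) (z₀ : ℂ) (v : Fin n → ℂ) (P : MvPolynomial (Option (Fin n × Fin 2)) K) (u : ℂ) : ℂ :=
  evS ι L e (z₀ + u) (fun j => v j + ι (p j) * u) P

theorem v1_X {K : Type} [Field K] (ι : K →+* ℂ) {L : PeriodPair} {e : ℂ} {a c : K} (N : Norm L e (ι a) (ι c))
    {n : ℕ} (p : Fin n → K) (z₀ : ℂ) (v : Fin n → ℂ) (u : ℂ) (hu : ∀ j, v j + ι (p j) * u ∉ L.lattice)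
    (i : Option (Fin n × Fin 2)) : HasDerivAt (v1_phi ι L e p z₀ v (MvPolynomial.X i))
      (v1_phi ι L e p z₀ v (dS a c p (MvPolynomial.X i)) u) u := by
  have hlin : ∀ j, HasDerivAt (fun u : ℂ => v j + ι (p j) * u) (ι (p j)) u := fun j => by
    simpa using ((hasDerivAt_id u).const_mul (ι (p j))).const_add (v j)
  match i with
  | none =>
    have h1 : v1_phi ι L e p z₀ v (MvPolynomial.X none) = fun u => z₀ + u := by
      funext u
      simp [v1_phi, evS]
    have h2 : v1_phi ι L e p z₀ v (dS a c p (MvPolynomial.X none)) u = 1 := by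
      simp [v1_phi, evS, dS, MvPolynomial.mkDerivation_X]
    rw [h1, h2]
    simpa using (hasDerivAt_id u).const_add z₀
  | some (j, 0) =>
    have h1 : v1_phi ι L e p z₀ v (MvPolynomial.X (some (j, 0))) = fun u => xf L e (v j + ι (p j) * u) := by
      funext u
      simp [v1_phi, evS]
    have h2 : v1_phi ι L e p z₀ v (dS a c p (MvPolynomial.X (some (j, 0)))) u =
        2 * yf L (v j + ι (p j) * u) * ι (p j) := by
      have h3 : ι (2 : K) = 2 := map_ofNat ι 2
      simp [v1_phi, evS, dS, MvPolynomial.mkDerivation_X]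
      rw [h3]
      ring
    rw [h1, h2]
    exact (x_deriv e (hu j)).comp u (hlin j)
  | some (j, 1) =>
    have h1 : v1_phi ι L e p z₀ v (MvPolynomial.X (some (j, 1))) = fun u => yf L (v j + ι (p j) * u) := by
      funext u
      simp [v1_phi, evS]
    have h2 : v1_phi ι L e p z₀ v (dS a c p (MvPolynomial.X (some (j, 1)))) u =
        (3 * xf L e (v j + ι (p j) * u) ^ 2 + 2 * ι a * xf L e (v j + ι (p j) * u) + ι c) * ι (p j) := by
      simp [v1_phi, evS, dS, MvPolynomial.mkDerivation_X]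
      ring
    rw [h1, h2]
    exact (y_deriv N (hu j)).comp u (hlin j)

theorem v1_deriv {K : Type} [Field K] (ι : K →+* ℂ) {L : PeriodPair} {e : ℂ} {a c : K} (N : Norm L e (ι a) (ι c))
    {n : ℕ} (p : Fin n → K) (z₀ : ℂ) (v : Fin n → ℂ) (u : ℂ) (hu : ∀ j, v j + ι (p j) * u ∉ L.lattice)
    (P : MvPolynomial (Option (Fin n × Fin 2)) K) : HasDerivAt (v1_phi ι L e p z₀ v P)
      (v1_phi ι L e p z₀ v (dS a c p P) u) u := by
  induction P using MvPolynomial.induction_on with
  | C r =>
    have h1 : v1_phi ι L e p z₀ v (MvPolynomial.C r) = fun _ => ι r := by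
      funext u
      simp [v1_phi, evS]
    have h2 : v1_phi ι L e p z₀ v (dS a c p (MvPolynomial.C r)) u = 0 := by
      simp [v1_phi]
    rw [h1, h2]
    exact hasDerivAt_const _ _
  | add P Q hP hQ =>
    have h1 : v1_phi ι L e p z₀ v (P + Q) = fun u => v1_phi ι L e p z₀ v P u + v1_phi ι L e p z₀ v Q u := by
      funext u
      simp [v1_phi]
    have h2 : v1_phi ι L e p z₀ v (dS a c p (P + Q)) u =
        v1_phi ι L e p z₀ v (dS a c p P) u + v1_phi ι L e p z₀ v (dS a c p Q) u := by
      simp [v1_phi]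
    rw [h1, h2]
    exact hP.add hQ
  | mul_X P i hP =>
    have h1 : v1_phi ι L e p z₀ v (P * MvPolynomial.X i) =
        fun u => v1_phi ι L e p z₀ v P u * v1_phi ι L e p z₀ v (MvPolynomial.X i) u := by
      funext u
      simp only [v1_phi, map_mul]
    have h2 : v1_phi ι L e p z₀ v (dS a c p (P * MvPolynomial.X i)) u =
        v1_phi ι L e p z₀ v (dS a c p P) u * v1_phi ι L e p z₀ v (MvPolynomial.X i) u
          + v1_phi ι L e p z₀ v P u * v1_phi ι L e p z₀ v (dS a c p (MvPolynomial.X i)) u := by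
      simp only [v1_phi, Derivation.leibniz, map_add, map_mul, smul_eq_mul]
      ring
    rw [h1, h2]
    exact hP.mul (v1_X ι N p z₀ v u hu i)

/-- The domain. -/
def v1_U {K : Type} [Field K] (ι : K →+* ℂ) (L : PeriodPair) {n : ℕ} (p : Fin n → K) (v : Fin n → ℂ) : Set ℂ :=
  {u | ∀ j, v j + ι (p j) * u ∉ L.lattice}

theorem v1_open {K : Type} [Field K] (ι : K →+* ℂ) (L : PeriodPair) {n : ℕ} (p : Fin n → K) (v : Fin n → ℂ) :
    IsOpen (v1_U ι L p v) := by
  have h : v1_U ι L p v = ⋂ j, (fun u : ℂ => v j + ι (p j) * u) ⁻¹' ((L.lattice : Set ℂ)ᶜ) := by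
    ext u
    simp [v1_U]
  rw [h]
  refine isOpen_iInter_of_finite fun j => ?_
  exact L.isClosed_lattice.isOpen_compl.preimage (by fun_prop)

theorem v1_count {K : Type} [Field K] (ι : K →+* ℂ) (L : PeriodPair) {n : ℕ} (p : Fin n → K) (v : Fin n → ℂ)
    (hv : ∀ j, v j ∉ L.lattice) : (v1_U ι L p v)ᶜ.Countable := by
  have h : (v1_U ι L p v)ᶜ = ⋃ j, {u : ℂ | v j + ι (p j) * u ∈ L.lattice} := by
    ext u
    simp [v1_U]
  rw [h]
  refine Set.countable_iUnion fun j => ?_
  have hcount : (L.lattice : Set ℂ).Countable := countable_of_Lindelof_of_discrete (X := L.lattice)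
  by_cases hp : ι (p j) = 0
  · have h2 : {u : ℂ | v j + ι (p j) * u ∈ L.lattice} = ∅ := by
      ext u
      simp [hp, hv j]
    rw [h2]
    exact Set.countable_empty
  · refine (hcount.image fun l => (l - v j) / ι (p j)).mono ?_
    intro u hu
    refine ⟨v j + ι (p j) * u, hu, ?_⟩
    simp only [add_sub_cancel_left]
    exact mul_div_cancel_left₀ u hp

/-- The identity theorem along the one-parameter group. -/
theorem ident {K : Type} [Field K] (ι : K →+* ℂ) {L : PeriodPair} {e : ℂ} {a c : K} (N : Norm L e (ι a) (ι c))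
    {n : ℕ} (p : Fin n → K) (z₀ : ℂ) (v : Fin n → ℂ) (hv : ∀ j, v j ∉ L.lattice)
    (Q : MvPolynomial (Option (Fin n × Fin 2)) K) (hQ : ∀ i : ℕ, evS ι L e z₀ v ((dS a c p)^[i] Q) = 0)
    (u : ℂ) (hu : ∀ j, v j + ι (p j) * u ∉ L.lattice) : evS ι L e (z₀ + u) (fun j => v j + ι (p j) * u) Q = 0 := by
  have hopen := v1_open ι L p v
  have hpre : IsPreconnected (v1_U ι L p v) := by
    have h := (v1_count ι L p v hv).isConnected_compl_of_one_lt_rank (by simp)
    rw [compl_compl] at h
    exact h.isPreconnected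
  have h0 : (0 : ℂ) ∈ v1_U ι L p v := fun j => by simpa using hv j
  have hdiff : DifferentiableOn ℂ (v1_phi ι L e p z₀ v Q) (v1_U ι L p v) := fun w hw =>
    (v1_deriv ι N p z₀ v w hw Q).differentiableAt.differentiableWithinAt
  have han : AnalyticOnNhd ℂ (v1_phi ι L e p z₀ v Q) (v1_U ι L p v) := hdiff.analyticOnNhd hopen
  have hiter : ∀ (i : ℕ), ∀ w ∈ v1_U ι L p v, iteratedDeriv i (v1_phi ι L e p z₀ v Q) w =
      v1_phi ι L e p z₀ v ((dS a c p)^[i] Q) w := by
    intro i
    induction i with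
    | zero => intro w _; simp
    | succ i ih =>
      intro w hw
      rw [iteratedDeriv_succ, Function.iterate_succ', Function.comp_apply]
      have hev : iteratedDeriv i (v1_phi ι L e p z₀ v Q) =ᶠ[nhds w] v1_phi ι L e p z₀ v ((dS a c p)^[i] Q) := by
        filter_upwards [hopen.mem_nhds hw] with x hx
        exact ih x hx
      rw [hev.deriv_eq]
      exact (v1_deriv ι N p z₀ v w hw _).deriv
  have hz : ∀ i : ℕ, iteratedDeriv i (v1_phi ι L e p z₀ v Q) 0 = 0 := by
    intro i
    rw [hiter i 0 h0]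
    simpa [v1_phi] using hQ i
  have hord : analyticOrderAt (v1_phi ι L e p z₀ v Q) 0 = ⊤ := by
    rw [ENat.eq_top_iff_forall_ge]
    intro m
    exact (natCast_le_analyticOrderAt_iff_iteratedDeriv_eq_zero (han 0 h0)).2 fun i _ => hz i
  have hev0 : v1_phi ι L e p z₀ v Q =ᶠ[nhds 0] 0 := analyticOrderAt_eq_top.1 hord
  exact han.eqOn_zero_of_preconnected_of_eventuallyEq_zero hpre h0 hev0 hu

end H16LW
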