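import Pool.Agent.Lib.H16LW.D0
import Pool.Agent.Lib.H16LW.U1

/-!
# H16LW, V2: vanishing along a dense one-parameter group implies vanishing everywhere

Chunk V2 (M). PROOF. `MvPolynomial.optionEquivLeft` (or `Polynomial` over `MvPolynomial (Fin n × Fin 2) K`): `evS ι L e z v Q = ∑_{i ≤ M} Q_i(v) z ^ i` with
`Q_i(v) = MvPolynomial.eval₂ ι (fun (j, 0) => xf L e (v j), (j, 1) => yf L (v j)) q_i`. The functions `Q_i` are continuous at `tau` if all `tau_j ∉ L.lattice`
(H35P.wp_analytic, wpd_analytic) and periodic in every variable (U1). Claim: `Q_i(tau) = 0` for all `i ≤ M`, all `tau` off the lattice, by downward induction on `i`: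
suppose `Q_k(tau') = 0` for all `k > i` and all `tau'`, and `Q_i(tau) ≠ 0`. There are `eps > 0`, `B` with: `|tau'_j - tau_j| < eps` for all `j` implies `tau'_j ∉ L.lattice`,
`|Q_i(tau')| ≥ |Q_i(tau)| / 2` and `|Q_k(tau')| ≤ B` for `k < i`. For `m : ℕ` take `u` from `hd` with `‖u‖ > m`, lattice points `l_j`: `tau'_j = v_j + p_j u - l_j`. Then `v_j + p_j u ∉ L.lattice`,
`0 = evS (z₀ + u) (v + p u) Q = ∑_{k ≤ i} Q_k(tau') (z₀ + u) ^ k`, so `|Q_i(tau)| / 2 ≤ ∑_{k < i} B |z₀ + u| ^ (k - i) ≤ i B / |z₀ + u|` if `|z₀ + u| ≥ 1`: contradiction for large `m`.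
-/

set_option autoImplicit false

namespace H16LW

open H47E

theorem V2_small (j : ℕ) (b : ℕ → ℂ) (B δ : ℝ) (w : ℂ) (hB : 0 ≤ B) (hb : ∀ i < j, ‖b i‖ ≤ B) (hj : δ ≤ ‖b j‖)
    (hw1 : 1 ≤ ‖w‖) (hw : j * B < δ * ‖w‖) : ∑ i ∈ Finset.range (j + 1), b i * w ^ i ≠ 0 := by
  intro h
  rw [Finset.sum_range_succ] at h
  have h1 : b j * w ^ j = -∑ i ∈ Finset.range j, b i * w ^ i := by linear_combination h
  have h2 : ‖b j‖ * ‖w‖ ^ j ≤ ∑ i ∈ Finset.range j, ‖b i‖ * ‖w‖ ^ i := by
    rw [← norm_pow, ← norm_mul, h1, norm_neg]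
    refine (norm_sum_le _ _).trans (le_of_eq ?_)
    refine Finset.sum_congr rfl fun i _ => ?_
    rw [norm_mul, norm_pow]
  have h3 : ‖w‖ * ∑ i ∈ Finset.range j, ‖b i‖ * ‖w‖ ^ i ≤ ∑ i ∈ Finset.range j, B * ‖w‖ ^ j := by
    rw [Finset.mul_sum]
    refine Finset.sum_le_sum fun i hi => ?_
    have hi' := Finset.mem_range.1 hi
    calc ‖w‖ * (‖b i‖ * ‖w‖ ^ i) = ‖b i‖ * ‖w‖ ^ (i + 1) := by ring
      _ ≤ B * ‖w‖ ^ j := by
        refine mul_le_mul (hb i hi') (pow_le_pow_right₀ hw1 hi') (by positivity) hB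
  rw [Finset.sum_const, Finset.card_range, nsmul_eq_mul] at h3
  have hp : 0 < ‖w‖ ^ j := by positivity
  have h4 : δ * ‖w‖ * ‖w‖ ^ j ≤ j * B * ‖w‖ ^ j := by
    calc δ * ‖w‖ * ‖w‖ ^ j ≤ ‖b j‖ * ‖w‖ * ‖w‖ ^ j := by gcongr
      _ = ‖w‖ * (‖b j‖ * ‖w‖ ^ j) := by ring
      _ ≤ ‖w‖ * ∑ i ∈ Finset.range j, ‖b i‖ * ‖w‖ ^ i := by gcongr
      _ ≤ j * (B * ‖w‖ ^ j) := h3
      _ = j * B * ‖w‖ ^ j := by ring
  have h5 := le_of_mul_le_mul_right h4 hp
  linarith

/-- the coordinates -/
noncomputable def V2_g (L : PeriodPair) (e : ℂ) {n : ℕ} (v : Fin n → ℂ) : Fin n × Fin 2 → ℂ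
  | (j, 0) => xf L e (v j)
  | (j, 1) => yf L (v j)

theorem V2_ev {K : Type} [Field K] (ι : K →+* ℂ) (L : PeriodPair) (e : ℂ) {n : ℕ} (z : ℂ) (v : Fin n → ℂ)
    (Q : MvPolynomial (Option (Fin n × Fin 2)) K) : evS ι L e z v Q =
      (MvPolynomial.optionEquivLeft K (Fin n × Fin 2) Q).eval₂ (MvPolynomial.eval₂Hom ι (V2_g L e v)) z := by
  have h : evS ι L e z v = (Polynomial.eval₂RingHom (MvPolynomial.eval₂Hom ι (V2_g L e v)) z).comp
      (MvPolynomial.optionEquivLeft K (Fin n × Fin 2) : _ →+* _) := by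
    refine MvPolynomial.ringHom_ext (fun k => ?_) fun i => ?_
    · simp [evS, MvPolynomial.optionEquivLeft_C]
    · rcases i with _ | ⟨j, i⟩
      · simp [evS, MvPolynomial.optionEquivLeft_X_none]
      · fin_cases i
        · simp [evS, MvPolynomial.optionEquivLeft_X_some, V2_g]
        · simp [evS, MvPolynomial.optionEquivLeft_X_some, V2_g]
  rw [h]
  rfl

theorem V2_cont {K : Type} [Field K] (ι : K →+* ℂ) (L : PeriodPair) (e : ℂ) {n : ℕ} (τ : Fin n → ℂ) (hτ : ∀ j, τ j ∉ L.lattice)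
    (P : MvPolynomial (Fin n × Fin 2) K) :
    ContinuousAt (fun v : Fin n → ℂ => MvPolynomial.eval₂Hom ι (V2_g L e v) P) τ := by
  induction P using MvPolynomial.induction_on with
  | C a => simpa using continuousAt_const
  | add p q hp hq =>
    simp only [map_add]
    exact hp.fun_add hq
  | mul_X p i hp =>
    simp only [map_mul]
    refine hp.mul ?_
    obtain ⟨j, i⟩ := i
    have hev : ContinuousAt (fun v : Fin n → ℂ => v j) τ := (continuous_apply j).continuousAt
    fin_cases i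
    · simp only [MvPolynomial.coe_eval₂Hom, MvPolynomial.eval₂_X, V2_g, xf]
      have h1 : ContinuousAt (fun v : Fin n → ℂ => L.weierstrassP (v j)) τ :=
        ContinuousAt.comp (g := L.weierstrassP) (f := fun v : Fin n → ℂ => v j) (H35P.wp_analytic L _ (hτ j)).continuousAt hev
      exact h1.sub continuousAt_const
    · simp only [MvPolynomial.coe_eval₂Hom, MvPolynomial.eval₂_X, V2_g, yf]
      have h1 : ContinuousAt (fun v : Fin n → ℂ => L.derivWeierstrassP (v j)) τ :=
        ContinuousAt.comp (g := L.derivWeierstrassP) (f := fun v : Fin n → ℂ => v j) (H35P.wpd_analytic L _ (hτ j)).continuousAt hev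
      exact h1.div_const _

/-- Vanishing along a dense one-parameter group implies vanishing everywhere. -/
theorem dens_vanish {K : Type} [Field K] (ι : K →+* ℂ) {L : PeriodPair} {e : ℂ}
    {n : ℕ} (p : Fin n → ℂ) (z₀ : ℂ) (v : Fin n → ℂ)
    (hd : ∀ (τ : Fin n → ℂ) (ε : ℝ), 0 < ε → ∀ R : ℝ, ∃ u : ℂ, R < ‖u‖ ∧ ∀ j, ∃ l ∈ L.lattice, ‖v j + p j * u - τ j - l‖ < ε)
    (Q : MvPolynomial (Option (Fin n × Fin 2)) K)
    (hQ : ∀ u : ℂ, (∀ j, v j + p j * u ∉ L.lattice) → evS ι L e (z₀ + u) (fun j => v j + p j * u) Q = 0)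
    (z : ℂ) (τ : Fin n → ℂ) (hτ : ∀ j, τ j ∉ L.lattice) : evS ι L e z τ Q = 0 := by
  set q := MvPolynomial.optionEquivLeft K (Fin n × Fin 2) Q with hq
  set F : ℕ → (Fin n → ℂ) → ℂ := fun i v => MvPolynomial.eval₂Hom ι (V2_g L e v) (q.coeff i) with hF
  have hsum : ∀ (z : ℂ) (v : Fin n → ℂ), evS ι L e z v Q = ∑ i ∈ Finset.range (q.natDegree + 1), F i v * z ^ i := by
    intro z v
    rw [V2_ev, ← hq, Polynomial.eval₂_eq_sum_range]
  have key : ∀ k : ℕ, ∀ i, q.natDegree + 1 ≤ i + k → ∀ τ : Fin n → ℂ, (∀ j, τ j ∉ L.lattice) → F i τ = 0 := by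
    intro k
    induction k with
    | zero =>
      intro i hi τ _
      have : q.coeff i = 0 := Polynomial.coeff_eq_zero_of_natDegree_lt (by omega)
      simp only [hF]
      rw [this, map_zero]
    | succ k ih =>
      intro i hi τ hτ
      by_cases hi' : q.natDegree + 1 ≤ i + k
      · exact ih i hi' τ hτ
      by_cases hik : q.natDegree < i
      · have : q.coeff i = 0 := Polynomial.coeff_eq_zero_of_natDegree_lt hik
        simp only [hF]
        rw [this, map_zero]
      have hhi : ∀ i', i < i' → ∀ τ : Fin n → ℂ, (∀ j, τ j ∉ L.lattice) → F i' τ = 0 :=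
        fun i' h' => ih i' (by omega)
      by_contra hne
      set δ := ‖F i τ‖ / 2 with hδ
      have hδ0 : 0 < δ := half_pos (norm_pos_iff.2 hne)
      set B := 1 + ∑ i' ∈ Finset.range i, ‖F i' τ‖ with hB
      have hB0 : 0 ≤ B := add_nonneg zero_le_one (Finset.sum_nonneg fun _ _ => norm_nonneg _)
      have e1 : ∀ᶠ v in nhds τ, ∀ j, v j ∉ L.lattice := by
        rw [Filter.eventually_all]
        intro j
        have hev : ContinuousAt (fun v : Fin n → ℂ => v j) τ := (continuous_apply j).continuousAt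
        exact hev.eventually ((H35P.compl_open L).mem_nhds (hτ j))
      have e2 : ∀ᶠ v in nhds τ, δ ≤ ‖F i v‖ := by
        have h1 := (V2_cont ι L e τ hτ (q.coeff i)).norm
        have h2 : δ < ‖F i τ‖ := by rw [hδ]; linarith [norm_pos_iff.2 hne]
        filter_upwards [h1.eventually (lt_mem_nhds h2)] with v hv
        exact hv.le
      have e3 : ∀ᶠ v in nhds τ, ∀ i' ∈ Finset.range i, ‖F i' v‖ ≤ B := by
        rw [Filter.eventually_all_finset]
        intro i' hi'
        have h1 := (V2_cont ι L e τ hτ (q.coeff i')).norm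
        have h2 : ‖F i' τ‖ < B := by
          have := Finset.single_le_sum (f := fun i' => ‖F i' τ‖) (fun _ _ => norm_nonneg _) hi'
          have h3 : ‖F i' τ‖ ≤ ∑ i' ∈ Finset.range i, ‖F i' τ‖ := this
          rw [hB]; linarith
        filter_upwards [h1.eventually (gt_mem_nhds h2)] with v hv
        exact hv.le
      obtain ⟨ε, hε, hε2⟩ := Metric.eventually_nhds_iff.1 (e1.and (e2.and e3))
      obtain ⟨u, hu, hu2⟩ := hd τ ε hε (‖z₀‖ + 1 + i * B / δ)
      choose l hl hl2 using hu2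
      have hdist : dist (fun j => v j + p j * u - l j) τ < ε := by
        rw [dist_pi_lt_iff hε]
        intro j
        rw [dist_eq_norm]
        have e : v j + p j * u - l j - τ j = v j + p j * u - τ j - l j := by ring
        rw [e]
        exact hl2 j
      obtain ⟨f1, f2, f3⟩ := hε2 hdist
      have g1 : ∀ j, v j + p j * u ∉ L.lattice := fun j h => f1 j (L.lattice.sub_mem h (hl j))
      have g2 : V2_g L e (fun j => v j + p j * u) = V2_g L e (fun j => v j + p j * u - l j) := by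
        funext ⟨j, i'⟩
        fin_cases i'
        · show xf L e (v j + p j * u) = xf L e (v j + p j * u - l j)
          have := xf_per L e (v j + p j * u - l j) (hl j)
          rwa [sub_add_cancel] at this
        · show yf L (v j + p j * u) = yf L (v j + p j * u - l j)
          have := yf_per L (v j + p j * u - l j) (hl j)
          rwa [sub_add_cancel] at this
      have g3 := hQ u g1
      rw [hsum] at g3
      have g4 : ∑ i' ∈ Finset.range (i + 1), F i' (fun j => v j + p j * u - l j) * (z₀ + u) ^ i' = 0 := by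
        rw [← g3]
        have g5 : ∀ i', F i' (fun j => v j + p j * u) = F i' (fun j => v j + p j * u - l j) := by
          intro i'
          simp only [hF]
          rw [g2]
        simp only [g5]
        refine Finset.sum_subset (Finset.range_subset_range.2 (by omega)) fun i' _ hi2 => ?_
        rw [hhi i' (by simpa using hi2) _ f1, zero_mul]
      have hw : ‖u‖ - ‖z₀‖ ≤ ‖z₀ + u‖ := by
        have := norm_sub_norm_le u (-z₀)
        rw [norm_neg, sub_neg_eq_add, add_comm u z₀] at this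
        exact this
      have hnn : 0 ≤ i * B / δ := div_nonneg (mul_nonneg (Nat.cast_nonneg _) hB0) hδ0.le
      refine V2_small i (fun i' => F i' (fun j => v j + p j * u - l j)) B δ (z₀ + u) hB0
        (fun i' hi' => f3 i' (Finset.mem_range.2 hi')) f2 (by linarith) ?_ g4
      have : i * B / δ < ‖z₀ + u‖ := by linarith
      rw [div_lt_iff₀ hδ0] at this
      linarith
  rw [hsum]
  exact Finset.sum_eq_zero fun i _ => by rw [key (q.natDegree + 1) i (by omega) τ hτ, zero_mul]

end H16LW
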