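import Mathlib

/-!
# H16LW, V3: points of proper ideals (Nullstellensatz over a subfield of an algebraically closed field)

Chunk V3 (S). PROOF. `J ≠ ⊤`, so `J ≤ M` for a maximal ideal `M`; the quotient `B = MvPolynomial σ K ⧸ M` is a field of finite type over `K`, so it is finite over `K` (Zariski's
lemma: `finite_of_finite_type_of_isJacobsonRing` or `Algebra.FiniteType` .. / `isIntegral`), hence algebraic; with `ι.toAlgebra : Algebra K E` take `IsAlgClosed.lift : B →ₐ[K] E` and compose
with the quotient map. Second theorem: the same for a finitely generated subalgebra of `E`: every element of the image is algebraic over `K`.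
-/

set_option autoImplicit false

namespace H16LW

/-- A nonzero finitely generated algebra over a field has a homomorphism into every algebraically closed extension, with algebraic values. -/
theorem v3_lift {K E B : Type} [Field K] [Field E] [IsAlgClosed E] [Algebra K E] [CommRing B] [Algebra K B] [Nontrivial B]
    [Algebra.FiniteType K B] : ∃ φ : B →ₐ[K] E, ∀ x, IsAlgebraic K (φ x) := by
  obtain ⟨M, hM⟩ := Ideal.exists_maximal B
  let _ : Field (B ⧸ M) := Ideal.Quotient.field M
  have _ : Algebra.FiniteType K (B ⧸ M) := Algebra.FiniteType.of_surjective (Ideal.Quotient.mkₐ K M) (Ideal.Quotient.mkₐ_surjective K M)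
  have _ : Module.Finite K (B ⧸ M) := finite_of_finite_type_of_isJacobsonRing K (B ⧸ M)
  have _ : Algebra.IsAlgebraic K (B ⧸ M) := Algebra.IsAlgebraic.of_finite K (B ⧸ M)
  let ψ : (B ⧸ M) →ₐ[K] E := IsAlgClosed.lift
  refine ⟨ψ.comp (Ideal.Quotient.mkₐ K M), fun x => ?_⟩
  have h : IsAlgebraic K (Ideal.Quotient.mkₐ K M x) := Algebra.IsAlgebraic.isAlgebraic _
  exact h.algHom ψ

/-- Points of proper ideals. -/
theorem point_exists {K E : Type} [Field K] [Field E] [IsAlgClosed E] (ι : K →+* E) {σ : Type} [Finite σ]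
    (J : Ideal (MvPolynomial σ K)) (hJ : (1 : MvPolynomial σ K) ∉ J) :
    ∃ ρ : MvPolynomial σ K →+* E, (∀ k, ρ (MvPolynomial.C k) = ι k) ∧ ∀ f ∈ J, ρ f = 0 := by
  let _ : Algebra K E := ι.toAlgebra
  have _ : Nontrivial (MvPolynomial σ K ⧸ J) := Ideal.Quotient.nontrivial_iff.2 (fun h => hJ (by rw [h]; exact Submodule.mem_top))
  have _ : Algebra.FiniteType K (MvPolynomial σ K ⧸ J) :=
    Algebra.FiniteType.of_surjective (Ideal.Quotient.mkₐ K J) (Ideal.Quotient.mkₐ_surjective K J)
  obtain ⟨φ, -⟩ := v3_lift (K := K) (E := E) (B := MvPolynomial σ K ⧸ J)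
  refine ⟨(φ.comp (Ideal.Quotient.mkₐ K J) : MvPolynomial σ K →+* E), fun k => ?_, fun f hf => ?_⟩
  · exact (φ.comp (Ideal.Quotient.mkₐ K J)).commutes k
  · show φ (Ideal.Quotient.mk J f) = 0
    rw [Ideal.Quotient.eq_zero_iff_mem.2 hf, map_zero]

/-- Specialisation of a finitely generated algebra to algebraic elements. -/
theorem spec_exists {K E : Type} [Field K] [Field E] [IsAlgClosed E] [Algebra K E] (s : Finset E) :
    ∃ φ : Algebra.adjoin K (s : Set E) →ₐ[K] E, ∀ x, IsAlgebraic K (φ x) := by
  have _ : Algebra.FiniteType K (Algebra.adjoin K (s : Set E)) :=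
    (Subalgebra.fg_iff_finiteType _).1 ⟨s, rfl⟩
  exact v3_lift

end H16LW
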