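import Pool.Agent.Lib.H16LW.K4
import Pool.Agent.Lib.H16LW.V1
import Pool.Agent.Lib.H16LW.V2
import Pool.Agent.Lib.H16LW.V3

/-!
# H16LW, V4: the ring is differentially simple (interface theorem `dsimple` of Lib/H47E/D.lean)

Chunk V4 (S). PROOF. Suppose `1 ∉ J`. `point_exists`: `ρ` with `ρ (J) = 0`. `ρ y_j ^ 2 = ..` (from `hc`), so by `unif'` there are `v'_j` with `xf = ρ x_j`, `yf = ρ y_j`; with
`z' = ρ z`: `ρ = evS ι L e z' v'` (MvPolynomial.ringHom_ext). All `dS^i Q ∈ J`. `ident` and `density'` (for `ι (p_j)`), `dens_vanish`: `evS ι L e z₀ v Q = 0`: contradiction.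
-/

set_option autoImplicit false

namespace H16LW

open H47E

/-- D1: a `del`-stable ideal which contains the equations of the curves and an element which does not vanish identically
is the unit ideal. -/
theorem dsimple' {K : Type} [Field K] (ι : K →+* ℂ) {L : PeriodPair} (hL : CM L) {e : ℂ} {a c : K} (N : Norm L e (ι a) (ι c))
    {n : ℕ} (p : Fin n → K) (hp : KInd L (fun j => ι (p j)))
    (J : Ideal (MvPolynomial (Option (Fin n × Fin 2)) K)) (hJ : ∀ f ∈ J, dS a c p f ∈ J)
    (hc : ∀ j, MvPolynomial.X (some (j, 1)) ^ 2 - (MvPolynomial.X (some (j, 0)) ^ 3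
      + MvPolynomial.C a * MvPolynomial.X (some (j, 0)) ^ 2 + MvPolynomial.C c * MvPolynomial.X (some (j, 0))) ∈ J)
    (Q : MvPolynomial (Option (Fin n × Fin 2)) K) (hQ : Q ∈ J) (z₀ : ℂ) (v : Fin n → ℂ) (hv : ∀ j, v j ∉ L.lattice)
    (hQ' : evS ι L e z₀ v Q ≠ 0) : (1 : MvPolynomial (Option (Fin n × Fin 2)) K) ∈ J := by
  by_contra h1
  obtain ⟨ρ, hρC, hρJ⟩ := point_exists ι J h1
  have hcur : ∀ j, ρ (MvPolynomial.X (some (j, 1))) ^ 2 = ρ (MvPolynomial.X (some (j, 0))) ^ 3
      + ι a * ρ (MvPolynomial.X (some (j, 0))) ^ 2 + ι c * ρ (MvPolynomial.X (some (j, 0))) := by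
    intro j
    have h := hρJ _ (hc j)
    rw [map_sub, map_add, map_add, map_mul, map_mul, map_pow, map_pow, map_pow, hρC, hρC] at h
    exact sub_eq_zero.1 h
  choose v' hv' hx hy using fun j => unif' N _ _ (hcur j)
  have hev : ρ = evS ι L e (ρ (MvPolynomial.X none)) v' := by
    refine MvPolynomial.ringHom_ext (fun k => ?_) (fun i => ?_)
    · unfold evS
      rw [hρC, MvPolynomial.coe_eval₂Hom, MvPolynomial.eval₂_C]
    · unfold evS
      rw [MvPolynomial.coe_eval₂Hom, MvPolynomial.eval₂_X]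
      match i with
      | none => rfl
      | some (j, 0) => exact (hx j).symm
      | some (j, 1) => exact (hy j).symm
  have hmem : ∀ i : ℕ, (dS a c p)^[i] Q ∈ J := by
    intro i
    induction i with
    | zero => exact hQ
    | succ i ih =>
      rw [Function.iterate_succ_apply']
      exact hJ _ ih
  have hz : ∀ i : ℕ, evS ι L e (ρ (MvPolynomial.X none)) v' ((dS a c p)^[i] Q) = 0 := by
    intro i
    rw [← hev]
    exact hρJ _ (hmem i)
  apply hQ'
  refine dens_vanish ι (fun j => ι (p j)) (ρ (MvPolynomial.X none)) v' ?_ Q ?_ z₀ v hv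
  · intro τ ε hε R
    exact density' L hL (fun j => ι (p j)) hp v' τ ε hε R
  · intro u hu
    exact ident ι N p _ v' hv' Q hz u hu

end H16LW
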