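import Pool.Agent.Lib.H35P.A5

/-!
# H16LW, Z1: the lattice functions as sums over `ℤ × ℤ` (the notation of the frozen statement S15921)

Chunk Z1 (S). PROOF. `L = pp ω₁ ω₂ h` is the `PeriodPair` with `L.ω₁ = ω₁`, `L.ω₂ = ω₂`. The sums over `L.lattice` are reindexed by `L.latticeEquivProd.symm : ℤ × ℤ ≃ L.lattice` (`latticeEquiv_symm_apply`), `Equiv.tsum_eq`.
`indep`: `ω₁ ≠ 0` (otherwise `ω₂ / ω₁ = 0`), `s ω₁ + t ω₂ = 0` with real `s, t`: divide by `ω₁` and take imaginary parts. `pp_kind`: `c l = a ω₁ + b ω₂` with rational `a, b` iff some nonzero integer multiple is in the lattice.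
-/

set_option autoImplicit false

namespace H16LW

theorem pp_indep (ω₁ ω₂ : ℂ) (h : (ω₂ / ω₁).im ≠ 0) : LinearIndependent ℝ ![ω₁, ω₂] := by
  have h0 : ω₁ ≠ 0 := by
    rintro rfl
    exact h (by simp)
  rw [LinearIndependent.pair_iff]
  intro s t hst
  have h1 : (s : ℂ) + (t : ℂ) * (ω₂ / ω₁) = 0 := by
    have h2 : (s : ℂ) * ω₁ + (t : ℂ) * ω₂ = 0 := by simpa [Complex.real_smul] using hst
    have h3 : ((s : ℂ) * ω₁ + (t : ℂ) * ω₂) / ω₁ = 0 := by rw [h2, zero_div]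
    rw [← h3]
    field_simp
  have him := congrArg Complex.im h1
  simp only [Complex.add_im, Complex.ofReal_im, Complex.mul_im, Complex.ofReal_re, zero_mul, add_zero,
    zero_add, Complex.zero_im] at him
  have ht : t = 0 := by
    rcases mul_eq_zero.1 him with h4 | h4
    · exact h4
    · exact absurd h4 h
  subst ht
  refine ⟨?_, rfl⟩
  have h5 : (s : ℂ) = 0 := by simpa using h1
  exact_mod_cast h5

/-- The period pair. -/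
def pp (ω₁ ω₂ : ℂ) (h : (ω₂ / ω₁).im ≠ 0) : PeriodPair := ⟨ω₁, ω₂, pp_indep ω₁ ω₂ h⟩

variable (ω₁ ω₂ : ℂ) (h : (ω₂ / ω₁).im ≠ 0)

theorem z1_sum (f : ℂ → ℂ) : ∑' l : (pp ω₁ ω₂ h).lattice, f l.1 =
    ∑' q : ℤ × ℤ, f ((q.1 : ℂ) * ω₁ + (q.2 : ℂ) * ω₂) := by
  rw [← Equiv.tsum_eq (pp ω₁ ω₂ h).latticeEquivProd.symm.toEquiv]
  refine tsum_congr fun q => ?_
  exact congrArg f ((pp ω₁ ω₂ h).latticeEquiv_symm_apply q)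

theorem pp_mem (z : ℂ) : z ∈ (pp ω₁ ω₂ h).lattice ↔ ∃ m k : ℤ, (m : ℂ) * ω₁ + (k : ℂ) * ω₂ = z := by
  exact PeriodPair.mem_lattice

theorem pp_g2 : (pp ω₁ ω₂ h).g₂ = 60 * ∑' q : ℤ × ℤ, 1 / ((q.1 : ℂ) * ω₁ + (q.2 : ℂ) * ω₂) ^ 4 := by
  rw [PeriodPair.g₂, PeriodPair.G, ← z1_sum ω₁ ω₂ h (fun l => 1 / l ^ 4)]
  congr 1
  refine tsum_congr fun l => ?_
  simp

theorem pp_g3 : (pp ω₁ ω₂ h).g₃ = 140 * ∑' q : ℤ × ℤ, 1 / ((q.1 : ℂ) * ω₁ + (q.2 : ℂ) * ω₂) ^ 6 := by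
  rw [PeriodPair.g₃, PeriodPair.G, ← z1_sum ω₁ ω₂ h (fun l => 1 / l ^ 6)]
  congr 1
  refine tsum_congr fun l => ?_
  simp

theorem pp_wp (z : ℂ) : (pp ω₁ ω₂ h).weierstrassP z = ∑' q : ℤ × ℤ,
    (1 / (z - ((q.1 : ℂ) * ω₁ + (q.2 : ℂ) * ω₂)) ^ 2 - 1 / ((q.1 : ℂ) * ω₁ + (q.2 : ℂ) * ω₂) ^ 2) := by
  rw [PeriodPair.weierstrassP, ← z1_sum ω₁ ω₂ h (fun l => 1 / (z - l) ^ 2 - 1 / l ^ 2)]

theorem pp_zeta (z : ℂ) : H35P.A5_z (pp ω₁ ω₂ h) z = ∑' q : ℤ × ℤ,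
    (1 / (z - ((q.1 : ℂ) * ω₁ + (q.2 : ℂ) * ω₂)) + 1 / ((q.1 : ℂ) * ω₁ + (q.2 : ℂ) * ω₂)
      + z / ((q.1 : ℂ) * ω₁ + (q.2 : ℂ) * ω₂) ^ 2) := by
  rw [H35P.A5_z, ← z1_sum ω₁ ω₂ h (fun l => 1 / (z - l) + 1 / l + z / l ^ 2)]
  refine tsum_congr fun l => ?_
  simp only [H35P.A5_t, one_div]

theorem pp_kind (c : ℂ) : (∀ m k : ℤ, ∃ a b : ℚ, c * ((m : ℂ) * ω₁ + (k : ℂ) * ω₂) = (a : ℂ) * ω₁ + (b : ℂ) * ω₂) ↔
    ∀ l ∈ (pp ω₁ ω₂ h).lattice, ∃ N : ℤ, N ≠ 0 ∧ (N : ℂ) * (c * l) ∈ (pp ω₁ ω₂ h).lattice := by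
  constructor
  · intro H l hl
    obtain ⟨m, k, rfl⟩ := (pp_mem ω₁ ω₂ h l).1 hl
    obtain ⟨a, b, hab⟩ := H m k
    refine ⟨(a.den : ℤ) * (b.den : ℤ), by positivity, ?_⟩
    rw [pp_mem]
    refine ⟨a.num * b.den, b.num * a.den, ?_⟩
    rw [hab]
    have ha : (a : ℂ) = (a.num : ℂ) / (a.den : ℂ) := by
      exact_mod_cast congrArg (fun x : ℚ => (x : ℂ)) a.num_div_den.symm
    have hb : (b : ℂ) = (b.num : ℂ) / (b.den : ℂ) := by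
      exact_mod_cast congrArg (fun x : ℚ => (x : ℂ)) b.num_div_den.symm
    have ha0 : (a.den : ℂ) ≠ 0 := by exact_mod_cast a.den_nz
    have hb0 : (b.den : ℂ) ≠ 0 := by exact_mod_cast b.den_nz
    rw [ha, hb]
    push_cast
    field_simp
  · intro H m k
    obtain ⟨N, hN, hmem⟩ := H _ ((pp_mem ω₁ ω₂ h _).2 ⟨m, k, rfl⟩)
    obtain ⟨m', k', hmk⟩ := (pp_mem ω₁ ω₂ h _).1 hmem
    refine ⟨(m' : ℚ) / N, (k' : ℚ) / N, ?_⟩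
    have hN0 : (N : ℂ) ≠ 0 := by exact_mod_cast hN
    apply mul_left_cancel₀ hN0
    rw [← hmk]
    push_cast
    field_simp

end H16LW
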