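import Pool.Agent.Lib.H16LW.Z1
import Pool.Agent.Lib.H16LW.D0

/-!
# H16LW, Z2: the final theorem in the notation of the frozen statement, from the core theorem

Chunk Z2 (M). PROOF. `L = pp ω₁ ω₂ h`. `e` = a root of `4 e ^ 3 - g₂ e - g₃` (ℂ is algebraically closed), algebraic because `g₂, g₃` are; `a = 3 e`, `c = 3 e ^ 2 - g₂ / 4` algebraic: `Norm L e a c`. If the `2 n` numbers were algebraically
dependent over `ℚ`, `P ≠ 0` a relation: let `K = ℚ(e, g₂, g₃, p_j)` (or `algebraicClosure ℚ ℂ`), `Q(X, W) = P(X + e, W - e p_j) ≠ 0` (substitution automorphism, inverse substitution) a polynomial over the algebraic numbers with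
`Q (x(p_j), w(p_j)) = 0`: contradiction to `core`. The condition on `c` is `pp_kind`. The indices: `Sum.elim (wp values) (zeta values)` against `Fin n × Fin 2`: use the equivalence `Fin n ⊕ Fin n ≃ Fin n × Fin 2` or formulate `core` with the algebraic
independence over `algebraicClosure ℚ ℂ` of a family on `Fin n ⊕ Fin n`.
-/

set_option autoImplicit false

namespace H16LW

open H47E

/-- The statement of the core theorem (to be proved in module G). -/
def Core : Prop := ∀ (L : PeriodPair), CM L → ∀ (e a c : ℂ), Norm L e a c → IsAlgebraic ℚ a → IsAlgebraic ℚ c →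
  ∀ (n : ℕ) (p : Fin n → ℂ), (∀ j, IsAlgebraic ℚ (p j)) → KInd L p →
    ∀ Q : MvPolynomial (Fin n × Fin 2) (algebraicClosure ℚ ℂ), Q ≠ 0 →
      MvPolynomial.aeval (fun i : Fin n × Fin 2 => if i.2 = 0 then xf L e (p i.1) else wf L e (p i.1)) Q ≠ 0

/-- The final theorem in the notation of the frozen statement, from the core theorem. -/
theorem final (hcore : Core) (ω₁ ω₂ : ℂ) (h : (ω₂ / ω₁).im ≠ 0)
    (hcm : ∃ α : ℂ, α.im ≠ 0 ∧ ∀ m k : ℤ, ∃ m' k' : ℤ, α * ((m : ℂ) * ω₁ + (k : ℂ) * ω₂) = (m' : ℂ) * ω₁ + (k' : ℂ) * ω₂)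
    (h4 : IsAlgebraic ℚ (60 * ∑' q : ℤ × ℤ, 1 / ((q.1 : ℂ) * ω₁ + (q.2 : ℂ) * ω₂) ^ 4))
    (h6 : IsAlgebraic ℚ (140 * ∑' q : ℤ × ℤ, 1 / ((q.1 : ℂ) * ω₁ + (q.2 : ℂ) * ω₂) ^ 6))
    (n : ℕ) (p : Fin n → ℂ) (hp : ∀ j, IsAlgebraic ℚ (p j))
    (hi : ∀ c : Fin n → ℂ,
        (∀ j, ∀ m k : ℤ, ∃ a b : ℚ,
          c j * ((m : ℂ) * ω₁ + (k : ℂ) * ω₂) = (a : ℂ) * ω₁ + (b : ℂ) * ω₂) →
        ∑ j, c j * p j = 0 → ∀ j, c j = 0) :
    AlgebraicIndependent ℚ
      (Sum.elim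
        (fun j : Fin n => ∑' q : ℤ × ℤ,
          (1 / (p j - ((q.1 : ℂ) * ω₁ + (q.2 : ℂ) * ω₂)) ^ 2
            - 1 / ((q.1 : ℂ) * ω₁ + (q.2 : ℂ) * ω₂) ^ 2))
        (fun j : Fin n => ∑' q : ℤ × ℤ,
          (1 / (p j - ((q.1 : ℂ) * ω₁ + (q.2 : ℂ) * ω₂))
            + 1 / ((q.1 : ℂ) * ω₁ + (q.2 : ℂ) * ω₂)
            + p j / ((q.1 : ℂ) * ω₁ + (q.2 : ℂ) * ω₂) ^ 2))) := by
  obtain ⟨L, hL⟩ : ∃ L : PeriodPair, L = pp ω₁ ω₂ h := ⟨_, rfl⟩
  -- complex multiplication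
  have hCM : CM L := by
    obtain ⟨α, hα, hαl⟩ := hcm
    refine ⟨α, hα, fun l hl => ?_⟩
    rw [hL] at hl ⊢
    obtain ⟨m, k, rfl⟩ := (pp_mem ω₁ ω₂ h l).1 hl
    obtain ⟨m', k', hmk⟩ := hαl m k
    rw [hmk]
    exact (pp_mem ω₁ ω₂ h _).2 ⟨m', k', rfl⟩
  have hg2 : IsAlgebraic ℚ L.g₂ := by rw [hL, pp_g2]; exact h4
  have hg3 : IsAlgebraic ℚ L.g₃ := by rw [hL, pp_g3]; exact h6
  have hKI : KInd L p := by
    intro c hc hs
    funext j
    refine hi c (fun j => ?_) hs j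
    refine (pp_kind ω₁ ω₂ h (c j)).2 ?_
    intro l hl
    rw [← hL] at hl ⊢
    exact hc j l hl
  -- the root of the cubic
  obtain ⟨e, he⟩ : ∃ e : ℂ, 4 * e ^ 3 - L.g₂ * e - L.g₃ = 0 := by
    have hdeg : (Polynomial.C (4 : ℂ) * Polynomial.X ^ 3 + Polynomial.C (0 : ℂ) * Polynomial.X ^ 2 +
        Polynomial.C (-L.g₂) * Polynomial.X + Polynomial.C (-L.g₃)).degree = 3 :=
      Polynomial.degree_cubic (by norm_num)
    obtain ⟨e, he⟩ := IsAlgClosed.exists_root (Polynomial.C (4 : ℂ) * Polynomial.X ^ 3 + Polynomial.C (0 : ℂ) * Polynomial.X ^ 2 +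
        Polynomial.C (-L.g₂) * Polynomial.X + Polynomial.C (-L.g₃)) (by rw [hdeg]; norm_num)
    refine ⟨e, ?_⟩
    rw [Polynomial.IsRoot.def] at he
    simp only [Polynomial.eval_add, Polynomial.eval_mul, Polynomial.eval_C, Polynomial.eval_pow, Polynomial.eval_X] at he
    linear_combination he
  have memA : ∀ x : ℂ, x ∈ algebraicClosure ℚ ℂ ↔ IsAlgebraic ℚ x := fun x => mem_algebraicClosure_iff
  have hA2 := (memA _).2 hg2
  have hA3 := (memA _).2 hg3
  have heA : e ∈ algebraicClosure ℚ ℂ := by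
    rw [memA]
    obtain ⟨a2, ha2⟩ : ∃ a2 : algebraicClosure ℚ ℂ, algebraMap (algebraicClosure ℚ ℂ) ℂ a2 = L.g₂ := ⟨⟨_, hA2⟩, rfl⟩
    obtain ⟨a3, ha3⟩ : ∃ a3 : algebraicClosure ℚ ℂ, algebraMap (algebraicClosure ℚ ℂ) ℂ a3 = L.g₃ := ⟨⟨_, hA3⟩, rfl⟩
    have h1 : IsAlgebraic (algebraicClosure ℚ ℂ) e := by
      refine ⟨Polynomial.C (4 : algebraicClosure ℚ ℂ) * Polynomial.X ^ 3 + Polynomial.C (0 : algebraicClosure ℚ ℂ) * Polynomial.X ^ 2 +
        Polynomial.C (-a2) * Polynomial.X + Polynomial.C (-a3), ?_, ?_⟩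
      · intro h0
        have h2 : (Polynomial.C (4 : algebraicClosure ℚ ℂ) * Polynomial.X ^ 3 + Polynomial.C (0 : algebraicClosure ℚ ℂ) * Polynomial.X ^ 2 +
          Polynomial.C (-a2) * Polynomial.X + Polynomial.C (-a3)).degree = 3 :=
          Polynomial.degree_cubic (by norm_num)
        rw [h0] at h2
        simp at h2
      · simp only [map_add, map_mul, map_pow, Polynomial.aeval_C, Polynomial.aeval_X, map_neg, map_zero, map_ofNat, ha2, ha3]
        linear_combination he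
    haveI : Algebra.IsAlgebraic ℚ (algebraicClosure ℚ ℂ) := algebraicClosure.isAlgebraic ℚ ℂ
    exact h1.restrictScalars ℚ
  have haA : IsAlgebraic ℚ (3 * e) := by
    rw [← memA]
    exact mul_mem (ofNat_mem _ 3) heA
  have hcA : IsAlgebraic ℚ (3 * e ^ 2 - L.g₂ / 4) := by
    rw [← memA]
    exact sub_mem (mul_mem (ofNat_mem _ 3) (pow_mem heA 2)) (div_mem hA2 (ofNat_mem _ 4))
  have hN : Norm L e (3 * e) (3 * e ^ 2 - L.g₂ / 4) := ⟨he, rfl, rfl⟩
  have hK := hcore L hCM e _ _ hN haA hcA n p hp hKI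
  -- algebraic independence
  have hvals : (Sum.elim
        (fun j : Fin n => ∑' q : ℤ × ℤ,
          (1 / (p j - ((q.1 : ℂ) * ω₁ + (q.2 : ℂ) * ω₂)) ^ 2
            - 1 / ((q.1 : ℂ) * ω₁ + (q.2 : ℂ) * ω₂) ^ 2))
        (fun j : Fin n => ∑' q : ℤ × ℤ,
          (1 / (p j - ((q.1 : ℂ) * ω₁ + (q.2 : ℂ) * ω₂))
            + 1 / ((q.1 : ℂ) * ω₁ + (q.2 : ℂ) * ω₂)
            + p j / ((q.1 : ℂ) * ω₁ + (q.2 : ℂ) * ω₂) ^ 2))) =
      Sum.elim (fun j : Fin n => L.weierstrassP (p j)) (fun j : Fin n => H35P.A5_z L (p j)) := by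
    rw [hL]
    funext s
    cases s with
    | inl j => exact (pp_wp ω₁ ω₂ h (p j)).symm
    | inr j => exact (pp_zeta ω₁ ω₂ h (p j)).symm
  rw [hvals, algebraicIndependent_iff]
  intro P hP
  by_contra hP0
  obtain ⟨eA, heA'⟩ : ∃ eA : algebraicClosure ℚ ℂ, algebraMap (algebraicClosure ℚ ℂ) ℂ eA = e := ⟨⟨e, heA⟩, rfl⟩
  have hpA : ∀ j, ∃ q : algebraicClosure ℚ ℂ, algebraMap (algebraicClosure ℚ ℂ) ℂ q = p j := fun j => ⟨⟨p j, (memA _).2 (hp j)⟩, rfl⟩
  choose pA hpA' using hpA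
  obtain ⟨g, hg⟩ : ∃ g : Fin n ⊕ Fin n → MvPolynomial (Fin n × Fin 2) (algebraicClosure ℚ ℂ), g = Sum.elim
    (fun j => MvPolynomial.X (j, 0) + MvPolynomial.C eA)
    (fun j => MvPolynomial.X (j, 1) - MvPolynomial.C (eA * pA j)) := ⟨_, rfl⟩
  -- the substitution is injective
  have hQ0 : MvPolynomial.aeval (R := ℚ) g P ≠ 0 := by
    intro h0
    have h1 : ((MvPolynomial.aeval (R := algebraicClosure ℚ ℂ) (fun i : Fin n × Fin 2 =>
        if i.2 = 0 then (MvPolynomial.X (Sum.inl i.1) - MvPolynomial.C eA : MvPolynomial (Fin n ⊕ Fin n) (algebraicClosure ℚ ℂ))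
        else MvPolynomial.X (Sum.inr i.1) + MvPolynomial.C (eA * pA i.1))).restrictScalars ℚ).comp (MvPolynomial.aeval (R := ℚ) g) =
        MvPolynomial.aeval (R := ℚ) (fun s => (MvPolynomial.X s : MvPolynomial (Fin n ⊕ Fin n) (algebraicClosure ℚ ℂ))) := by
      apply MvPolynomial.algHom_ext
      intro s
      rw [AlgHom.comp_apply, MvPolynomial.aeval_X, MvPolynomial.aeval_X, hg]
      cases s with
      | inl j => simp
      | inr j => simp
    have h2 := DFunLike.congr_fun h1 P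
    rw [AlgHom.comp_apply, h0, map_zero] at h2
    have h3 : MvPolynomial.aeval (R := ℚ) (fun s => (MvPolynomial.X s : MvPolynomial (Fin n ⊕ Fin n) (algebraicClosure ℚ ℂ))) P =
        MvPolynomial.map (algebraMap ℚ (algebraicClosure ℚ ℂ)) P := by
      have h5 : (MvPolynomial.aeval (R := ℚ) (fun s => (MvPolynomial.X s : MvPolynomial (Fin n ⊕ Fin n) (algebraicClosure ℚ ℂ)))).toRingHom =
          MvPolynomial.map (algebraMap ℚ (algebraicClosure ℚ ℂ)) := by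
        apply MvPolynomial.ringHom_ext
        · intro r
          rw [MvPolynomial.map_C]
          exact (MvPolynomial.aeval_C _ r).trans (IsScalarTower.algebraMap_apply ℚ (algebraicClosure ℚ ℂ) _ r)
        · intro i
          rw [MvPolynomial.map_X]
          exact MvPolynomial.aeval_X _ i
      exact DFunLike.congr_fun h5 P
    rw [h3] at h2
    exact hP0 (MvPolynomial.map_injective _ (algebraMap ℚ (algebraicClosure ℚ ℂ)).injective (by rw [← h2, map_zero]))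
  refine hK _ hQ0 ?_
  have h1 : ((MvPolynomial.aeval (R := algebraicClosure ℚ ℂ) (fun i : Fin n × Fin 2 =>
      if i.2 = 0 then xf L e (p i.1) else wf L e (p i.1))).restrictScalars ℚ).comp (MvPolynomial.aeval (R := ℚ) g) =
      MvPolynomial.aeval (R := ℚ) (Sum.elim (fun j : Fin n => L.weierstrassP (p j)) (fun j : Fin n => H35P.A5_z L (p j))) := by
    apply MvPolynomial.algHom_ext
    intro s
    rw [AlgHom.comp_apply, MvPolynomial.aeval_X, MvPolynomial.aeval_X, hg]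
    cases s with
    | inl j => simp [xf, heA']
    | inr j => simp [wf, heA', hpA']
  have h2 := DFunLike.congr_fun h1 P
  rw [AlgHom.comp_apply, hP] at h2
  exact h2

end H16LW
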